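import Pool.Agent.Gen.F5.X123CCDm2.S000
import Pool.Agent.Gen.F5.X123CCDm2.S001
import Pool.Agent.Gen.F5.X123CCDm2.S002

set_option autoImplicit false
set_option maxRecDepth 100000

namespace Pool.Agent.Gen.F5.X123CCDm2

open Pool.Agent.Helper72.F5

def n0 : Cl (O (nat_lit 2)) (R (nat_lit 131281))
    (p (nat_lit 0xb0014) (nat_lit 0) (p (nat_lit 0xb0004) (nat_lit 0) (p (nat_lit 0x20000c) (nat_lit 1) (p (nat_lit 0xc9) (nat_lit 1) (p (nat_lit 0x89) (nat_lit 1) (p (nat_lit 0xc1) (nat_lit 0) (p (nat_lit 0x101) (nat_lit 1) (p (nat_lit 0x119) (nat_lit 0) (p (nat_lit 0xd1) (nat_lit 0) (p (nat_lit 0x81) (nat_lit 0) (p (nat_lit 0x41) (nat_lit 1) (p (nat_lit 0x89088787069a) (nat_lit 0) (p (nat_lit 0x88878706861a) (nat_lit 0) (p (nat_lit 0x80000000080686058a) (nat_lit 0) (p (nat_lit 0x8706058502) (nat_lit 0) (p (nat_lit 0x8605850482) (nat_lit 0) (p (nat_lit 0x160014) (nat_lit 0) (p (nat_lit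 0x160004) (nat_lit 0) (p (nat_lit 0x68512) (nat_lit 0) (p (nat_lit 0x58492) (nat_lit 0) (p (nat_lit 0x48412) (nat_lit 0) (p (nat_lit 0x50312) (nat_lit 0) (p (nat_lit 0x40292) (nat_lit 0) (p (nat_lit 0x30212) (nat_lit 0) (p (nat_lit 0x38112) (nat_lit 0) (p (nat_lit 0x28092) (nat_lit 0) (p (nat_lit 0x18012) (nat_lit 0) pn))))))))))))))))))))))))))) :=
  Cl.node (nat_lit 0x109) (nat_lit 2) (by decide +kernel) (ClAll.succ (ClAll.succ ClAll.zero s66) s67)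

def n1 : Cl (O (nat_lit 2)) (R (nat_lit 131281))
    (p (nat_lit 0x109) (nat_lit 1) (p (nat_lit 0xb0014) (nat_lit 0) (p (nat_lit 0xb0004) (nat_lit 0) (p (nat_lit 0x20000c) (nat_lit 1) (p (nat_lit 0x89) (nat_lit 1) (p (nat_lit 0xc1) (nat_lit 1) (p (nat_lit 0x101) (nat_lit 1) (p (nat_lit 0x119) (nat_lit 0) (p (nat_lit 0xd1) (nat_lit 0) (p (nat_lit 0x81) (nat_lit 0) (p (nat_lit 0x41) (nat_lit 1) (p (nat_lit 0x89088787069a) (nat_lit 0) (p (nat_lit 0x88878706861a) (nat_lit 0) (p (nat_lit 0x80000000080686058a) (nat_lit 0) (p (nat_lit 0x8706058502) (nat_lit 0) (p (nat_lit 0x8605850482) (nat_lit 0) (p (nat_lit 0x160014) (nat_lit 0) (p (nat_lit 0x160004) (nat_lit 0) (p (nat_lit 0x68512) (nat_lit 0) (p (nat_lit 0x58492) (nat_lit 0) (p (nat_lit 0x48412) (nat_lit 0) (p (nat_lit 0x50312) (nat_lit 0) (p (nat_lit 0x40292) (nat_lit 0) (p (nat_lit 0x30212) (nat_lit 0) (p (nat_lit 0x38112) (nat_lit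 0) (p (nat_lit 0x28092) (nat_lit 0) (p (nat_lit 0x18012) (nat_lit 0) pn))))))))))))))))))))))))))) :=
  Cl.node (nat_lit 0x41) (nat_lit 2) (by decide +kernel) (ClAll.succ (ClAll.succ ClAll.zero s73) s74)

def n2 : Cl (O (nat_lit 2)) (R (nat_lit 131281))
    (p (nat_lit 0xb0014) (nat_lit 0) (p (nat_lit 0xb0004) (nat_lit 0) (p (nat_lit 0x20000c) (nat_lit 1) (p (nat_lit 0x109) (nat_lit 0) (p (nat_lit 0x89) (nat_lit 1) (p (nat_lit 0x101) (nat_lit 0) (p (nat_lit 0xc1) (nat_lit 1) (p (nat_lit 0x119) (nat_lit 1) (p (nat_lit 0xd1) (nat_lit 0) (p (nat_lit 0x81) (nat_lit 0) (p (nat_lit 0x41) (nat_lit 1) (p (nat_lit 0x89088787069a) (nat_lit 0) (p (nat_lit 0x88878706861a) (nat_lit 0) (p (nat_lit 0x80000000080686058a) (nat_lit 0) (p (nat_lit 0x8706058502) (nat_lit 0) (p (nat_lit 0x8605850482) (nat_lit 0) (p (nat_lit 0x160014) (nat_lit 0) (p (nat_lit 0x160004) (nat_lit 0) (p (nat_lit 0x68512)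 (nat_lit 0) (p (nat_lit 0x58492) (nat_lit 0) (p (nat_lit 0x48412) (nat_lit 0) (p (nat_lit 0x50312) (nat_lit 0) (p (nat_lit 0x40292) (nat_lit 0) (p (nat_lit 0x30212) (nat_lit 0) (p (nat_lit 0x38112) (nat_lit 0) (p (nat_lit 0x28092) (nat_lit 0) (p (nat_lit 0x18012) (nat_lit 0) pn))))))))))))))))))))))))))) :=
  Cl.node (nat_lit 0x111) (nat_lit 2) (by decide +kernel) (ClAll.succ (ClAll.succ ClAll.zero s84) s85)

def n3 : Cl (O (nat_lit 2)) (R (nat_lit 131281))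
    (p (nat_lit 0xb0014) (nat_lit 0) (p (nat_lit 0xb0004) (nat_lit 0) (p (nat_lit 0x20000c) (nat_lit 1) (p (nat_lit 0x109) (nat_lit 1) (p (nat_lit 0x89) (nat_lit 1) (p (nat_lit 0x101) (nat_lit 0) (p (nat_lit 0xc1) (nat_lit 1) (p (nat_lit 0x119) (nat_lit 1) (p (nat_lit 0xd1) (nat_lit 0) (p (nat_lit 0x81) (nat_lit 0) (p (nat_lit 0x41) (nat_lit 1) (p (nat_lit 0x89088787069a) (nat_lit 0) (p (nat_lit 0x88878706861a) (nat_lit 0) (p (nat_lit 0x80000000080686058a) (nat_lit 0) (p (nat_lit 0x8706058502) (nat_lit 0) (p (nat_lit 0x8605850482) (nat_lit 0) (p (nat_lit 0x160014) (nat_lit 0) (p (nat_lit 0x160004) (nat_lit 0) (p (nat_lit 0x68512) (nat_lit 0) (p (nat_lit 0x58492) (nat_lit 0) (p (nat_lit 0x48412) (nat_lit 0) (p (nat_lit 0x50312) (nat_lit 0) (p (nat_lit 0x40292) (nat_lit 0) (p (nat_lit 0x30212) (nat_lit 0) (p (nat_lit 0x38112) (nat_lit 0) (p (nat_lit 0x28092) (nat_lit 0) (p (nat_lit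 0x18012) (nat_lit 0) pn))))))))))))))))))))))))))) :=
  Cl.node (nat_lit 0xc9) (nat_lit 2) (by decide +kernel) (ClAll.succ (ClAll.succ ClAll.zero s89) s90)

def n4 : Cl (O (nat_lit 2)) (R (nat_lit 131281))
    (p (nat_lit 0xc9) (nat_lit 1) (p (nat_lit 0xb0014) (nat_lit 0) (p (nat_lit 0xb0004) (nat_lit 0) (p (nat_lit 0x20000c) (nat_lit 1) (p (nat_lit 0x89) (nat_lit 1) (p (nat_lit 0x101) (nat_lit 1) (p (nat_lit 0xc1) (nat_lit 1) (p (nat_lit 0x119) (nat_lit 1) (p (nat_lit 0xd1) (nat_lit 0) (p (nat_lit 0x81) (nat_lit 0) (p (nat_lit 0x41) (nat_lit 1) (p (nat_lit 0x89088787069a) (nat_lit 0) (p (nat_lit 0x88878706861a) (nat_lit 0) (p (nat_lit 0x80000000080686058a) (nat_lit 0) (p (nat_lit 0x8706058502) (nat_lit 0) (p (nat_lit 0x8605850482) (nat_lit 0) (p (nat_lit 0x160014) (nat_lit 0) (p (nat_lit 0x160004) (nat_lit 0) (p (nat_lit 0x68512) (nat_lit 0) (p (nat_lit 0x58492) (nat_lit 0)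 (p (nat_lit 0x48412) (nat_lit 0) (p (nat_lit 0x50312) (nat_lit 0) (p (nat_lit 0x40292) (nat_lit 0) (p (nat_lit 0x30212) (nat_lit 0) (p (nat_lit 0x38112) (nat_lit 0) (p (nat_lit 0x28092) (nat_lit 0) (p (nat_lit 0x18012) (nat_lit 0) pn))))))))))))))))))))))))))) :=
  Cl.node (nat_lit 0x41) (nat_lit 2) (by decide +kernel) (ClAll.succ (ClAll.succ ClAll.zero s96) s97)

def n5 : Cl (O (nat_lit 2)) (R (nat_lit 131281))
    (p (nat_lit 0xb0014) (nat_lit 0) (p (nat_lit 0xb0004) (nat_lit 0) (p (nat_lit 0x20000c) (nat_lit 1) (p (nat_lit 0xc9) (nat_lit 0) (p (nat_lit 0x89) (nat_lit 1) (p (nat_lit 0x109) (nat_lit 1) (p (nat_lit 0x101) (nat_lit 0) (p (nat_lit 0x111) (nat_lit 0) (p (nat_lit 0xd1) (nat_lit 1) (p (nat_lit 0x81) (nat_lit 0) (p (nat_lit 0x41) (nat_lit 1) (p (nat_lit 0x89088787069a) (nat_lit 0) (p (nat_lit 0x88878706861a) (nat_lit 0) (p (nat_lit 0x80000000080686058a) (nat_lit 0)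 (p (nat_lit 0x8706058502) (nat_lit 0) (p (nat_lit 0x8605850482) (nat_lit 0) (p (nat_lit 0x160014) (nat_lit 0) (p (nat_lit 0x160004) (nat_lit 0) (p (nat_lit 0x68512) (nat_lit 0) (p (nat_lit 0x58492) (nat_lit 0) (p (nat_lit 0x48412) (nat_lit 0) (p (nat_lit 0x50312) (nat_lit 0) (p (nat_lit 0x40292) (nat_lit 0) (p (nat_lit 0x30212) (nat_lit 0) (p (nat_lit 0x38112) (nat_lit 0) (p (nat_lit 0x28092) (nat_lit 0) (p (nat_lit 0x18012) (nat_lit 0) pn))))))))))))))))))))))))))) :=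
  Cl.node (nat_lit 0x119) (nat_lit 2) (by decide +kernel) (ClAll.succ (ClAll.succ ClAll.zero s103) s104)

def n6 : Cl (O (nat_lit 2)) (R (nat_lit 131281))
    (p (nat_lit 0xb0014) (nat_lit 0) (p (nat_lit 0xb0004) (nat_lit 0) (p (nat_lit 0x20000c) (nat_lit 1) (p (nat_lit 0xc9) (nat_lit 1) (p (nat_lit 0x81) (nat_lit 0) (p (nat_lit 0x101) (nat_lit 1) (p (nat_lit 0x119) (nat_lit 0) (p (nat_lit 0xd1) (nat_lit 0) (p (nat_lit 0x89) (nat_lit 0) (p (nat_lit 0x41) (nat_lit 0) (p (nat_lit 0x89088787069a) (nat_lit 0) (p (nat_lit 0x88878706861a) (nat_lit 0) (p (nat_lit 0x80000000080686058a) (nat_lit 0) (p (nat_lit 0x8706058502) (nat_lit 0) (p (nat_lit 0x8605850482) (nat_lit 0) (p (nat_lit 0x160014) (nat_lit 0) (p (nat_lit 0x160004) (nat_lit 0) (p (nat_lit 0x68512) (nat_lit 0) (p (nat_lit 0x58492) (nat_lit 0) (p (nat_lit 0x48412) (nat_lit 0) (p (nat_lit 0x50312) (nat_lit 0) (p (nat_lit 0x40292)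 (nat_lit 0) (p (nat_lit 0x30212) (nat_lit 0) (p (nat_lit 0x38112) (nat_lit 0) (p (nat_lit 0x28092) (nat_lit 0) (p (nat_lit 0x18012) (nat_lit 0) pn)))))))))))))))))))))))))) :=
  Cl.node (nat_lit 0x111) (nat_lit 2) (by decide +kernel) (ClAll.succ (ClAll.succ ClAll.zero s6) s7)

def n7 : Cl (O (nat_lit 2)) (R (nat_lit 131281))
    (p (nat_lit 0xb0014) (nat_lit 0) (p (nat_lit 0xb0004) (nat_lit 0) (p (nat_lit 0x20000c) (nat_lit 1) (p (nat_lit 0xc1) (nat_lit 0) (p (nat_lit 0x81) (nat_lit 1) (p (nat_lit 0x101) (nat_lit 1) (p (nat_lit 0x111) (nat_lit 0) (p (nat_lit 0xd1) (nat_lit 1) (p (nat_lit 0x89) (nat_lit 0) (p (nat_lit 0x41) (nat_lit 0) (p (nat_lit 0x89088787069a) (nat_lit 0) (p (nat_lit 0x88878706861a) (nat_lit 0) (p (nat_lit 0x80000000080686058a) (nat_lit 0) (p (nat_lit 0x8706058502) (nat_lit 0) (p (nat_lit 0x8605850482) (nat_lit 0) (p (nat_lit 0x160014) (nat_lit 0) (p (nat_lit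 0x160004) (nat_lit 0) (p (nat_lit 0x68512) (nat_lit 0) (p (nat_lit 0x58492) (nat_lit 0) (p (nat_lit 0x48412) (nat_lit 0) (p (nat_lit 0x50312) (nat_lit 0) (p (nat_lit 0x40292) (nat_lit 0) (p (nat_lit 0x30212) (nat_lit 0) (p (nat_lit 0x38112) (nat_lit 0) (p (nat_lit 0x28092) (nat_lit 0) (p (nat_lit 0x18012) (nat_lit 0) pn)))))))))))))))))))))))))) :=
  Cl.node (nat_lit 0x119) (nat_lit 2) (by decide +kernel) (ClAll.succ (ClAll.succ ClAll.zero s31) s32)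

def n8 : Cl (O (nat_lit 2)) (R (nat_lit 131281))
    (p (nat_lit 0xb0014) (nat_lit 0) (p (nat_lit 0xb0004) (nat_lit 0) (p (nat_lit 0x20000c) (nat_lit 1) (p (nat_lit 0x101) (nat_lit 0) (p (nat_lit 0xc1) (nat_lit 1) (p (nat_lit 0x81) (nat_lit 1) (p (nat_lit 0x111) (nat_lit 1) (p (nat_lit 0xd1) (nat_lit 1) (p (nat_lit 0x89) (nat_lit 0) (p (nat_lit 0x41) (nat_lit 0) (p (nat_lit 0x89088787069a) (nat_lit 0) (p (nat_lit 0x88878706861a) (nat_lit 0) (p (nat_lit 0x80000000080686058a) (nat_lit 0) (p (nat_lit 0x8706058502) (nat_lit 0) (p (nat_lit 0x8605850482) (nat_lit 0) (p (nat_lit 0x160014) (nat_lit 0) (p (nat_lit 0x160004) (nat_lit 0) (p (nat_lit 0x68512) (nat_lit 0) (p (nat_lit 0x58492) (nat_lit 0) (p (nat_lit 0x48412) (nat_lit 0) (p (nat_lit 0x50312) (nat_lit 0) (p (nat_lit 0x40292) (nat_lit 0) (p (nat_lit 0x30212) (nat_lit 0) (p (nat_lit 0x38112) (nat_lit 0) (p (nat_lit 0x28092)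 (nat_lit 0) (p (nat_lit 0x18012) (nat_lit 0) pn)))))))))))))))))))))))))) :=
  Cl.node (nat_lit 0x109) (nat_lit 2) (by decide +kernel) (ClAll.succ (ClAll.succ ClAll.zero s39) s40)

def n9 : Cl (O (nat_lit 2)) (R (nat_lit 131281))
    (p (nat_lit 0xb0014) (nat_lit 0) (p (nat_lit 0xb0004) (nat_lit 0) (p (nat_lit 0x20000c) (nat_lit 1) (p (nat_lit 0xd1) (nat_lit 0) (p (nat_lit 0xc1) (nat_lit 0) (p (nat_lit 0x101) (nat_lit 1) (p (nat_lit 0x119) (nat_lit 0) (p (nat_lit 0xc9) (nat_lit 0) (p (nat_lit 0x89) (nat_lit 1) (p (nat_lit 0x41) (nat_lit 0) (p (nat_lit 0x89088787069a) (nat_lit 0) (p (nat_lit 0x88878706861a) (nat_lit 0) (p (nat_lit 0x80000000080686058a) (nat_lit 0) (p (nat_lit 0x8706058502) (nat_lit 0) (p (nat_lit 0x8605850482) (nat_lit 0) (p (nat_lit 0x160014) (nat_lit 0) (p (nat_lit 0x160004) (nat_lit 0) (p (nat_lit 0x68512) (nat_lit 0) (p (nat_lit 0x58492) (nat_lit 0) (p (nat_lit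 0x48412) (nat_lit 0) (p (nat_lit 0x50312) (nat_lit 0) (p (nat_lit 0x40292) (nat_lit 0) (p (nat_lit 0x30212) (nat_lit 0) (p (nat_lit 0x38112) (nat_lit 0) (p (nat_lit 0x28092) (nat_lit 0) (p (nat_lit 0x18012) (nat_lit 0) pn)))))))))))))))))))))))))) :=
  Cl.node (nat_lit 0x109) (nat_lit 2) (by decide +kernel) (ClAll.succ (ClAll.succ ClAll.zero s48) s49)

def n10 : Cl (O (nat_lit 2)) (R (nat_lit 131281))
    (p (nat_lit 0xb0004) (nat_lit 0) (p (nat_lit 0x20000c) (nat_lit 1) (p (nat_lit 0xc9) (nat_lit 1) (p (nat_lit 0x89) (nat_lit 1) (p (nat_lit 0xc1) (nat_lit 0) (p (nat_lit 0x101) (nat_lit 1) (p (nat_lit 0x119) (nat_lit 0) (p (nat_lit 0xd1) (nat_lit 0) (p (nat_lit 0x81) (nat_lit 0) (p (nat_lit 0x41) (nat_lit 1) (p (nat_lit 0x89088787069a) (nat_lit 0) (p (nat_lit 0x88878706861a) (nat_lit 0) (p (nat_lit 0x80000000080686058a) (nat_lit 0) (p (nat_lit 0x8706058502) (nat_lit 0) (p (nat_lit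 0x8605850482) (nat_lit 0) (p (nat_lit 0x160014) (nat_lit 0) (p (nat_lit 0x160004) (nat_lit 0) (p (nat_lit 0x68512) (nat_lit 0) (p (nat_lit 0x58492) (nat_lit 0) (p (nat_lit 0x48412) (nat_lit 0) (p (nat_lit 0x50312) (nat_lit 0) (p (nat_lit 0x40292) (nat_lit 0) (p (nat_lit 0x30212) (nat_lit 0) (p (nat_lit 0x38112) (nat_lit 0) (p (nat_lit 0x28092) (nat_lit 0) (p (nat_lit 0x18012) (nat_lit 0) pn)))))))))))))))))))))))))) :=
  Cl.node (nat_lit 0xb0014) (nat_lit 2) (by decide +kernel) (ClAll.succ (ClAll.succ ClAll.zero n0) s68)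

def n11 : Cl (O (nat_lit 2)) (R (nat_lit 131281))
    (p (nat_lit 0xb0014) (nat_lit 0) (p (nat_lit 0xb0004) (nat_lit 0) (p (nat_lit 0x20000c) (nat_lit 1) (p (nat_lit 0x89) (nat_lit 1) (p (nat_lit 0xc1) (nat_lit 1) (p (nat_lit 0x101) (nat_lit 1) (p (nat_lit 0x119) (nat_lit 0) (p (nat_lit 0xd1) (nat_lit 0) (p (nat_lit 0x81) (nat_lit 0) (p (nat_lit 0x41) (nat_lit 1) (p (nat_lit 0x89088787069a) (nat_lit 0) (p (nat_lit 0x88878706861a) (nat_lit 0) (p (nat_lit 0x80000000080686058a) (nat_lit 0) (p (nat_lit 0x8706058502) (nat_lit 0) (p (nat_lit 0x8605850482) (nat_lit 0) (p (nat_lit 0x160014) (nat_lit 0) (p (nat_lit 0x160004) (nat_lit 0) (p (nat_lit 0x68512) (nat_lit 0) (p (nat_lit 0x58492) (nat_lit 0) (p (nat_lit 0x48412) (nat_lit 0) (p (nat_lit 0x50312) (nat_lit 0) (p (nat_lit 0x40292) (nat_lit 0) (p (nat_lit 0x30212) (nat_lit 0) (p (nat_lit 0x38112) (nat_lit 0) (p (nat_lit 0x28092)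 (nat_lit 0) (p (nat_lit 0x18012) (nat_lit 0) pn)))))))))))))))))))))))))) :=
  Cl.node (nat_lit 0x109) (nat_lit 2) (by decide +kernel) (ClAll.succ (ClAll.succ ClAll.zero s72) n1)

def n12 : Cl (O (nat_lit 2)) (R (nat_lit 131281))
    (p (nat_lit 0xb0004) (nat_lit 0) (p (nat_lit 0x20000c) (nat_lit 1) (p (nat_lit 0x109) (nat_lit 0) (p (nat_lit 0x89) (nat_lit 1) (p (nat_lit 0x101) (nat_lit 0) (p (nat_lit 0xc1) (nat_lit 1) (p (nat_lit 0x119) (nat_lit 1) (p (nat_lit 0xd1) (nat_lit 0) (p (nat_lit 0x81) (nat_lit 0) (p (nat_lit 0x41) (nat_lit 1) (p (nat_lit 0x89088787069a) (nat_lit 0) (p (nat_lit 0x88878706861a) (nat_lit 0) (p (nat_lit 0x80000000080686058a) (nat_lit 0) (p (nat_lit 0x8706058502) (nat_lit 0) (p (nat_lit 0x8605850482) (nat_lit 0) (p (nat_lit 0x160014) (nat_lit 0) (p (nat_lit 0x160004) (nat_lit 0) (p (nat_lit 0x68512) (nat_lit 0) (p (nat_lit 0x58492) (nat_lit 0) (p (nat_lit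 0x48412) (nat_lit 0) (p (nat_lit 0x50312) (nat_lit 0) (p (nat_lit 0x40292) (nat_lit 0) (p (nat_lit 0x30212) (nat_lit 0) (p (nat_lit 0x38112) (nat_lit 0) (p (nat_lit 0x28092) (nat_lit 0) (p (nat_lit 0x18012) (nat_lit 0) pn)))))))))))))))))))))))))) :=
  Cl.node (nat_lit 0xb0014) (nat_lit 2) (by decide +kernel) (ClAll.succ (ClAll.succ ClAll.zero n2) s86)

def n13 : Cl (O (nat_lit 2)) (R (nat_lit 131281))
    (p (nat_lit 0xb0004) (nat_lit 0) (p (nat_lit 0x20000c) (nat_lit 1) (p (nat_lit 0x109) (nat_lit 1) (p (nat_lit 0x89) (nat_lit 1) (p (nat_lit 0x101) (nat_lit 0) (p (nat_lit 0xc1) (nat_lit 1) (p (nat_lit 0x119) (nat_lit 1) (p (nat_lit 0xd1) (nat_lit 0) (p (nat_lit 0x81) (nat_lit 0) (p (nat_lit 0x41) (nat_lit 1) (p (nat_lit 0x89088787069a) (nat_lit 0) (p (nat_lit 0x88878706861a) (nat_lit 0) (p (nat_lit 0x80000000080686058a) (nat_lit 0) (p (nat_lit 0x8706058502) (nat_lit 0) (p (nat_lit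 0x8605850482) (nat_lit 0) (p (nat_lit 0x160014) (nat_lit 0) (p (nat_lit 0x160004) (nat_lit 0) (p (nat_lit 0x68512) (nat_lit 0) (p (nat_lit 0x58492) (nat_lit 0) (p (nat_lit 0x48412) (nat_lit 0) (p (nat_lit 0x50312) (nat_lit 0) (p (nat_lit 0x40292) (nat_lit 0) (p (nat_lit 0x30212) (nat_lit 0) (p (nat_lit 0x38112) (nat_lit 0) (p (nat_lit 0x28092) (nat_lit 0) (p (nat_lit 0x18012) (nat_lit 0) pn)))))))))))))))))))))))))) :=
  Cl.node (nat_lit 0xb0014) (nat_lit 2) (by decide +kernel) (ClAll.succ (ClAll.succ ClAll.zero n3) s91)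

def n14 : Cl (O (nat_lit 2)) (R (nat_lit 131281))
    (p (nat_lit 0xb0014) (nat_lit 0) (p (nat_lit 0xb0004) (nat_lit 0) (p (nat_lit 0x20000c) (nat_lit 1) (p (nat_lit 0x89) (nat_lit 1) (p (nat_lit 0x101) (nat_lit 1) (p (nat_lit 0xc1) (nat_lit 1) (p (nat_lit 0x119) (nat_lit 1) (p (nat_lit 0xd1) (nat_lit 0) (p (nat_lit 0x81) (nat_lit 0) (p (nat_lit 0x41) (nat_lit 1) (p (nat_lit 0x89088787069a) (nat_lit 0) (p (nat_lit 0x88878706861a) (nat_lit 0) (p (nat_lit 0x80000000080686058a) (nat_lit 0) (p (nat_lit 0x8706058502) (nat_lit 0) (p (nat_lit 0x8605850482) (nat_lit 0) (p (nat_lit 0x160014) (nat_lit 0) (p (nat_lit 0x160004) (nat_lit 0) (p (nat_lit 0x68512) (nat_lit 0) (p (nat_lit 0x58492) (nat_lit 0) (p (nat_lit 0x48412) (nat_lit 0) (p (nat_lit 0x50312) (nat_lit 0) (p (nat_lit 0x40292) (nat_lit 0) (p (nat_lit 0x30212) (nat_lit 0) (p (nat_lit 0x38112) (nat_lit 0) (p (nat_lit 0x28092)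 (nat_lit 0) (p (nat_lit 0x18012) (nat_lit 0) pn)))))))))))))))))))))))))) :=
  Cl.node (nat_lit 0xc9) (nat_lit 2) (by decide +kernel) (ClAll.succ (ClAll.succ ClAll.zero s95) n4)

def n15 : Cl (O (nat_lit 2)) (R (nat_lit 131281))
    (p (nat_lit 0xb0004) (nat_lit 0) (p (nat_lit 0x20000c) (nat_lit 1) (p (nat_lit 0xc9) (nat_lit 0) (p (nat_lit 0x89) (nat_lit 1) (p (nat_lit 0x109) (nat_lit 1) (p (nat_lit 0x101) (nat_lit 0) (p (nat_lit 0x111) (nat_lit 0) (p (nat_lit 0xd1) (nat_lit 1) (p (nat_lit 0x81) (nat_lit 0) (p (nat_lit 0x41) (nat_lit 1) (p (nat_lit 0x89088787069a) (nat_lit 0) (p (nat_lit 0x88878706861a) (nat_lit 0) (p (nat_lit 0x80000000080686058a) (nat_lit 0) (p (nat_lit 0x8706058502) (nat_lit 0) (p (nat_lit 0x8605850482) (nat_lit 0) (p (nat_lit 0x160014) (nat_lit 0) (p (nat_lit 0x160004) (nat_lit 0) (p (nat_lit 0x68512) (nat_lit 0) (p (nat_lit 0x58492) (nat_lit 0) (p (nat_lit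 0x48412) (nat_lit 0) (p (nat_lit 0x50312) (nat_lit 0) (p (nat_lit 0x40292) (nat_lit 0) (p (nat_lit 0x30212) (nat_lit 0) (p (nat_lit 0x38112) (nat_lit 0) (p (nat_lit 0x28092) (nat_lit 0) (p (nat_lit 0x18012) (nat_lit 0) pn)))))))))))))))))))))))))) :=
  Cl.node (nat_lit 0xb0014) (nat_lit 2) (by decide +kernel) (ClAll.succ (ClAll.succ ClAll.zero n5) s105)

def n16 : Cl (O (nat_lit 2)) (R (nat_lit 131281))
    (p (nat_lit 0xb0014) (nat_lit 0) (p (nat_lit 0xb0004) (nat_lit 0) (p (nat_lit 0x20000c) (nat_lit 1) (p (nat_lit 0x111) (nat_lit 1) (p (nat_lit 0x109) (nat_lit 0) (p (nat_lit 0xc9) (nat_lit 1) (p (nat_lit 0x119) (nat_lit 1) (p (nat_lit 0xc1) (nat_lit 0) (p (nat_lit 0x81) (nat_lit 1) (p (nat_lit 0x41) (nat_lit 1) (p (nat_lit 0x89088787069a) (nat_lit 0) (p (nat_lit 0x88878706861a) (nat_lit 0) (p (nat_lit 0x80000000080686058a) (nat_lit 0) (p (nat_lit 0x8706058502) (nat_lit 0)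 (p (nat_lit 0x8605850482) (nat_lit 0) (p (nat_lit 0x160014) (nat_lit 0) (p (nat_lit 0x160004) (nat_lit 0) (p (nat_lit 0x68512) (nat_lit 0) (p (nat_lit 0x58492) (nat_lit 0) (p (nat_lit 0x48412) (nat_lit 0) (p (nat_lit 0x50312) (nat_lit 0) (p (nat_lit 0x40292) (nat_lit 0) (p (nat_lit 0x30212) (nat_lit 0) (p (nat_lit 0x38112) (nat_lit 0) (p (nat_lit 0x28092) (nat_lit 0) (p (nat_lit 0x18012) (nat_lit 0) pn)))))))))))))))))))))))))) :=
  Cl.node (nat_lit 0xd1) (nat_lit 2) (by decide +kernel) (ClAll.succ (ClAll.succ ClAll.zero s128) s129)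

def n17 : Cl (O (nat_lit 2)) (R (nat_lit 131281))
    (p (nat_lit 0xd1) (nat_lit 0) (p (nat_lit 0xb0014) (nat_lit 0) (p (nat_lit 0xb0004) (nat_lit 0) (p (nat_lit 0x20000c) (nat_lit 1) (p (nat_lit 0x109) (nat_lit 1) (p (nat_lit 0xc9) (nat_lit 1) (p (nat_lit 0x119) (nat_lit 1) (p (nat_lit 0xc1) (nat_lit 0) (p (nat_lit 0x81) (nat_lit 1) (p (nat_lit 0x41) (nat_lit 1) (p (nat_lit 0x89088787069a) (nat_lit 0) (p (nat_lit 0x88878706861a) (nat_lit 0) (p (nat_lit 0x80000000080686058a) (nat_lit 0) (p (nat_lit 0x8706058502) (nat_lit 0) (p (nat_lit 0x8605850482) (nat_lit 0) (p (nat_lit 0x160014) (nat_lit 0) (p (nat_lit 0x160004) (nat_lit 0) (p (nat_lit 0x68512) (nat_lit 0) (p (nat_lit 0x58492) (nat_lit 0) (p (nat_lit 0x48412) (nat_lit 0) (p (nat_lit 0x50312) (nat_lit 0) (p (nat_lit 0x40292) (nat_lit 0) (p (nat_lit 0x30212) (nat_lit 0) (p (nat_lit 0x38112) (nat_lit 0) (p (nat_lit 0x28092)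 (nat_lit 0) (p (nat_lit 0x18012) (nat_lit 0) pn)))))))))))))))))))))))))) :=
  Cl.node (nat_lit 0x41) (nat_lit 2) (by decide +kernel) (ClAll.succ (ClAll.succ ClAll.zero s133) s134)

def n18 : Cl (O (nat_lit 2)) (R (nat_lit 131281))
    (p (nat_lit 0xb0004) (nat_lit 0) (p (nat_lit 0x20000c) (nat_lit 1) (p (nat_lit 0xc9) (nat_lit 1) (p (nat_lit 0x81) (nat_lit 0) (p (nat_lit 0x101) (nat_lit 1) (p (nat_lit 0x119) (nat_lit 0) (p (nat_lit 0xd1) (nat_lit 0) (p (nat_lit 0x89) (nat_lit 0) (p (nat_lit 0x41) (nat_lit 0) (p (nat_lit 0x89088787069a) (nat_lit 0) (p (nat_lit 0x88878706861a) (nat_lit 0) (p (nat_lit 0x80000000080686058a) (nat_lit 0) (p (nat_lit 0x8706058502) (nat_lit 0) (p (nat_lit 0x8605850482) (nat_lit 0) (p (nat_lit 0x160014) (nat_lit 0) (p (nat_lit 0x160004) (nat_lit 0) (p (nat_lit 0x68512) (nat_lit 0) (p (nat_lit 0x58492) (nat_lit 0) (p (nat_lit 0x48412) (nat_lit 0) (p (nat_lit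 0x50312) (nat_lit 0) (p (nat_lit 0x40292) (nat_lit 0) (p (nat_lit 0x30212) (nat_lit 0) (p (nat_lit 0x38112) (nat_lit 0) (p (nat_lit 0x28092) (nat_lit 0) (p (nat_lit 0x18012) (nat_lit 0) pn))))))))))))))))))))))))) :=
  Cl.node (nat_lit 0xb0014) (nat_lit 2) (by decide +kernel) (ClAll.succ (ClAll.succ ClAll.zero n6) s8)

def n19 : Cl (O (nat_lit 2)) (R (nat_lit 131281))
    (p (nat_lit 0xb0014) (nat_lit 0) (p (nat_lit 0xb0004) (nat_lit 0) (p (nat_lit 0x20000c) (nat_lit 1) (p (nat_lit 0x81) (nat_lit 0) (p (nat_lit 0x101) (nat_lit 1) (p (nat_lit 0x111) (nat_lit 0) (p (nat_lit 0xd1) (nat_lit 1) (p (nat_lit 0x89) (nat_lit 0) (p (nat_lit 0x41) (nat_lit 0) (p (nat_lit 0x89088787069a) (nat_lit 0) (p (nat_lit 0x88878706861a) (nat_lit 0) (p (nat_lit 0x80000000080686058a) (nat_lit 0) (p (nat_lit 0x8706058502) (nat_lit 0) (p (nat_lit 0x8605850482) (nat_lit 0) (p (nat_lit 0x160014) (nat_lit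 0) (p (nat_lit 0x160004) (nat_lit 0) (p (nat_lit 0x68512) (nat_lit 0) (p (nat_lit 0x58492) (nat_lit 0) (p (nat_lit 0x48412) (nat_lit 0) (p (nat_lit 0x50312) (nat_lit 0) (p (nat_lit 0x40292) (nat_lit 0) (p (nat_lit 0x30212) (nat_lit 0) (p (nat_lit 0x38112) (nat_lit 0) (p (nat_lit 0x28092) (nat_lit 0) (p (nat_lit 0x18012) (nat_lit 0) pn))))))))))))))))))))))))) :=
  Cl.node (nat_lit 0x119) (nat_lit 2) (by decide +kernel) (ClAll.succ (ClAll.succ ClAll.zero s26) s27)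

def n20 : Cl (O (nat_lit 2)) (R (nat_lit 131281))
    (p (nat_lit 0xb0004) (nat_lit 0) (p (nat_lit 0x20000c) (nat_lit 1) (p (nat_lit 0xc1) (nat_lit 0) (p (nat_lit 0x81) (nat_lit 1) (p (nat_lit 0x101) (nat_lit 1) (p (nat_lit 0x111) (nat_lit 0) (p (nat_lit 0xd1) (nat_lit 1) (p (nat_lit 0x89) (nat_lit 0) (p (nat_lit 0x41) (nat_lit 0) (p (nat_lit 0x89088787069a) (nat_lit 0) (p (nat_lit 0x88878706861a) (nat_lit 0) (p (nat_lit 0x80000000080686058a) (nat_lit 0) (p (nat_lit 0x8706058502) (nat_lit 0) (p (nat_lit 0x8605850482) (nat_lit 0) (p (nat_lit 0x160014) (nat_lit 0) (p (nat_lit 0x160004) (nat_lit 0) (p (nat_lit 0x68512) (nat_lit 0) (p (nat_lit 0x58492) (nat_lit 0) (p (nat_lit 0x48412) (nat_lit 0) (p (nat_lit 0x50312) (nat_lit 0) (p (nat_lit 0x40292) (nat_lit 0) (p (nat_lit 0x30212) (nat_lit 0) (p (nat_lit 0x38112) (nat_lit 0) (p (nat_lit 0x28092) (nat_lit 0) (p (nat_lit 0x18012)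 (nat_lit 0) pn))))))))))))))))))))))))) :=
  Cl.node (nat_lit 0xb0014) (nat_lit 2) (by decide +kernel) (ClAll.succ (ClAll.succ ClAll.zero n7) s33)

def n21 : Cl (O (nat_lit 2)) (R (nat_lit 131281))
    (p (nat_lit 0xb0004) (nat_lit 0) (p (nat_lit 0x20000c) (nat_lit 1) (p (nat_lit 0x101) (nat_lit 0) (p (nat_lit 0xc1) (nat_lit 1) (p (nat_lit 0x81) (nat_lit 1) (p (nat_lit 0x111) (nat_lit 1) (p (nat_lit 0xd1) (nat_lit 1) (p (nat_lit 0x89) (nat_lit 0) (p (nat_lit 0x41) (nat_lit 0) (p (nat_lit 0x89088787069a) (nat_lit 0) (p (nat_lit 0x88878706861a) (nat_lit 0) (p (nat_lit 0x80000000080686058a) (nat_lit 0) (p (nat_lit 0x8706058502) (nat_lit 0) (p (nat_lit 0x8605850482) (nat_lit 0) (p (nat_lit 0x160014) (nat_lit 0) (p (nat_lit 0x160004) (nat_lit 0) (p (nat_lit 0x68512) (nat_lit 0) (p (nat_lit 0x58492) (nat_lit 0) (p (nat_lit 0x48412) (nat_lit 0) (p (nat_lit 0x50312) (nat_lit 0) (p (nat_lit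 0x40292) (nat_lit 0) (p (nat_lit 0x30212) (nat_lit 0) (p (nat_lit 0x38112) (nat_lit 0) (p (nat_lit 0x28092) (nat_lit 0) (p (nat_lit 0x18012) (nat_lit 0) pn))))))))))))))))))))))))) :=
  Cl.node (nat_lit 0xb0014) (nat_lit 2) (by decide +kernel) (ClAll.succ (ClAll.succ ClAll.zero n8) s41)

def n22 : Cl (O (nat_lit 2)) (R (nat_lit 131281))
    (p (nat_lit 0xb0004) (nat_lit 0) (p (nat_lit 0x20000c) (nat_lit 1) (p (nat_lit 0xd1) (nat_lit 0) (p (nat_lit 0xc1) (nat_lit 0) (p (nat_lit 0x101) (nat_lit 1) (p (nat_lit 0x119) (nat_lit 0) (p (nat_lit 0xc9) (nat_lit 0) (p (nat_lit 0x89) (nat_lit 1) (p (nat_lit 0x41) (nat_lit 0) (p (nat_lit 0x89088787069a) (nat_lit 0) (p (nat_lit 0x88878706861a) (nat_lit 0) (p (nat_lit 0x80000000080686058a) (nat_lit 0) (p (nat_lit 0x8706058502) (nat_lit 0) (p (nat_lit 0x8605850482) (nat_lit 0) (p (nat_lit 0x160014) (nat_lit 0) (p (nat_lit 0x160004) (nat_lit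 0) (p (nat_lit 0x68512) (nat_lit 0) (p (nat_lit 0x58492) (nat_lit 0) (p (nat_lit 0x48412) (nat_lit 0) (p (nat_lit 0x50312) (nat_lit 0) (p (nat_lit 0x40292) (nat_lit 0) (p (nat_lit 0x30212) (nat_lit 0) (p (nat_lit 0x38112) (nat_lit 0) (p (nat_lit 0x28092) (nat_lit 0) (p (nat_lit 0x18012) (nat_lit 0) pn))))))))))))))))))))))))) :=
  Cl.node (nat_lit 0xb0014) (nat_lit 2) (by decide +kernel) (ClAll.succ (ClAll.succ ClAll.zero n9) s50)

def n23 : Cl (O (nat_lit 2)) (R (nat_lit 131281))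
    (p (nat_lit 0x20000c) (nat_lit 1) (p (nat_lit 0xc9) (nat_lit 1) (p (nat_lit 0x89) (nat_lit 1) (p (nat_lit 0xc1) (nat_lit 0) (p (nat_lit 0x101) (nat_lit 1) (p (nat_lit 0x119) (nat_lit 0) (p (nat_lit 0xd1) (nat_lit 0) (p (nat_lit 0x81) (nat_lit 0) (p (nat_lit 0x41) (nat_lit 1) (p (nat_lit 0x89088787069a) (nat_lit 0) (p (nat_lit 0x88878706861a) (nat_lit 0) (p (nat_lit 0x80000000080686058a) (nat_lit 0) (p (nat_lit 0x8706058502) (nat_lit 0) (p (nat_lit 0x8605850482) (nat_lit 0) (p (nat_lit 0x160014) (nat_lit 0) (p (nat_lit 0x160004) (nat_lit 0) (p (nat_lit 0x68512) (nat_lit 0) (p (nat_lit 0x58492) (nat_lit 0) (p (nat_lit 0x48412) (nat_lit 0) (p (nat_lit 0x50312) (nat_lit 0) (p (nat_lit 0x40292) (nat_lit 0) (p (nat_lit 0x30212) (nat_lit 0) (p (nat_lit 0x38112) (nat_lit 0) (p (nat_lit 0x28092) (nat_lit 0) (p (nat_lit 0x18012) (nat_lit 0) pn))))))))))))))))))))))))) :=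
  Cl.node (nat_lit 0xb0004) (nat_lit 2) (by decide +kernel) (ClAll.succ (ClAll.succ ClAll.zero n10) s69)

def n24 : Cl (O (nat_lit 2)) (R (nat_lit 131281))
    (p (nat_lit 0xb0004) (nat_lit 0) (p (nat_lit 0x20000c) (nat_lit 1) (p (nat_lit 0x89) (nat_lit 1) (p (nat_lit 0xc1) (nat_lit 1) (p (nat_lit 0x101) (nat_lit 1) (p (nat_lit 0x119) (nat_lit 0) (p (nat_lit 0xd1) (nat_lit 0) (p (nat_lit 0x81) (nat_lit 0) (p (nat_lit 0x41) (nat_lit 1) (p (nat_lit 0x89088787069a) (nat_lit 0) (p (nat_lit 0x88878706861a) (nat_lit 0) (p (nat_lit 0x80000000080686058a) (nat_lit 0) (p (nat_lit 0x8706058502) (nat_lit 0) (p (nat_lit 0x8605850482) (nat_lit 0) (p (nat_lit 0x160014) (nat_lit 0) (p (nat_lit 0x160004) (nat_lit 0) (p (nat_lit 0x68512) (nat_lit 0) (p (nat_lit 0x58492) (nat_lit 0) (p (nat_lit 0x48412) (nat_lit 0) (p (nat_lit 0x50312) (nat_lit 0) (p (nat_lit 0x40292) (nat_lit 0) (p (nat_lit 0x30212)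 (nat_lit 0) (p (nat_lit 0x38112) (nat_lit 0) (p (nat_lit 0x28092) (nat_lit 0) (p (nat_lit 0x18012) (nat_lit 0) pn))))))))))))))))))))))))) :=
  Cl.node (nat_lit 0xb0014) (nat_lit 2) (by decide +kernel) (ClAll.succ (ClAll.succ ClAll.zero n11) s75)

def n25 : Cl (O (nat_lit 2)) (R (nat_lit 131281))
    (p (nat_lit 0x20000c) (nat_lit 1) (p (nat_lit 0x109) (nat_lit 0) (p (nat_lit 0x89) (nat_lit 1) (p (nat_lit 0x101) (nat_lit 0) (p (nat_lit 0xc1) (nat_lit 1) (p (nat_lit 0x119) (nat_lit 1) (p (nat_lit 0xd1) (nat_lit 0) (p (nat_lit 0x81) (nat_lit 0) (p (nat_lit 0x41) (nat_lit 1) (p (nat_lit 0x89088787069a) (nat_lit 0) (p (nat_lit 0x88878706861a) (nat_lit 0) (p (nat_lit 0x80000000080686058a) (nat_lit 0) (p (nat_lit 0x8706058502) (nat_lit 0) (p (nat_lit 0x8605850482) (nat_lit 0) (p (nat_lit 0x160014) (nat_lit 0) (p (nat_lit 0x160004) (nat_lit 0) (p (nat_lit 0x68512) (nat_lit 0) (p (nat_lit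 0x58492) (nat_lit 0) (p (nat_lit 0x48412) (nat_lit 0) (p (nat_lit 0x50312) (nat_lit 0) (p (nat_lit 0x40292) (nat_lit 0) (p (nat_lit 0x30212) (nat_lit 0) (p (nat_lit 0x38112) (nat_lit 0) (p (nat_lit 0x28092) (nat_lit 0) (p (nat_lit 0x18012) (nat_lit 0) pn))))))))))))))))))))))))) :=
  Cl.node (nat_lit 0xb0004) (nat_lit 2) (by decide +kernel) (ClAll.succ (ClAll.succ ClAll.zero n12) s87)

def n26 : Cl (O (nat_lit 2)) (R (nat_lit 131281))
    (p (nat_lit 0x20000c) (nat_lit 1) (p (nat_lit 0x109) (nat_lit 1) (p (nat_lit 0x89) (nat_lit 1) (p (nat_lit 0x101) (nat_lit 0) (p (nat_lit 0xc1) (nat_lit 1) (p (nat_lit 0x119) (nat_lit 1) (p (nat_lit 0xd1) (nat_lit 0) (p (nat_lit 0x81) (nat_lit 0) (p (nat_lit 0x41) (nat_lit 1) (p (nat_lit 0x89088787069a) (nat_lit 0) (p (nat_lit 0x88878706861a) (nat_lit 0) (p (nat_lit 0x80000000080686058a) (nat_lit 0) (p (nat_lit 0x8706058502) (nat_lit 0) (p (nat_lit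 0x8605850482) (nat_lit 0) (p (nat_lit 0x160014) (nat_lit 0) (p (nat_lit 0x160004) (nat_lit 0) (p (nat_lit 0x68512) (nat_lit 0) (p (nat_lit 0x58492) (nat_lit 0) (p (nat_lit 0x48412) (nat_lit 0) (p (nat_lit 0x50312) (nat_lit 0) (p (nat_lit 0x40292) (nat_lit 0) (p (nat_lit 0x30212) (nat_lit 0) (p (nat_lit 0x38112) (nat_lit 0) (p (nat_lit 0x28092) (nat_lit 0) (p (nat_lit 0x18012) (nat_lit 0) pn))))))))))))))))))))))))) :=
  Cl.node (nat_lit 0xb0004) (nat_lit 2) (by decide +kernel) (ClAll.succ (ClAll.succ ClAll.zero n13) s92)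

def n27 : Cl (O (nat_lit 2)) (R (nat_lit 131281))
    (p (nat_lit 0xb0004) (nat_lit 0) (p (nat_lit 0x20000c) (nat_lit 1) (p (nat_lit 0x89) (nat_lit 1) (p (nat_lit 0x101) (nat_lit 1) (p (nat_lit 0xc1) (nat_lit 1) (p (nat_lit 0x119) (nat_lit 1) (p (nat_lit 0xd1) (nat_lit 0) (p (nat_lit 0x81) (nat_lit 0) (p (nat_lit 0x41) (nat_lit 1) (p (nat_lit 0x89088787069a) (nat_lit 0) (p (nat_lit 0x88878706861a) (nat_lit 0) (p (nat_lit 0x80000000080686058a) (nat_lit 0) (p (nat_lit 0x8706058502) (nat_lit 0) (p (nat_lit 0x8605850482) (nat_lit 0) (p (nat_lit 0x160014) (nat_lit 0) (p (nat_lit 0x160004) (nat_lit 0) (p (nat_lit 0x68512) (nat_lit 0) (p (nat_lit 0x58492) (nat_lit 0) (p (nat_lit 0x48412) (nat_lit 0) (p (nat_lit 0x50312) (nat_lit 0) (p (nat_lit 0x40292) (nat_lit 0) (p (nat_lit 0x30212) (nat_lit 0) (p (nat_lit 0x38112) (nat_lit 0) (p (nat_lit 0x28092) (nat_lit 0) (p (nat_lit 0x18012)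 (nat_lit 0) pn))))))))))))))))))))))))) :=
  Cl.node (nat_lit 0xb0014) (nat_lit 2) (by decide +kernel) (ClAll.succ (ClAll.succ ClAll.zero n14) s98)

def n28 : Cl (O (nat_lit 2)) (R (nat_lit 131281))
    (p (nat_lit 0x20000c) (nat_lit 1) (p (nat_lit 0xc9) (nat_lit 0) (p (nat_lit 0x89) (nat_lit 1) (p (nat_lit 0x109) (nat_lit 1) (p (nat_lit 0x101) (nat_lit 0) (p (nat_lit 0x111) (nat_lit 0) (p (nat_lit 0xd1) (nat_lit 1) (p (nat_lit 0x81) (nat_lit 0) (p (nat_lit 0x41) (nat_lit 1) (p (nat_lit 0x89088787069a) (nat_lit 0) (p (nat_lit 0x88878706861a) (nat_lit 0) (p (nat_lit 0x80000000080686058a) (nat_lit 0) (p (nat_lit 0x8706058502) (nat_lit 0) (p (nat_lit 0x8605850482) (nat_lit 0) (p (nat_lit 0x160014) (nat_lit 0) (p (nat_lit 0x160004) (nat_lit 0) (p (nat_lit 0x68512) (nat_lit 0) (p (nat_lit 0x58492) (nat_lit 0) (p (nat_lit 0x48412) (nat_lit 0) (p (nat_lit 0x50312) (nat_lit 0) (p (nat_lit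 0x40292) (nat_lit 0) (p (nat_lit 0x30212) (nat_lit 0) (p (nat_lit 0x38112) (nat_lit 0) (p (nat_lit 0x28092) (nat_lit 0) (p (nat_lit 0x18012) (nat_lit 0) pn))))))))))))))))))))))))) :=
  Cl.node (nat_lit 0xb0004) (nat_lit 2) (by decide +kernel) (ClAll.succ (ClAll.succ ClAll.zero n15) s106)

def n29 : Cl (O (nat_lit 2)) (R (nat_lit 131281))
    (p (nat_lit 0xb0004) (nat_lit 0) (p (nat_lit 0x20000c) (nat_lit 1) (p (nat_lit 0x111) (nat_lit 1) (p (nat_lit 0x109) (nat_lit 0) (p (nat_lit 0xc9) (nat_lit 1) (p (nat_lit 0x119) (nat_lit 1) (p (nat_lit 0xc1) (nat_lit 0) (p (nat_lit 0x81) (nat_lit 1) (p (nat_lit 0x41) (nat_lit 1) (p (nat_lit 0x89088787069a) (nat_lit 0) (p (nat_lit 0x88878706861a) (nat_lit 0) (p (nat_lit 0x80000000080686058a) (nat_lit 0) (p (nat_lit 0x8706058502) (nat_lit 0) (p (nat_lit 0x8605850482) (nat_lit 0) (p (nat_lit 0x160014) (nat_lit 0) (p (nat_lit 0x160004) (nat_lit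 0) (p (nat_lit 0x68512) (nat_lit 0) (p (nat_lit 0x58492) (nat_lit 0) (p (nat_lit 0x48412) (nat_lit 0) (p (nat_lit 0x50312) (nat_lit 0) (p (nat_lit 0x40292) (nat_lit 0) (p (nat_lit 0x30212) (nat_lit 0) (p (nat_lit 0x38112) (nat_lit 0) (p (nat_lit 0x28092) (nat_lit 0) (p (nat_lit 0x18012) (nat_lit 0) pn))))))))))))))))))))))))) :=
  Cl.node (nat_lit 0xb0014) (nat_lit 2) (by decide +kernel) (ClAll.succ (ClAll.succ ClAll.zero n16) s130)

def n30 : Cl (O (nat_lit 2)) (R (nat_lit 131281))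
    (p (nat_lit 0xb0014) (nat_lit 0) (p (nat_lit 0xb0004) (nat_lit 0) (p (nat_lit 0x20000c) (nat_lit 1) (p (nat_lit 0x109) (nat_lit 1) (p (nat_lit 0xc9) (nat_lit 1) (p (nat_lit 0x119) (nat_lit 1) (p (nat_lit 0xc1) (nat_lit 0) (p (nat_lit 0x81) (nat_lit 1) (p (nat_lit 0x41) (nat_lit 1) (p (nat_lit 0x89088787069a) (nat_lit 0) (p (nat_lit 0x88878706861a) (nat_lit 0) (p (nat_lit 0x80000000080686058a) (nat_lit 0) (p (nat_lit 0x8706058502) (nat_lit 0) (p (nat_lit 0x8605850482) (nat_lit 0) (p (nat_lit 0x160014) (nat_lit 0) (p (nat_lit 0x160004) (nat_lit 0) (p (nat_lit 0x68512) (nat_lit 0) (p (nat_lit 0x58492) (nat_lit 0) (p (nat_lit 0x48412) (nat_lit 0) (p (nat_lit 0x50312) (nat_lit 0) (p (nat_lit 0x40292) (nat_lit 0) (p (nat_lit 0x30212) (nat_lit 0) (p (nat_lit 0x38112) (nat_lit 0) (p (nat_lit 0x28092) (nat_lit 0) (p (nat_lit 0x18012) (nat_lit 0) pn))))))))))))))))))))))))) :=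
  Cl.node (nat_lit 0xd1) (nat_lit 2) (by decide +kernel) (ClAll.succ (ClAll.succ ClAll.zero n17) s135)

def n31 : Cl (O (nat_lit 2)) (R (nat_lit 131281))
    (p (nat_lit 0x20000c) (nat_lit 1) (p (nat_lit 0xc9) (nat_lit 1) (p (nat_lit 0x81) (nat_lit 0) (p (nat_lit 0x101) (nat_lit 1) (p (nat_lit 0x119) (nat_lit 0) (p (nat_lit 0xd1) (nat_lit 0) (p (nat_lit 0x89) (nat_lit 0) (p (nat_lit 0x41) (nat_lit 0) (p (nat_lit 0x89088787069a) (nat_lit 0) (p (nat_lit 0x88878706861a) (nat_lit 0) (p (nat_lit 0x80000000080686058a) (nat_lit 0) (p (nat_lit 0x8706058502) (nat_lit 0) (p (nat_lit 0x8605850482) (nat_lit 0) (p (nat_lit 0x160014) (nat_lit 0) (p (nat_lit 0x160004) (nat_lit 0) (p (nat_lit 0x68512) (nat_lit 0) (p (nat_lit 0x58492) (nat_lit 0) (p (nat_lit 0x48412) (nat_lit 0) (p (nat_lit 0x50312) (nat_lit 0) (p (nat_lit 0x40292) (nat_lit 0) (p (nat_lit 0x30212) (nat_lit 0) (p (nat_lit 0x38112)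 (nat_lit 0) (p (nat_lit 0x28092) (nat_lit 0) (p (nat_lit 0x18012) (nat_lit 0) pn)))))))))))))))))))))))) :=
  Cl.node (nat_lit 0xb0004) (nat_lit 2) (by decide +kernel) (ClAll.succ (ClAll.succ ClAll.zero n18) s9)

def n32 : Cl (O (nat_lit 2)) (R (nat_lit 131281))
    (p (nat_lit 0xb0004) (nat_lit 0) (p (nat_lit 0x20000c) (nat_lit 1) (p (nat_lit 0x81) (nat_lit 0) (p (nat_lit 0x101) (nat_lit 1) (p (nat_lit 0x111) (nat_lit 0) (p (nat_lit 0xd1) (nat_lit 1) (p (nat_lit 0x89) (nat_lit 0) (p (nat_lit 0x41) (nat_lit 0) (p (nat_lit 0x89088787069a) (nat_lit 0) (p (nat_lit 0x88878706861a) (nat_lit 0) (p (nat_lit 0x80000000080686058a) (nat_lit 0) (p (nat_lit 0x8706058502) (nat_lit 0) (p (nat_lit 0x8605850482) (nat_lit 0) (p (nat_lit 0x160014) (nat_lit 0) (p (nat_lit 0x160004) (nat_lit 0) (p (nat_lit 0x68512) (nat_lit 0) (p (nat_lit 0x58492) (nat_lit 0) (p (nat_lit 0x48412) (nat_lit 0) (p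 (nat_lit 0x50312) (nat_lit 0) (p (nat_lit 0x40292) (nat_lit 0) (p (nat_lit 0x30212) (nat_lit 0) (p (nat_lit 0x38112) (nat_lit 0) (p (nat_lit 0x28092) (nat_lit 0) (p (nat_lit 0x18012) (nat_lit 0) pn)))))))))))))))))))))))) :=
  Cl.node (nat_lit 0xb0014) (nat_lit 2) (by decide +kernel) (ClAll.succ (ClAll.succ ClAll.zero n19) s28)

def n33 : Cl (O (nat_lit 2)) (R (nat_lit 131281))
    (p (nat_lit 0x20000c) (nat_lit 1) (p (nat_lit 0xc1) (nat_lit 0) (p (nat_lit 0x81) (nat_lit 1) (p (nat_lit 0x101) (nat_lit 1) (p (nat_lit 0x111) (nat_lit 0) (p (nat_lit 0xd1) (nat_lit 1) (p (nat_lit 0x89) (nat_lit 0) (p (nat_lit 0x41) (nat_lit 0) (p (nat_lit 0x89088787069a) (nat_lit 0) (p (nat_lit 0x88878706861a) (nat_lit 0) (p (nat_lit 0x80000000080686058a) (nat_lit 0) (p (nat_lit 0x8706058502) (nat_lit 0) (p (nat_lit 0x8605850482) (nat_lit 0) (p (nat_lit 0x160014) (nat_lit 0) (p (nat_lit 0x160004)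 (nat_lit 0) (p (nat_lit 0x68512) (nat_lit 0) (p (nat_lit 0x58492) (nat_lit 0) (p (nat_lit 0x48412) (nat_lit 0) (p (nat_lit 0x50312) (nat_lit 0) (p (nat_lit 0x40292) (nat_lit 0) (p (nat_lit 0x30212) (nat_lit 0) (p (nat_lit 0x38112) (nat_lit 0) (p (nat_lit 0x28092) (nat_lit 0) (p (nat_lit 0x18012) (nat_lit 0) pn)))))))))))))))))))))))) :=
  Cl.node (nat_lit 0xb0004) (nat_lit 2) (by decide +kernel) (ClAll.succ (ClAll.succ ClAll.zero n20) s34)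

def n34 : Cl (O (nat_lit 2)) (R (nat_lit 131281))
    (p (nat_lit 0x20000c) (nat_lit 1) (p (nat_lit 0x101) (nat_lit 0) (p (nat_lit 0xc1) (nat_lit 1) (p (nat_lit 0x81) (nat_lit 1) (p (nat_lit 0x111) (nat_lit 1) (p (nat_lit 0xd1) (nat_lit 1) (p (nat_lit 0x89) (nat_lit 0) (p (nat_lit 0x41) (nat_lit 0) (p (nat_lit 0x89088787069a) (nat_lit 0) (p (nat_lit 0x88878706861a) (nat_lit 0) (p (nat_lit 0x80000000080686058a) (nat_lit 0) (p (nat_lit 0x8706058502) (nat_lit 0) (p (nat_lit 0x8605850482) (nat_lit 0) (p (nat_lit 0x160014) (nat_lit 0) (p (nat_lit 0x160004) (nat_lit 0) (p (nat_lit 0x68512) (nat_lit 0) (p (nat_lit 0x58492) (nat_lit 0) (p (nat_lit 0x48412) (nat_lit 0) (p (nat_lit 0x50312) (nat_lit 0) (p (nat_lit 0x40292) (nat_lit 0) (p (nat_lit 0x30212) (nat_lit 0) (p (nat_lit 0x38112) (nat_lit 0) (p (nat_lit 0x28092) (nat_lit 0) (p (nat_lit 0x18012) (nat_lit 0) pn))))))))))))))))))))))))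 :=
  Cl.node (nat_lit 0xb0004) (nat_lit 2) (by decide +kernel) (ClAll.succ (ClAll.succ ClAll.zero n21) s42)

def n35 : Cl (O (nat_lit 2)) (R (nat_lit 131281))
    (p (nat_lit 0x20000c) (nat_lit 1) (p (nat_lit 0xd1) (nat_lit 0) (p (nat_lit 0xc1) (nat_lit 0) (p (nat_lit 0x101) (nat_lit 1) (p (nat_lit 0x119) (nat_lit 0) (p (nat_lit 0xc9) (nat_lit 0) (p (nat_lit 0x89) (nat_lit 1) (p (nat_lit 0x41) (nat_lit 0) (p (nat_lit 0x89088787069a) (nat_lit 0) (p (nat_lit 0x88878706861a) (nat_lit 0) (p (nat_lit 0x80000000080686058a) (nat_lit 0) (p (nat_lit 0x8706058502) (nat_lit 0) (p (nat_lit 0x8605850482) (nat_lit 0) (p (nat_lit 0x160014) (nat_lit 0) (p (nat_lit 0x160004) (nat_lit 0) (p (nat_lit 0x68512) (nat_lit 0) (p (nat_lit 0x58492) (nat_lit 0) (p (nat_lit 0x48412) (nat_lit 0) (p (nat_lit 0x50312) (nat_lit 0) (p (nat_lit 0x40292) (nat_lit 0) (p (nat_lit 0x30212) (nat_lit 0) (p (nat_lit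 0x38112) (nat_lit 0) (p (nat_lit 0x28092) (nat_lit 0) (p (nat_lit 0x18012) (nat_lit 0) pn)))))))))))))))))))))))) :=
  Cl.node (nat_lit 0xb0004) (nat_lit 2) (by decide +kernel) (ClAll.succ (ClAll.succ ClAll.zero n22) s51)

def n36 : Cl (O (nat_lit 2)) (R (nat_lit 131281))
    (p (nat_lit 0xc9) (nat_lit 1) (p (nat_lit 0x89) (nat_lit 1) (p (nat_lit 0xc1) (nat_lit 0) (p (nat_lit 0x101) (nat_lit 1) (p (nat_lit 0x119) (nat_lit 0) (p (nat_lit 0xd1) (nat_lit 0) (p (nat_lit 0x81) (nat_lit 0) (p (nat_lit 0x41) (nat_lit 1) (p (nat_lit 0x89088787069a) (nat_lit 0) (p (nat_lit 0x88878706861a) (nat_lit 0) (p (nat_lit 0x80000000080686058a) (nat_lit 0) (p (nat_lit 0x8706058502) (nat_lit 0) (p (nat_lit 0x8605850482) (nat_lit 0) (p (nat_lit 0x160014) (nat_lit 0) (p (nat_lit 0x160004) (nat_lit 0) (p (nat_lit 0x68512) (nat_lit 0) (p (nat_lit 0x58492) (nat_lit 0) (p (nat_lit 0x48412) (nat_lit 0)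 (p (nat_lit 0x50312) (nat_lit 0) (p (nat_lit 0x40292) (nat_lit 0) (p (nat_lit 0x30212) (nat_lit 0) (p (nat_lit 0x38112) (nat_lit 0) (p (nat_lit 0x28092) (nat_lit 0) (p (nat_lit 0x18012) (nat_lit 0) pn)))))))))))))))))))))))) :=
  Cl.node (nat_lit 0x20000c) (nat_lit 2) (by decide +kernel) (ClAll.succ (ClAll.succ ClAll.zero s65) n23)

def n37 : Cl (O (nat_lit 2)) (R (nat_lit 131281))
    (p (nat_lit 0x20000c) (nat_lit 1) (p (nat_lit 0x89) (nat_lit 1) (p (nat_lit 0xc1) (nat_lit 1) (p (nat_lit 0x101) (nat_lit 1) (p (nat_lit 0x119) (nat_lit 0) (p (nat_lit 0xd1) (nat_lit 0) (p (nat_lit 0x81) (nat_lit 0) (p (nat_lit 0x41) (nat_lit 1) (p (nat_lit 0x89088787069a) (nat_lit 0) (p (nat_lit 0x88878706861a) (nat_lit 0) (p (nat_lit 0x80000000080686058a) (nat_lit 0) (p (nat_lit 0x8706058502) (nat_lit 0) (p (nat_lit 0x8605850482) (nat_lit 0) (p (nat_lit 0x160014) (nat_lit 0) (p (nat_lit 0x160004)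 (nat_lit 0) (p (nat_lit 0x68512) (nat_lit 0) (p (nat_lit 0x58492) (nat_lit 0) (p (nat_lit 0x48412) (nat_lit 0) (p (nat_lit 0x50312) (nat_lit 0) (p (nat_lit 0x40292) (nat_lit 0) (p (nat_lit 0x30212) (nat_lit 0) (p (nat_lit 0x38112) (nat_lit 0) (p (nat_lit 0x28092) (nat_lit 0) (p (nat_lit 0x18012) (nat_lit 0) pn)))))))))))))))))))))))) :=
  Cl.node (nat_lit 0xb0004) (nat_lit 2) (by decide +kernel) (ClAll.succ (ClAll.succ ClAll.zero n24) s76)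

def n38 : Cl (O (nat_lit 2)) (R (nat_lit 131281))
    (p (nat_lit 0x109) (nat_lit 0) (p (nat_lit 0x89) (nat_lit 1) (p (nat_lit 0xc9) (nat_lit 1) (p (nat_lit 0xc1) (nat_lit 0) (p (nat_lit 0x119) (nat_lit 1) (p (nat_lit 0xd1) (nat_lit 0) (p (nat_lit 0x81) (nat_lit 0) (p (nat_lit 0x41) (nat_lit 1) (p (nat_lit 0x89088787069a) (nat_lit 0) (p (nat_lit 0x88878706861a) (nat_lit 0) (p (nat_lit 0x80000000080686058a) (nat_lit 0) (p (nat_lit 0x8706058502) (nat_lit 0) (p (nat_lit 0x8605850482) (nat_lit 0) (p (nat_lit 0x160014) (nat_lit 0) (p (nat_lit 0x160004) (nat_lit 0) (p (nat_lit 0x68512) (nat_lit 0) (p (nat_lit 0x58492) (nat_lit 0) (p (nat_lit 0x48412) (nat_lit 0) (p (nat_lit 0x50312) (nat_lit 0) (p (nat_lit 0x40292) (nat_lit 0) (p (nat_lit 0x30212) (nat_lit 0) (p (nat_lit 0x38112) (nat_lit 0) (p (nat_lit 0x28092) (nat_lit 0) (p (nat_lit 0x18012) (nat_lit 0) pn))))))))))))))))))))))))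 :=
  Cl.node (nat_lit 0x20000c) (nat_lit 2) (by decide +kernel) (ClAll.succ (ClAll.succ ClAll.zero s79) s80)

def n39 : Cl (O (nat_lit 2)) (R (nat_lit 131281))
    (p (nat_lit 0x109) (nat_lit 0) (p (nat_lit 0x89) (nat_lit 1) (p (nat_lit 0x101) (nat_lit 0) (p (nat_lit 0xc1) (nat_lit 1) (p (nat_lit 0x119) (nat_lit 1) (p (nat_lit 0xd1) (nat_lit 0) (p (nat_lit 0x81) (nat_lit 0) (p (nat_lit 0x41) (nat_lit 1) (p (nat_lit 0x89088787069a) (nat_lit 0) (p (nat_lit 0x88878706861a) (nat_lit 0) (p (nat_lit 0x80000000080686058a) (nat_lit 0) (p (nat_lit 0x8706058502) (nat_lit 0) (p (nat_lit 0x8605850482) (nat_lit 0) (p (nat_lit 0x160014) (nat_lit 0) (p (nat_lit 0x160004) (nat_lit 0) (p (nat_lit 0x68512) (nat_lit 0) (p (nat_lit 0x58492) (nat_lit 0) (p (nat_lit 0x48412) (nat_lit 0) (p (nat_lit 0x50312) (nat_lit 0) (p (nat_lit 0x40292) (nat_lit 0) (p (nat_lit 0x30212) (nat_lit 0) (p (nat_lit 0x38112)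 (nat_lit 0) (p (nat_lit 0x28092) (nat_lit 0) (p (nat_lit 0x18012) (nat_lit 0) pn)))))))))))))))))))))))) :=
  Cl.node (nat_lit 0x20000c) (nat_lit 2) (by decide +kernel) (ClAll.succ (ClAll.succ ClAll.zero s83) n25)

def n40 : Cl (O (nat_lit 2)) (R (nat_lit 131281))
    (p (nat_lit 0x109) (nat_lit 1) (p (nat_lit 0x89) (nat_lit 1) (p (nat_lit 0x101) (nat_lit 0) (p (nat_lit 0xc1) (nat_lit 1) (p (nat_lit 0x119) (nat_lit 1) (p (nat_lit 0xd1) (nat_lit 0) (p (nat_lit 0x81) (nat_lit 0) (p (nat_lit 0x41) (nat_lit 1) (p (nat_lit 0x89088787069a) (nat_lit 0) (p (nat_lit 0x88878706861a) (nat_lit 0) (p (nat_lit 0x80000000080686058a) (nat_lit 0) (p (nat_lit 0x8706058502) (nat_lit 0) (p (nat_lit 0x8605850482) (nat_lit 0) (p (nat_lit 0x160014) (nat_lit 0) (p (nat_lit 0x160004) (nat_lit 0) (p (nat_lit 0x68512) (nat_lit 0) (p (nat_lit 0x58492) (nat_lit 0) (p (nat_lit 0x48412) (nat_lit 0) (p (nat_lit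 0x50312) (nat_lit 0) (p (nat_lit 0x40292) (nat_lit 0) (p (nat_lit 0x30212) (nat_lit 0) (p (nat_lit 0x38112) (nat_lit 0) (p (nat_lit 0x28092) (nat_lit 0) (p (nat_lit 0x18012) (nat_lit 0) pn)))))))))))))))))))))))) :=
  Cl.node (nat_lit 0x20000c) (nat_lit 2) (by decide +kernel) (ClAll.succ (ClAll.succ ClAll.zero s88) n26)

def n41 : Cl (O (nat_lit 2)) (R (nat_lit 131281))
    (p (nat_lit 0x20000c) (nat_lit 1) (p (nat_lit 0x89) (nat_lit 1) (p (nat_lit 0x101) (nat_lit 1) (p (nat_lit 0xc1) (nat_lit 1) (p (nat_lit 0x119) (nat_lit 1) (p (nat_lit 0xd1) (nat_lit 0) (p (nat_lit 0x81) (nat_lit 0) (p (nat_lit 0x41) (nat_lit 1) (p (nat_lit 0x89088787069a) (nat_lit 0) (p (nat_lit 0x88878706861a) (nat_lit 0) (p (nat_lit 0x80000000080686058a) (nat_lit 0) (p (nat_lit 0x8706058502) (nat_lit 0) (p (nat_lit 0x8605850482) (nat_lit 0) (p (nat_lit 0x160014) (nat_lit 0) (p (nat_lit 0x160004) (nat_lit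 0) (p (nat_lit 0x68512) (nat_lit 0) (p (nat_lit 0x58492) (nat_lit 0) (p (nat_lit 0x48412) (nat_lit 0) (p (nat_lit 0x50312) (nat_lit 0) (p (nat_lit 0x40292) (nat_lit 0) (p (nat_lit 0x30212) (nat_lit 0) (p (nat_lit 0x38112) (nat_lit 0) (p (nat_lit 0x28092) (nat_lit 0) (p (nat_lit 0x18012) (nat_lit 0) pn)))))))))))))))))))))))) :=
  Cl.node (nat_lit 0xb0004) (nat_lit 2) (by decide +kernel) (ClAll.succ (ClAll.succ ClAll.zero n27) s99)

def n42 : Cl (O (nat_lit 2)) (R (nat_lit 131281))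
    (p (nat_lit 0xc9) (nat_lit 0) (p (nat_lit 0x89) (nat_lit 1) (p (nat_lit 0x109) (nat_lit 1) (p (nat_lit 0x101) (nat_lit 0) (p (nat_lit 0x111) (nat_lit 0) (p (nat_lit 0xd1) (nat_lit 1) (p (nat_lit 0x81) (nat_lit 0) (p (nat_lit 0x41) (nat_lit 1) (p (nat_lit 0x89088787069a) (nat_lit 0) (p (nat_lit 0x88878706861a) (nat_lit 0) (p (nat_lit 0x80000000080686058a) (nat_lit 0) (p (nat_lit 0x8706058502) (nat_lit 0) (p (nat_lit 0x8605850482) (nat_lit 0) (p (nat_lit 0x160014) (nat_lit 0) (p (nat_lit 0x160004) (nat_lit 0) (p (nat_lit 0x68512) (nat_lit 0) (p (nat_lit 0x58492) (nat_lit 0) (p (nat_lit 0x48412) (nat_lit 0) (p (nat_lit 0x50312) (nat_lit 0) (p (nat_lit 0x40292) (nat_lit 0) (p (nat_lit 0x30212) (nat_lit 0) (p (nat_lit 0x38112) (nat_lit 0) (p (nat_lit 0x28092) (nat_lit 0) (p (nat_lit 0x18012) (nat_lit 0) pn)))))))))))))))))))))))) :=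
  Cl.node (nat_lit 0x20000c) (nat_lit 2) (by decide +kernel) (ClAll.succ (ClAll.succ ClAll.zero s102) n28)

def n43 : Cl (O (nat_lit 2)) (R (nat_lit 131281))
    (p (nat_lit 0x20000c) (nat_lit 1) (p (nat_lit 0x111) (nat_lit 1) (p (nat_lit 0x109) (nat_lit 0) (p (nat_lit 0xc9) (nat_lit 1) (p (nat_lit 0x119) (nat_lit 1) (p (nat_lit 0xc1) (nat_lit 0) (p (nat_lit 0x81) (nat_lit 1) (p (nat_lit 0x41) (nat_lit 1) (p (nat_lit 0x89088787069a) (nat_lit 0) (p (nat_lit 0x88878706861a) (nat_lit 0) (p (nat_lit 0x80000000080686058a) (nat_lit 0) (p (nat_lit 0x8706058502) (nat_lit 0) (p (nat_lit 0x8605850482) (nat_lit 0) (p (nat_lit 0x160014) (nat_lit 0) (p (nat_lit 0x160004) (nat_lit 0) (p (nat_lit 0x68512) (nat_lit 0) (p (nat_lit 0x58492) (nat_lit 0) (p (nat_lit 0x48412) (nat_lit 0) (p (nat_lit 0x50312) (nat_lit 0) (p (nat_lit 0x40292) (nat_lit 0) (p (nat_lit 0x30212) (nat_lit 0) (p (nat_lit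 0x38112) (nat_lit 0) (p (nat_lit 0x28092) (nat_lit 0) (p (nat_lit 0x18012) (nat_lit 0) pn)))))))))))))))))))))))) :=
  Cl.node (nat_lit 0xb0004) (nat_lit 2) (by decide +kernel) (ClAll.succ (ClAll.succ ClAll.zero n29) s131)

def n44 : Cl (O (nat_lit 2)) (R (nat_lit 131281))
    (p (nat_lit 0xb0004) (nat_lit 0) (p (nat_lit 0x20000c) (nat_lit 1) (p (nat_lit 0x109) (nat_lit 1) (p (nat_lit 0xc9) (nat_lit 1) (p (nat_lit 0x119) (nat_lit 1) (p (nat_lit 0xc1) (nat_lit 0) (p (nat_lit 0x81) (nat_lit 1) (p (nat_lit 0x41) (nat_lit 1) (p (nat_lit 0x89088787069a) (nat_lit 0) (p (nat_lit 0x88878706861a) (nat_lit 0) (p (nat_lit 0x80000000080686058a) (nat_lit 0) (p (nat_lit 0x8706058502) (nat_lit 0) (p (nat_lit 0x8605850482) (nat_lit 0) (p (nat_lit 0x160014) (nat_lit 0) (p (nat_lit 0x160004) (nat_lit 0) (p (nat_lit 0x68512) (nat_lit 0) (p (nat_lit 0x58492) (nat_lit 0) (p (nat_lit 0x48412) (nat_lit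 0) (p (nat_lit 0x50312) (nat_lit 0) (p (nat_lit 0x40292) (nat_lit 0) (p (nat_lit 0x30212) (nat_lit 0) (p (nat_lit 0x38112) (nat_lit 0) (p (nat_lit 0x28092) (nat_lit 0) (p (nat_lit 0x18012) (nat_lit 0) pn)))))))))))))))))))))))) :=
  Cl.node (nat_lit 0xb0014) (nat_lit 2) (by decide +kernel) (ClAll.succ (ClAll.succ ClAll.zero n30) s136)

def n45 : Cl (O (nat_lit 2)) (R (nat_lit 131281))
    (p (nat_lit 0xc9) (nat_lit 0) (p (nat_lit 0x81) (nat_lit 0) (p (nat_lit 0x101) (nat_lit 1) (p (nat_lit 0x119) (nat_lit 0) (p (nat_lit 0xd1) (nat_lit 0) (p (nat_lit 0x89) (nat_lit 0) (p (nat_lit 0x41) (nat_lit 0) (p (nat_lit 0x89088787069a) (nat_lit 0) (p (nat_lit 0x88878706861a) (nat_lit 0) (p (nat_lit 0x80000000080686058a) (nat_lit 0) (p (nat_lit 0x8706058502) (nat_lit 0) (p (nat_lit 0x8605850482) (nat_lit 0) (p (nat_lit 0x160014) (nat_lit 0) (p (nat_lit 0x160004) (nat_lit 0) (p (nat_lit 0x68512)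 (nat_lit 0) (p (nat_lit 0x58492) (nat_lit 0) (p (nat_lit 0x48412) (nat_lit 0) (p (nat_lit 0x50312) (nat_lit 0) (p (nat_lit 0x40292) (nat_lit 0) (p (nat_lit 0x30212) (nat_lit 0) (p (nat_lit 0x38112) (nat_lit 0) (p (nat_lit 0x28092) (nat_lit 0) (p (nat_lit 0x18012) (nat_lit 0) pn))))))))))))))))))))))) :=
  Cl.node (nat_lit 0x20000c) (nat_lit 2) (by decide +kernel) (ClAll.succ (ClAll.succ ClAll.zero s3) s4)

def n46 : Cl (O (nat_lit 2)) (R (nat_lit 131281))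
    (p (nat_lit 0xc9) (nat_lit 1) (p (nat_lit 0x81) (nat_lit 0) (p (nat_lit 0x101) (nat_lit 1) (p (nat_lit 0x119) (nat_lit 0) (p (nat_lit 0xd1) (nat_lit 0) (p (nat_lit 0x89) (nat_lit 0) (p (nat_lit 0x41) (nat_lit 0) (p (nat_lit 0x89088787069a) (nat_lit 0) (p (nat_lit 0x88878706861a) (nat_lit 0) (p (nat_lit 0x80000000080686058a) (nat_lit 0) (p (nat_lit 0x8706058502) (nat_lit 0) (p (nat_lit 0x8605850482) (nat_lit 0) (p (nat_lit 0x160014) (nat_lit 0) (p (nat_lit 0x160004) (nat_lit 0) (p (nat_lit 0x68512) (nat_lit 0) (p (nat_lit 0x58492) (nat_lit 0) (p (nat_lit 0x48412) (nat_lit 0) (p (nat_lit 0x50312) (nat_lit 0) (p (nat_lit 0x40292) (nat_lit 0) (p (nat_lit 0x30212) (nat_lit 0) (p (nat_lit 0x38112) (nat_lit 0) (p (nat_lit 0x28092) (nat_lit 0) (p (nat_lit 0x18012) (nat_lit 0) pn))))))))))))))))))))))) :=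
  Cl.node (nat_lit 0x20000c) (nat_lit 2) (by decide +kernel) (ClAll.succ (ClAll.succ ClAll.zero s5) n31)

def n47 : Cl (O (nat_lit 2)) (R (nat_lit 131281))
    (p (nat_lit 0xc1) (nat_lit 0) (p (nat_lit 0x81) (nat_lit 1) (p (nat_lit 0x101) (nat_lit 1) (p (nat_lit 0x119) (nat_lit 0) (p (nat_lit 0xd1) (nat_lit 0) (p (nat_lit 0x89) (nat_lit 0) (p (nat_lit 0x41) (nat_lit 0) (p (nat_lit 0x89088787069a) (nat_lit 0) (p (nat_lit 0x88878706861a) (nat_lit 0) (p (nat_lit 0x80000000080686058a) (nat_lit 0) (p (nat_lit 0x8706058502) (nat_lit 0) (p (nat_lit 0x8605850482) (nat_lit 0) (p (nat_lit 0x160014) (nat_lit 0) (p (nat_lit 0x160004) (nat_lit 0) (p (nat_lit 0x68512) (nat_lit 0) (p (nat_lit 0x58492) (nat_lit 0) (p (nat_lit 0x48412) (nat_lit 0) (p (nat_lit 0x50312) (nat_lit 0) (p (nat_lit 0x40292) (nat_lit 0) (p (nat_lit 0x30212) (nat_lit 0) (p (nat_lit 0x38112) (nat_lit 0) (p (nat_lit 0x28092)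 (nat_lit 0) (p (nat_lit 0x18012) (nat_lit 0) pn))))))))))))))))))))))) :=
  Cl.node (nat_lit 0xc9) (nat_lit 2) (by decide +kernel) (ClAll.succ (ClAll.succ ClAll.zero s10) s11)

def n48 : Cl (O (nat_lit 2)) (R (nat_lit 131281))
    (p (nat_lit 0x109) (nat_lit 1) (p (nat_lit 0xc9) (nat_lit 1) (p (nat_lit 0xc1) (nat_lit 0) (p (nat_lit 0x119) (nat_lit 1) (p (nat_lit 0xd1) (nat_lit 0) (p (nat_lit 0x89) (nat_lit 0) (p (nat_lit 0x41) (nat_lit 0) (p (nat_lit 0x89088787069a) (nat_lit 0) (p (nat_lit 0x88878706861a) (nat_lit 0) (p (nat_lit 0x80000000080686058a) (nat_lit 0) (p (nat_lit 0x8706058502) (nat_lit 0) (p (nat_lit 0x8605850482) (nat_lit 0) (p (nat_lit 0x160014) (nat_lit 0) (p (nat_lit 0x160004) (nat_lit 0) (p (nat_lit 0x68512) (nat_lit 0) (p (nat_lit 0x58492) (nat_lit 0) (p (nat_lit 0x48412) (nat_lit 0) (p (nat_lit 0x50312) (nat_lit 0) (p (nat_lit 0x40292) (nat_lit 0) (p (nat_lit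 0x30212) (nat_lit 0) (p (nat_lit 0x38112) (nat_lit 0) (p (nat_lit 0x28092) (nat_lit 0) (p (nat_lit 0x18012) (nat_lit 0) pn))))))))))))))))))))))) :=
  Cl.node (nat_lit 0x20000c) (nat_lit 2) (by decide +kernel) (ClAll.succ (ClAll.succ ClAll.zero s15) s16)

def n49 : Cl (O (nat_lit 2)) (R (nat_lit 131281))
    (p (nat_lit 0x109) (nat_lit 1) (p (nat_lit 0x81) (nat_lit 0) (p (nat_lit 0xc1) (nat_lit 1) (p (nat_lit 0x119) (nat_lit 1) (p (nat_lit 0xd1) (nat_lit 0) (p (nat_lit 0x89) (nat_lit 0) (p (nat_lit 0x41) (nat_lit 0) (p (nat_lit 0x89088787069a) (nat_lit 0) (p (nat_lit 0x88878706861a) (nat_lit 0) (p (nat_lit 0x80000000080686058a) (nat_lit 0) (p (nat_lit 0x8706058502) (nat_lit 0) (p (nat_lit 0x8605850482) (nat_lit 0) (p (nat_lit 0x160014) (nat_lit 0) (p (nat_lit 0x160004) (nat_lit 0) (p (nat_lit 0x68512) (nat_lit 0) (p (nat_lit 0x58492) (nat_lit 0) (p (nat_lit 0x48412) (nat_lit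 0) (p (nat_lit 0x50312) (nat_lit 0) (p (nat_lit 0x40292) (nat_lit 0) (p (nat_lit 0x30212) (nat_lit 0) (p (nat_lit 0x38112) (nat_lit 0) (p (nat_lit 0x28092) (nat_lit 0) (p (nat_lit 0x18012) (nat_lit 0) pn))))))))))))))))))))))) :=
  Cl.node (nat_lit 0x20000c) (nat_lit 2) (by decide +kernel) (ClAll.succ (ClAll.succ ClAll.zero s18) s19)

def n50 : Cl (O (nat_lit 2)) (R (nat_lit 131281))
    (p (nat_lit 0x101) (nat_lit 0) (p (nat_lit 0x81) (nat_lit 1) (p (nat_lit 0xc1) (nat_lit 1) (p (nat_lit 0x119) (nat_lit 1) (p (nat_lit 0xd1) (nat_lit 0) (p (nat_lit 0x89) (nat_lit 0) (p (nat_lit 0x41) (nat_lit 0) (p (nat_lit 0x89088787069a) (nat_lit 0) (p (nat_lit 0x88878706861a) (nat_lit 0) (p (nat_lit 0x80000000080686058a) (nat_lit 0) (p (nat_lit 0x8706058502) (nat_lit 0) (p (nat_lit 0x8605850482) (nat_lit 0) (p (nat_lit 0x160014) (nat_lit 0) (p (nat_lit 0x160004) (nat_lit 0) (p (nat_lit 0x68512)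 (nat_lit 0) (p (nat_lit 0x58492) (nat_lit 0) (p (nat_lit 0x48412) (nat_lit 0) (p (nat_lit 0x50312) (nat_lit 0) (p (nat_lit 0x40292) (nat_lit 0) (p (nat_lit 0x30212) (nat_lit 0) (p (nat_lit 0x38112) (nat_lit 0) (p (nat_lit 0x28092) (nat_lit 0) (p (nat_lit 0x18012) (nat_lit 0) pn))))))))))))))))))))))) :=
  Cl.node (nat_lit 0x109) (nat_lit 2) (by decide +kernel) (ClAll.succ (ClAll.succ ClAll.zero s20) s21)

def n51 : Cl (O (nat_lit 2)) (R (nat_lit 131281))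
    (p (nat_lit 0x20000c) (nat_lit 1) (p (nat_lit 0x81) (nat_lit 0) (p (nat_lit 0x101) (nat_lit 1) (p (nat_lit 0x111) (nat_lit 0) (p (nat_lit 0xd1) (nat_lit 1) (p (nat_lit 0x89) (nat_lit 0) (p (nat_lit 0x41) (nat_lit 0) (p (nat_lit 0x89088787069a) (nat_lit 0) (p (nat_lit 0x88878706861a) (nat_lit 0) (p (nat_lit 0x80000000080686058a) (nat_lit 0) (p (nat_lit 0x8706058502) (nat_lit 0) (p (nat_lit 0x8605850482) (nat_lit 0) (p (nat_lit 0x160014) (nat_lit 0) (p (nat_lit 0x160004) (nat_lit 0) (p (nat_lit 0x68512) (nat_lit 0) (p (nat_lit 0x58492) (nat_lit 0) (p (nat_lit 0x48412) (nat_lit 0) (p (nat_lit 0x50312) (nat_lit 0) (p (nat_lit 0x40292) (nat_lit 0) (p (nat_lit 0x30212) (nat_lit 0) (p (nat_lit 0x38112) (nat_lit 0) (p (nat_lit 0x28092) (nat_lit 0) (p (nat_lit 0x18012) (nat_lit 0) pn))))))))))))))))))))))) :=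
  Cl.node (nat_lit 0xb0004) (nat_lit 2) (by decide +kernel) (ClAll.succ (ClAll.succ ClAll.zero n32) s29)

def n52 : Cl (O (nat_lit 2)) (R (nat_lit 131281))
    (p (nat_lit 0xc1) (nat_lit 0) (p (nat_lit 0x81) (nat_lit 1) (p (nat_lit 0x101) (nat_lit 1) (p (nat_lit 0x111) (nat_lit 0) (p (nat_lit 0xd1) (nat_lit 1) (p (nat_lit 0x89) (nat_lit 0) (p (nat_lit 0x41) (nat_lit 0) (p (nat_lit 0x89088787069a) (nat_lit 0) (p (nat_lit 0x88878706861a) (nat_lit 0) (p (nat_lit 0x80000000080686058a) (nat_lit 0) (p (nat_lit 0x8706058502) (nat_lit 0) (p (nat_lit 0x8605850482) (nat_lit 0) (p (nat_lit 0x160014) (nat_lit 0) (p (nat_lit 0x160004) (nat_lit 0) (p (nat_lit 0x68512) (nat_lit 0) (p (nat_lit 0x58492) (nat_lit 0) (p (nat_lit 0x48412) (nat_lit 0) (p (nat_lit 0x50312) (nat_lit 0) (p (nat_lit 0x40292) (nat_lit 0) (p (nat_lit 0x30212) (nat_lit 0) (p (nat_lit 0x38112) (nat_lit 0) (p (nat_lit 0x28092)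 (nat_lit 0) (p (nat_lit 0x18012) (nat_lit 0) pn))))))))))))))))))))))) :=
  Cl.node (nat_lit 0x20000c) (nat_lit 2) (by decide +kernel) (ClAll.succ (ClAll.succ ClAll.zero s30) n33)

def n53 : Cl (O (nat_lit 2)) (R (nat_lit 131281))
    (p (nat_lit 0x101) (nat_lit 0) (p (nat_lit 0xc1) (nat_lit 1) (p (nat_lit 0x81) (nat_lit 1) (p (nat_lit 0x111) (nat_lit 1) (p (nat_lit 0xd1) (nat_lit 1) (p (nat_lit 0x89) (nat_lit 0) (p (nat_lit 0x41) (nat_lit 0) (p (nat_lit 0x89088787069a) (nat_lit 0) (p (nat_lit 0x88878706861a) (nat_lit 0) (p (nat_lit 0x80000000080686058a) (nat_lit 0) (p (nat_lit 0x8706058502) (nat_lit 0) (p (nat_lit 0x8605850482) (nat_lit 0) (p (nat_lit 0x160014) (nat_lit 0) (p (nat_lit 0x160004) (nat_lit 0) (p (nat_lit 0x68512) (nat_lit 0) (p (nat_lit 0x58492) (nat_lit 0) (p (nat_lit 0x48412) (nat_lit 0) (p (nat_lit 0x50312) (nat_lit 0) (p (nat_lit 0x40292) (nat_lit 0) (p (nat_lit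 0x30212) (nat_lit 0) (p (nat_lit 0x38112) (nat_lit 0) (p (nat_lit 0x28092) (nat_lit 0) (p (nat_lit 0x18012) (nat_lit 0) pn))))))))))))))))))))))) :=
  Cl.node (nat_lit 0x20000c) (nat_lit 2) (by decide +kernel) (ClAll.succ (ClAll.succ ClAll.zero s38) n34)

def n54 : Cl (O (nat_lit 2)) (R (nat_lit 131281))
    (p (nat_lit 0xd1) (nat_lit 0) (p (nat_lit 0xc1) (nat_lit 0) (p (nat_lit 0x101) (nat_lit 1) (p (nat_lit 0x119) (nat_lit 0) (p (nat_lit 0xc9) (nat_lit 0) (p (nat_lit 0x89) (nat_lit 1) (p (nat_lit 0x41) (nat_lit 0) (p (nat_lit 0x89088787069a) (nat_lit 0) (p (nat_lit 0x88878706861a) (nat_lit 0) (p (nat_lit 0x80000000080686058a) (nat_lit 0) (p (nat_lit 0x8706058502) (nat_lit 0) (p (nat_lit 0x8605850482) (nat_lit 0) (p (nat_lit 0x160014) (nat_lit 0) (p (nat_lit 0x160004) (nat_lit 0) (p (nat_lit 0x68512) (nat_lit 0) (p (nat_lit 0x58492) (nat_lit 0) (p (nat_lit 0x48412) (nat_lit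 0) (p (nat_lit 0x50312) (nat_lit 0) (p (nat_lit 0x40292) (nat_lit 0) (p (nat_lit 0x30212) (nat_lit 0) (p (nat_lit 0x38112) (nat_lit 0) (p (nat_lit 0x28092) (nat_lit 0) (p (nat_lit 0x18012) (nat_lit 0) pn))))))))))))))))))))))) :=
  Cl.node (nat_lit 0x20000c) (nat_lit 2) (by decide +kernel) (ClAll.succ (ClAll.succ ClAll.zero s47) n35)

def n55 : Cl (O (nat_lit 2)) (R (nat_lit 131281))
    (p (nat_lit 0x89) (nat_lit 0) (p (nat_lit 0x109) (nat_lit 1) (p (nat_lit 0x101) (nat_lit 0) (p (nat_lit 0x119) (nat_lit 0) (p (nat_lit 0xd1) (nat_lit 0) (p (nat_lit 0x81) (nat_lit 0) (p (nat_lit 0x41) (nat_lit 1) (p (nat_lit 0x89088787069a) (nat_lit 0) (p (nat_lit 0x88878706861a) (nat_lit 0) (p (nat_lit 0x80000000080686058a) (nat_lit 0) (p (nat_lit 0x8706058502) (nat_lit 0) (p (nat_lit 0x8605850482) (nat_lit 0) (p (nat_lit 0x160014) (nat_lit 0) (p (nat_lit 0x160004) (nat_lit 0) (p (nat_lit 0x68512)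 (nat_lit 0) (p (nat_lit 0x58492) (nat_lit 0) (p (nat_lit 0x48412) (nat_lit 0) (p (nat_lit 0x50312) (nat_lit 0) (p (nat_lit 0x40292) (nat_lit 0) (p (nat_lit 0x30212) (nat_lit 0) (p (nat_lit 0x38112) (nat_lit 0) (p (nat_lit 0x28092) (nat_lit 0) (p (nat_lit 0x18012) (nat_lit 0) pn))))))))))))))))))))))) :=
  Cl.node (nat_lit 0x20000c) (nat_lit 2) (by decide +kernel) (ClAll.succ (ClAll.succ ClAll.zero s59) s60)

def n56 : Cl (O (nat_lit 2)) (R (nat_lit 131281))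
    (p (nat_lit 0x89) (nat_lit 1) (p (nat_lit 0x109) (nat_lit 1) (p (nat_lit 0x101) (nat_lit 0) (p (nat_lit 0x119) (nat_lit 0) (p (nat_lit 0xd1) (nat_lit 0) (p (nat_lit 0x81) (nat_lit 0) (p (nat_lit 0x41) (nat_lit 1) (p (nat_lit 0x89088787069a) (nat_lit 0) (p (nat_lit 0x88878706861a) (nat_lit 0) (p (nat_lit 0x80000000080686058a) (nat_lit 0) (p (nat_lit 0x8706058502) (nat_lit 0) (p (nat_lit 0x8605850482) (nat_lit 0) (p (nat_lit 0x160014) (nat_lit 0) (p (nat_lit 0x160004) (nat_lit 0) (p (nat_lit 0x68512) (nat_lit 0) (p (nat_lit 0x58492) (nat_lit 0) (p (nat_lit 0x48412) (nat_lit 0) (p (nat_lit 0x50312) (nat_lit 0) (p (nat_lit 0x40292) (nat_lit 0) (p (nat_lit 0x30212) (nat_lit 0) (p (nat_lit 0x38112) (nat_lit 0) (p (nat_lit 0x28092) (nat_lit 0) (p (nat_lit 0x18012) (nat_lit 0) pn))))))))))))))))))))))) :=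
  Cl.node (nat_lit 0xc9) (nat_lit 2) (by decide +kernel) (ClAll.succ (ClAll.succ ClAll.zero s61) s62)

def n57 : Cl (O (nat_lit 2)) (R (nat_lit 131281))
    (p (nat_lit 0x89) (nat_lit 1) (p (nat_lit 0xc1) (nat_lit 0) (p (nat_lit 0x101) (nat_lit 1) (p (nat_lit 0x119) (nat_lit 0) (p (nat_lit 0xd1) (nat_lit 0) (p (nat_lit 0x81) (nat_lit 0) (p (nat_lit 0x41) (nat_lit 1) (p (nat_lit 0x89088787069a) (nat_lit 0) (p (nat_lit 0x88878706861a) (nat_lit 0) (p (nat_lit 0x80000000080686058a) (nat_lit 0) (p (nat_lit 0x8706058502) (nat_lit 0) (p (nat_lit 0x8605850482) (nat_lit 0) (p (nat_lit 0x160014) (nat_lit 0) (p (nat_lit 0x160004) (nat_lit 0) (p (nat_lit 0x68512) (nat_lit 0) (p (nat_lit 0x58492) (nat_lit 0) (p (nat_lit 0x48412) (nat_lit 0) (p (nat_lit 0x50312) (nat_lit 0) (p (nat_lit 0x40292) (nat_lit 0) (p (nat_lit 0x30212) (nat_lit 0) (p (nat_lit 0x38112) (nat_lit 0) (p (nat_lit 0x28092)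 (nat_lit 0) (p (nat_lit 0x18012) (nat_lit 0) pn))))))))))))))))))))))) :=
  Cl.node (nat_lit 0xc9) (nat_lit 2) (by decide +kernel) (ClAll.succ (ClAll.succ ClAll.zero s64) n36)

def n58 : Cl (O (nat_lit 2)) (R (nat_lit 131281))
    (p (nat_lit 0x89) (nat_lit 1) (p (nat_lit 0xc1) (nat_lit 1) (p (nat_lit 0x101) (nat_lit 1) (p (nat_lit 0x119) (nat_lit 0) (p (nat_lit 0xd1) (nat_lit 0) (p (nat_lit 0x81) (nat_lit 0) (p (nat_lit 0x41) (nat_lit 1) (p (nat_lit 0x89088787069a) (nat_lit 0) (p (nat_lit 0x88878706861a) (nat_lit 0) (p (nat_lit 0x80000000080686058a) (nat_lit 0) (p (nat_lit 0x8706058502) (nat_lit 0) (p (nat_lit 0x8605850482) (nat_lit 0) (p (nat_lit 0x160014) (nat_lit 0) (p (nat_lit 0x160004) (nat_lit 0) (p (nat_lit 0x68512) (nat_lit 0) (p (nat_lit 0x58492) (nat_lit 0) (p (nat_lit 0x48412) (nat_lit 0) (p (nat_lit 0x50312) (nat_lit 0) (p (nat_lit 0x40292) (nat_lit 0) (p (nat_lit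 0x30212) (nat_lit 0) (p (nat_lit 0x38112) (nat_lit 0) (p (nat_lit 0x28092) (nat_lit 0) (p (nat_lit 0x18012) (nat_lit 0) pn))))))))))))))))))))))) :=
  Cl.node (nat_lit 0x20000c) (nat_lit 2) (by decide +kernel) (ClAll.succ (ClAll.succ ClAll.zero s71) n37)

def n59 : Cl (O (nat_lit 2)) (R (nat_lit 131281))
    (p (nat_lit 0x89) (nat_lit 1) (p (nat_lit 0xc9) (nat_lit 1) (p (nat_lit 0xc1) (nat_lit 0) (p (nat_lit 0x119) (nat_lit 1) (p (nat_lit 0xd1) (nat_lit 0) (p (nat_lit 0x81) (nat_lit 0) (p (nat_lit 0x41) (nat_lit 1) (p (nat_lit 0x89088787069a) (nat_lit 0) (p (nat_lit 0x88878706861a) (nat_lit 0) (p (nat_lit 0x80000000080686058a) (nat_lit 0) (p (nat_lit 0x8706058502) (nat_lit 0) (p (nat_lit 0x8605850482) (nat_lit 0) (p (nat_lit 0x160014) (nat_lit 0) (p (nat_lit 0x160004) (nat_lit 0) (p (nat_lit 0x68512) (nat_lit 0) (p (nat_lit 0x58492) (nat_lit 0) (p (nat_lit 0x48412) (nat_lit 0)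 (p (nat_lit 0x50312) (nat_lit 0) (p (nat_lit 0x40292) (nat_lit 0) (p (nat_lit 0x30212) (nat_lit 0) (p (nat_lit 0x38112) (nat_lit 0) (p (nat_lit 0x28092) (nat_lit 0) (p (nat_lit 0x18012) (nat_lit 0) pn))))))))))))))))))))))) :=
  Cl.node (nat_lit 0x109) (nat_lit 2) (by decide +kernel) (ClAll.succ (ClAll.succ ClAll.zero n38) s81)

def n60 : Cl (O (nat_lit 2)) (R (nat_lit 131281))
    (p (nat_lit 0x89) (nat_lit 1) (p (nat_lit 0x101) (nat_lit 0) (p (nat_lit 0xc1) (nat_lit 1) (p (nat_lit 0x119) (nat_lit 1) (p (nat_lit 0xd1) (nat_lit 0) (p (nat_lit 0x81) (nat_lit 0) (p (nat_lit 0x41) (nat_lit 1) (p (nat_lit 0x89088787069a) (nat_lit 0) (p (nat_lit 0x88878706861a) (nat_lit 0) (p (nat_lit 0x80000000080686058a) (nat_lit 0) (p (nat_lit 0x8706058502) (nat_lit 0) (p (nat_lit 0x8605850482) (nat_lit 0) (p (nat_lit 0x160014) (nat_lit 0) (p (nat_lit 0x160004) (nat_lit 0) (p (nat_lit 0x68512)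 (nat_lit 0) (p (nat_lit 0x58492) (nat_lit 0) (p (nat_lit 0x48412) (nat_lit 0) (p (nat_lit 0x50312) (nat_lit 0) (p (nat_lit 0x40292) (nat_lit 0) (p (nat_lit 0x30212) (nat_lit 0) (p (nat_lit 0x38112) (nat_lit 0) (p (nat_lit 0x28092) (nat_lit 0) (p (nat_lit 0x18012) (nat_lit 0) pn))))))))))))))))))))))) :=
  Cl.node (nat_lit 0x109) (nat_lit 2) (by decide +kernel) (ClAll.succ (ClAll.succ ClAll.zero n39) n40)

def n61 : Cl (O (nat_lit 2)) (R (nat_lit 131281))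
    (p (nat_lit 0x89) (nat_lit 1) (p (nat_lit 0x101) (nat_lit 1) (p (nat_lit 0xc1) (nat_lit 1) (p (nat_lit 0x119) (nat_lit 1) (p (nat_lit 0xd1) (nat_lit 0) (p (nat_lit 0x81) (nat_lit 0) (p (nat_lit 0x41) (nat_lit 1) (p (nat_lit 0x89088787069a) (nat_lit 0) (p (nat_lit 0x88878706861a) (nat_lit 0) (p (nat_lit 0x80000000080686058a) (nat_lit 0) (p (nat_lit 0x8706058502) (nat_lit 0) (p (nat_lit 0x8605850482) (nat_lit 0) (p (nat_lit 0x160014) (nat_lit 0) (p (nat_lit 0x160004) (nat_lit 0) (p (nat_lit 0x68512) (nat_lit 0) (p (nat_lit 0x58492) (nat_lit 0) (p (nat_lit 0x48412) (nat_lit 0) (p (nat_lit 0x50312) (nat_lit 0) (p (nat_lit 0x40292) (nat_lit 0) (p (nat_lit 0x30212) (nat_lit 0) (p (nat_lit 0x38112) (nat_lit 0) (p (nat_lit 0x28092) (nat_lit 0) (p (nat_lit 0x18012) (nat_lit 0) pn))))))))))))))))))))))) :=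
  Cl.node (nat_lit 0x20000c) (nat_lit 2) (by decide +kernel) (ClAll.succ (ClAll.succ ClAll.zero s94) n41)

def n62 : Cl (O (nat_lit 2)) (R (nat_lit 131281))
    (p (nat_lit 0x89) (nat_lit 1) (p (nat_lit 0x109) (nat_lit 1) (p (nat_lit 0x101) (nat_lit 0) (p (nat_lit 0x111) (nat_lit 0) (p (nat_lit 0xd1) (nat_lit 1) (p (nat_lit 0x81) (nat_lit 0) (p (nat_lit 0x41) (nat_lit 1) (p (nat_lit 0x89088787069a) (nat_lit 0) (p (nat_lit 0x88878706861a) (nat_lit 0) (p (nat_lit 0x80000000080686058a) (nat_lit 0) (p (nat_lit 0x8706058502) (nat_lit 0) (p (nat_lit 0x8605850482) (nat_lit 0) (p (nat_lit 0x160014) (nat_lit 0) (p (nat_lit 0x160004) (nat_lit 0) (p (nat_lit 0x68512) (nat_lit 0) (p (nat_lit 0x58492) (nat_lit 0) (p (nat_lit 0x48412) (nat_lit 0) (p (nat_lit 0x50312) (nat_lit 0) (p (nat_lit 0x40292) (nat_lit 0) (p (nat_lit 0x30212) (nat_lit 0) (p (nat_lit 0x38112) (nat_lit 0) (p (nat_lit 0x28092)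 (nat_lit 0) (p (nat_lit 0x18012) (nat_lit 0) pn))))))))))))))))))))))) :=
  Cl.node (nat_lit 0xc9) (nat_lit 2) (by decide +kernel) (ClAll.succ (ClAll.succ ClAll.zero n42) s107)

def n63 : Cl (O (nat_lit 2)) (R (nat_lit 131281))
    (p (nat_lit 0xd1) (nat_lit 1) (p (nat_lit 0xc9) (nat_lit 0) (p (nat_lit 0x101) (nat_lit 1) (p (nat_lit 0x119) (nat_lit 0) (p (nat_lit 0xc1) (nat_lit 0) (p (nat_lit 0x81) (nat_lit 1) (p (nat_lit 0x41) (nat_lit 1) (p (nat_lit 0x89088787069a) (nat_lit 0) (p (nat_lit 0x88878706861a) (nat_lit 0) (p (nat_lit 0x80000000080686058a) (nat_lit 0) (p (nat_lit 0x8706058502) (nat_lit 0) (p (nat_lit 0x8605850482) (nat_lit 0) (p (nat_lit 0x160014) (nat_lit 0) (p (nat_lit 0x160004) (nat_lit 0) (p (nat_lit 0x68512) (nat_lit 0) (p (nat_lit 0x58492) (nat_lit 0) (p (nat_lit 0x48412) (nat_lit 0) (p (nat_lit 0x50312) (nat_lit 0) (p (nat_lit 0x40292) (nat_lit 0) (p (nat_lit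 0x30212) (nat_lit 0) (p (nat_lit 0x38112) (nat_lit 0) (p (nat_lit 0x28092) (nat_lit 0) (p (nat_lit 0x18012) (nat_lit 0) pn))))))))))))))))))))))) :=
  Cl.node (nat_lit 0x20000c) (nat_lit 2) (by decide +kernel) (ClAll.succ (ClAll.succ ClAll.zero s119) s120)

def n64 : Cl (O (nat_lit 2)) (R (nat_lit 131281))
    (p (nat_lit 0x111) (nat_lit 1) (p (nat_lit 0xd1) (nat_lit 1) (p (nat_lit 0xc9) (nat_lit 0) (p (nat_lit 0x119) (nat_lit 1) (p (nat_lit 0xc1) (nat_lit 0) (p (nat_lit 0x81) (nat_lit 1) (p (nat_lit 0x41) (nat_lit 1) (p (nat_lit 0x89088787069a) (nat_lit 0) (p (nat_lit 0x88878706861a) (nat_lit 0) (p (nat_lit 0x80000000080686058a) (nat_lit 0) (p (nat_lit 0x8706058502) (nat_lit 0) (p (nat_lit 0x8605850482) (nat_lit 0) (p (nat_lit 0x160014) (nat_lit 0) (p (nat_lit 0x160004) (nat_lit 0) (p (nat_lit 0x68512) (nat_lit 0) (p (nat_lit 0x58492) (nat_lit 0) (p (nat_lit 0x48412) (nat_lit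 0) (p (nat_lit 0x50312) (nat_lit 0) (p (nat_lit 0x40292) (nat_lit 0) (p (nat_lit 0x30212) (nat_lit 0) (p (nat_lit 0x38112) (nat_lit 0) (p (nat_lit 0x28092) (nat_lit 0) (p (nat_lit 0x18012) (nat_lit 0) pn))))))))))))))))))))))) :=
  Cl.node (nat_lit 0x20000c) (nat_lit 2) (by decide +kernel) (ClAll.succ (ClAll.succ ClAll.zero s124) s125)

def n65 : Cl (O (nat_lit 2)) (R (nat_lit 131281))
    (p (nat_lit 0x111) (nat_lit 1) (p (nat_lit 0x109) (nat_lit 0) (p (nat_lit 0xc9) (nat_lit 1) (p (nat_lit 0x119) (nat_lit 1) (p (nat_lit 0xc1) (nat_lit 0) (p (nat_lit 0x81) (nat_lit 1) (p (nat_lit 0x41) (nat_lit 1) (p (nat_lit 0x89088787069a) (nat_lit 0) (p (nat_lit 0x88878706861a) (nat_lit 0) (p (nat_lit 0x80000000080686058a) (nat_lit 0) (p (nat_lit 0x8706058502) (nat_lit 0) (p (nat_lit 0x8605850482) (nat_lit 0) (p (nat_lit 0x160014) (nat_lit 0) (p (nat_lit 0x160004) (nat_lit 0) (p (nat_lit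 0x68512) (nat_lit 0) (p (nat_lit 0x58492) (nat_lit 0) (p (nat_lit 0x48412) (nat_lit 0) (p (nat_lit 0x50312) (nat_lit 0) (p (nat_lit 0x40292) (nat_lit 0) (p (nat_lit 0x30212) (nat_lit 0) (p (nat_lit 0x38112) (nat_lit 0) (p (nat_lit 0x28092) (nat_lit 0) (p (nat_lit 0x18012) (nat_lit 0) pn))))))))))))))))))))))) :=
  Cl.node (nat_lit 0x20000c) (nat_lit 2) (by decide +kernel) (ClAll.succ (ClAll.succ ClAll.zero s127) n43)

def n66 : Cl (O (nat_lit 2)) (R (nat_lit 131281))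
    (p (nat_lit 0x20000c) (nat_lit 1) (p (nat_lit 0x109) (nat_lit 1) (p (nat_lit 0xc9) (nat_lit 1) (p (nat_lit 0x119) (nat_lit 1) (p (nat_lit 0xc1) (nat_lit 0) (p (nat_lit 0x81) (nat_lit 1) (p (nat_lit 0x41) (nat_lit 1) (p (nat_lit 0x89088787069a) (nat_lit 0) (p (nat_lit 0x88878706861a) (nat_lit 0) (p (nat_lit 0x80000000080686058a) (nat_lit 0) (p (nat_lit 0x8706058502) (nat_lit 0) (p (nat_lit 0x8605850482) (nat_lit 0) (p (nat_lit 0x160014) (nat_lit 0) (p (nat_lit 0x160004) (nat_lit 0) (p (nat_lit 0x68512) (nat_lit 0) (p (nat_lit 0x58492) (nat_lit 0) (p (nat_lit 0x48412) (nat_lit 0) (p (nat_lit 0x50312) (nat_lit 0) (p (nat_lit 0x40292) (nat_lit 0) (p (nat_lit 0x30212) (nat_lit 0) (p (nat_lit 0x38112) (nat_lit 0) (p (nat_lit 0x28092) (nat_lit 0) (p (nat_lit 0x18012) (nat_lit 0) pn))))))))))))))))))))))) :=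
  Cl.node (nat_lit 0xb0004) (nat_lit 2) (by decide +kernel) (ClAll.succ (ClAll.succ ClAll.zero n44) s137)

def n67 : Cl (O (nat_lit 2)) (R (nat_lit 131281))
    (p (nat_lit 0x109) (nat_lit 1) (p (nat_lit 0x101) (nat_lit 0) (p (nat_lit 0x119) (nat_lit 0) (p (nat_lit 0xd1) (nat_lit 0) (p (nat_lit 0x89) (nat_lit 0) (p (nat_lit 0x41) (nat_lit 0) (p (nat_lit 0x89088787069a) (nat_lit 0) (p (nat_lit 0x88878706861a) (nat_lit 0) (p (nat_lit 0x80000000080686058a) (nat_lit 0) (p (nat_lit 0x8706058502) (nat_lit 0) (p (nat_lit 0x8605850482) (nat_lit 0) (p (nat_lit 0x160014) (nat_lit 0) (p (nat_lit 0x160004) (nat_lit 0) (p (nat_lit 0x68512) (nat_lit 0) (p (nat_lit 0x58492) (nat_lit 0) (p (nat_lit 0x48412) (nat_lit 0) (p (nat_lit 0x50312) (nat_lit 0) (p (nat_lit 0x40292) (nat_lit 0) (p (nat_lit 0x30212) (nat_lit 0) (p (nat_lit 0x38112) (nat_lit 0) (p (nat_lit 0x28092) (nat_lit 0) (p (nat_lit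 0x18012) (nat_lit 0) pn)))))))))))))))))))))) :=
  Cl.node (nat_lit 0xc9) (nat_lit 2) (by decide +kernel) (ClAll.succ (ClAll.succ ClAll.zero s1) s2)

def n68 : Cl (O (nat_lit 2)) (R (nat_lit 131281))
    (p (nat_lit 0x81) (nat_lit 0) (p (nat_lit 0x101) (nat_lit 1) (p (nat_lit 0x119) (nat_lit 0) (p (nat_lit 0xd1) (nat_lit 0) (p (nat_lit 0x89) (nat_lit 0) (p (nat_lit 0x41) (nat_lit 0) (p (nat_lit 0x89088787069a) (nat_lit 0) (p (nat_lit 0x88878706861a) (nat_lit 0) (p (nat_lit 0x80000000080686058a) (nat_lit 0) (p (nat_lit 0x8706058502) (nat_lit 0) (p (nat_lit 0x8605850482) (nat_lit 0) (p (nat_lit 0x160014) (nat_lit 0) (p (nat_lit 0x160004) (nat_lit 0) (p (nat_lit 0x68512) (nat_lit 0) (p (nat_lit 0x58492) (nat_lit 0) (p (nat_lit 0x48412) (nat_lit 0) (p (nat_lit 0x50312) (nat_lit 0) (p (nat_lit 0x40292) (nat_lit 0) (p (nat_lit 0x30212) (nat_lit 0) (p (nat_lit 0x38112) (nat_lit 0) (p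 (nat_lit 0x28092) (nat_lit 0) (p (nat_lit 0x18012) (nat_lit 0) pn)))))))))))))))))))))) :=
  Cl.node (nat_lit 0xc9) (nat_lit 2) (by decide +kernel) (ClAll.succ (ClAll.succ ClAll.zero n45) n46)

def n69 : Cl (O (nat_lit 2)) (R (nat_lit 131281))
    (p (nat_lit 0x81) (nat_lit 1) (p (nat_lit 0x101) (nat_lit 1) (p (nat_lit 0x119) (nat_lit 0) (p (nat_lit 0xd1) (nat_lit 0) (p (nat_lit 0x89) (nat_lit 0) (p (nat_lit 0x41) (nat_lit 0) (p (nat_lit 0x89088787069a) (nat_lit 0) (p (nat_lit 0x88878706861a) (nat_lit 0) (p (nat_lit 0x80000000080686058a) (nat_lit 0) (p (nat_lit 0x8706058502) (nat_lit 0) (p (nat_lit 0x8605850482) (nat_lit 0) (p (nat_lit 0x160014) (nat_lit 0) (p (nat_lit 0x160004) (nat_lit 0) (p (nat_lit 0x68512) (nat_lit 0) (p (nat_lit 0x58492) (nat_lit 0) (p (nat_lit 0x48412) (nat_lit 0) (p (nat_lit 0x50312) (nat_lit 0) (p (nat_lit 0x40292) (nat_lit 0) (p (nat_lit 0x30212) (nat_lit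 0) (p (nat_lit 0x38112) (nat_lit 0) (p (nat_lit 0x28092) (nat_lit 0) (p (nat_lit 0x18012) (nat_lit 0) pn)))))))))))))))))))))) :=
  Cl.node (nat_lit 0xc1) (nat_lit 2) (by decide +kernel) (ClAll.succ (ClAll.succ ClAll.zero n47) s12)

def n70 : Cl (O (nat_lit 2)) (R (nat_lit 131281))
    (p (nat_lit 0xc9) (nat_lit 1) (p (nat_lit 0xc1) (nat_lit 0) (p (nat_lit 0x119) (nat_lit 1) (p (nat_lit 0xd1) (nat_lit 0) (p (nat_lit 0x89) (nat_lit 0) (p (nat_lit 0x41) (nat_lit 0) (p (nat_lit 0x89088787069a) (nat_lit 0) (p (nat_lit 0x88878706861a) (nat_lit 0) (p (nat_lit 0x80000000080686058a) (nat_lit 0) (p (nat_lit 0x8706058502) (nat_lit 0) (p (nat_lit 0x8605850482) (nat_lit 0) (p (nat_lit 0x160014) (nat_lit 0) (p (nat_lit 0x160004) (nat_lit 0) (p (nat_lit 0x68512) (nat_lit 0) (p (nat_lit 0x58492) (nat_lit 0) (p (nat_lit 0x48412) (nat_lit 0) (p (nat_lit 0x50312) (nat_lit 0) (p (nat_lit 0x40292)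 (nat_lit 0) (p (nat_lit 0x30212) (nat_lit 0) (p (nat_lit 0x38112) (nat_lit 0) (p (nat_lit 0x28092) (nat_lit 0) (p (nat_lit 0x18012) (nat_lit 0) pn)))))))))))))))))))))) :=
  Cl.node (nat_lit 0x109) (nat_lit 2) (by decide +kernel) (ClAll.succ (ClAll.succ ClAll.zero s14) n48)

def n71 : Cl (O (nat_lit 2)) (R (nat_lit 131281))
    (p (nat_lit 0x81) (nat_lit 0) (p (nat_lit 0xc1) (nat_lit 1) (p (nat_lit 0x119) (nat_lit 1) (p (nat_lit 0xd1) (nat_lit 0) (p (nat_lit 0x89) (nat_lit 0) (p (nat_lit 0x41) (nat_lit 0) (p (nat_lit 0x89088787069a) (nat_lit 0) (p (nat_lit 0x88878706861a) (nat_lit 0) (p (nat_lit 0x80000000080686058a) (nat_lit 0) (p (nat_lit 0x8706058502) (nat_lit 0) (p (nat_lit 0x8605850482) (nat_lit 0) (p (nat_lit 0x160014) (nat_lit 0) (p (nat_lit 0x160004) (nat_lit 0) (p (nat_lit 0x68512) (nat_lit 0) (p (nat_lit 0x58492) (nat_lit 0) (p (nat_lit 0x48412) (nat_lit 0) (p (nat_lit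 0x50312) (nat_lit 0) (p (nat_lit 0x40292) (nat_lit 0) (p (nat_lit 0x30212) (nat_lit 0) (p (nat_lit 0x38112) (nat_lit 0) (p (nat_lit 0x28092) (nat_lit 0) (p (nat_lit 0x18012) (nat_lit 0) pn)))))))))))))))))))))) :=
  Cl.node (nat_lit 0x109) (nat_lit 2) (by decide +kernel) (ClAll.succ (ClAll.succ ClAll.zero s17) n49)

def n72 : Cl (O (nat_lit 2)) (R (nat_lit 131281))
    (p (nat_lit 0x81) (nat_lit 1) (p (nat_lit 0xc1) (nat_lit 1) (p (nat_lit 0x119) (nat_lit 1) (p (nat_lit 0xd1) (nat_lit 0) (p (nat_lit 0x89) (nat_lit 0) (p (nat_lit 0x41) (nat_lit 0) (p (nat_lit 0x89088787069a) (nat_lit 0) (p (nat_lit 0x88878706861a) (nat_lit 0) (p (nat_lit 0x80000000080686058a) (nat_lit 0) (p (nat_lit 0x8706058502) (nat_lit 0) (p (nat_lit 0x8605850482) (nat_lit 0) (p (nat_lit 0x160014) (nat_lit 0) (p (nat_lit 0x160004) (nat_lit 0) (p (nat_lit 0x68512) (nat_lit 0) (p (nat_lit 0x58492) (nat_lit 0)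 (p (nat_lit 0x48412) (nat_lit 0) (p (nat_lit 0x50312) (nat_lit 0) (p (nat_lit 0x40292) (nat_lit 0) (p (nat_lit 0x30212) (nat_lit 0) (p (nat_lit 0x38112) (nat_lit 0) (p (nat_lit 0x28092) (nat_lit 0) (p (nat_lit 0x18012) (nat_lit 0) pn)))))))))))))))))))))) :=
  Cl.node (nat_lit 0x101) (nat_lit 2) (by decide +kernel) (ClAll.succ (ClAll.succ ClAll.zero n50) s22)

def n73 : Cl (O (nat_lit 2)) (R (nat_lit 131281))
    (p (nat_lit 0x81) (nat_lit 0) (p (nat_lit 0x101) (nat_lit 1) (p (nat_lit 0x111) (nat_lit 0) (p (nat_lit 0xd1) (nat_lit 1) (p (nat_lit 0x89) (nat_lit 0) (p (nat_lit 0x41) (nat_lit 0) (p (nat_lit 0x89088787069a) (nat_lit 0) (p (nat_lit 0x88878706861a) (nat_lit 0) (p (nat_lit 0x80000000080686058a) (nat_lit 0) (p (nat_lit 0x8706058502) (nat_lit 0) (p (nat_lit 0x8605850482) (nat_lit 0) (p (nat_lit 0x160014) (nat_lit 0) (p (nat_lit 0x160004) (nat_lit 0) (p (nat_lit 0x68512)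 (nat_lit 0) (p (nat_lit 0x58492) (nat_lit 0) (p (nat_lit 0x48412) (nat_lit 0) (p (nat_lit 0x50312) (nat_lit 0) (p (nat_lit 0x40292) (nat_lit 0) (p (nat_lit 0x30212) (nat_lit 0) (p (nat_lit 0x38112) (nat_lit 0) (p (nat_lit 0x28092) (nat_lit 0) (p (nat_lit 0x18012) (nat_lit 0) pn)))))))))))))))))))))) :=
  Cl.node (nat_lit 0x20000c) (nat_lit 2) (by decide +kernel) (ClAll.succ (ClAll.succ ClAll.zero s25) n51)

def n74 : Cl (O (nat_lit 2)) (R (nat_lit 131281))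
    (p (nat_lit 0x81) (nat_lit 1) (p (nat_lit 0x101) (nat_lit 1) (p (nat_lit 0x111) (nat_lit 0) (p (nat_lit 0xd1) (nat_lit 1) (p (nat_lit 0x89) (nat_lit 0) (p (nat_lit 0x41) (nat_lit 0) (p (nat_lit 0x89088787069a) (nat_lit 0) (p (nat_lit 0x88878706861a) (nat_lit 0) (p (nat_lit 0x80000000080686058a) (nat_lit 0) (p (nat_lit 0x8706058502) (nat_lit 0) (p (nat_lit 0x8605850482) (nat_lit 0) (p (nat_lit 0x160014) (nat_lit 0) (p (nat_lit 0x160004) (nat_lit 0) (p (nat_lit 0x68512) (nat_lit 0) (p (nat_lit 0x58492) (nat_lit 0) (p (nat_lit 0x48412) (nat_lit 0) (p (nat_lit 0x50312) (nat_lit 0) (p (nat_lit 0x40292) (nat_lit 0) (p (nat_lit 0x30212) (nat_lit 0) (p (nat_lit 0x38112) (nat_lit 0) (p (nat_lit 0x28092) (nat_lit 0) (p (nat_lit 0x18012) (nat_lit 0) pn)))))))))))))))))))))) :=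
  Cl.node (nat_lit 0xc1) (nat_lit 2) (by decide +kernel) (ClAll.succ (ClAll.succ ClAll.zero n52) s35)

def n75 : Cl (O (nat_lit 2)) (R (nat_lit 131281))
    (p (nat_lit 0xc1) (nat_lit 1) (p (nat_lit 0x81) (nat_lit 1) (p (nat_lit 0x111) (nat_lit 1) (p (nat_lit 0xd1) (nat_lit 1) (p (nat_lit 0x89) (nat_lit 0) (p (nat_lit 0x41) (nat_lit 0) (p (nat_lit 0x89088787069a) (nat_lit 0) (p (nat_lit 0x88878706861a) (nat_lit 0) (p (nat_lit 0x80000000080686058a) (nat_lit 0) (p (nat_lit 0x8706058502) (nat_lit 0) (p (nat_lit 0x8605850482) (nat_lit 0) (p (nat_lit 0x160014) (nat_lit 0) (p (nat_lit 0x160004) (nat_lit 0) (p (nat_lit 0x68512) (nat_lit 0) (p (nat_lit 0x58492) (nat_lit 0) (p (nat_lit 0x48412) (nat_lit 0) (p (nat_lit 0x50312) (nat_lit 0) (p (nat_lit 0x40292) (nat_lit 0) (p (nat_lit 0x30212) (nat_lit 0) (p (nat_lit 0x38112) (nat_lit 0) (p (nat_lit 0x28092) (nat_lit 0) (p (nat_lit 0x18012)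 (nat_lit 0) pn)))))))))))))))))))))) :=
  Cl.node (nat_lit 0x101) (nat_lit 2) (by decide +kernel) (ClAll.succ (ClAll.succ ClAll.zero n53) s43)

def n76 : Cl (O (nat_lit 2)) (R (nat_lit 131281))
    (p (nat_lit 0x109) (nat_lit 1) (p (nat_lit 0x101) (nat_lit 0) (p (nat_lit 0x119) (nat_lit 0) (p (nat_lit 0xc9) (nat_lit 0) (p (nat_lit 0x89) (nat_lit 1) (p (nat_lit 0x41) (nat_lit 0) (p (nat_lit 0x89088787069a) (nat_lit 0) (p (nat_lit 0x88878706861a) (nat_lit 0) (p (nat_lit 0x80000000080686058a) (nat_lit 0) (p (nat_lit 0x8706058502) (nat_lit 0) (p (nat_lit 0x8605850482) (nat_lit 0) (p (nat_lit 0x160014) (nat_lit 0) (p (nat_lit 0x160004) (nat_lit 0) (p (nat_lit 0x68512) (nat_lit 0) (p (nat_lit 0x58492) (nat_lit 0) (p (nat_lit 0x48412) (nat_lit 0) (p (nat_lit 0x50312) (nat_lit 0) (p (nat_lit 0x40292) (nat_lit 0) (p (nat_lit 0x30212) (nat_lit 0) (p (nat_lit 0x38112) (nat_lit 0) (p (nat_lit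 0x28092) (nat_lit 0) (p (nat_lit 0x18012) (nat_lit 0) pn)))))))))))))))))))))) :=
  Cl.node (nat_lit 0xd1) (nat_lit 2) (by decide +kernel) (ClAll.succ (ClAll.succ ClAll.zero s45) s46)

def n77 : Cl (O (nat_lit 2)) (R (nat_lit 131281))
    (p (nat_lit 0xc1) (nat_lit 0) (p (nat_lit 0x101) (nat_lit 1) (p (nat_lit 0x119) (nat_lit 0) (p (nat_lit 0xc9) (nat_lit 0) (p (nat_lit 0x89) (nat_lit 1) (p (nat_lit 0x41) (nat_lit 0) (p (nat_lit 0x89088787069a) (nat_lit 0) (p (nat_lit 0x88878706861a) (nat_lit 0) (p (nat_lit 0x80000000080686058a) (nat_lit 0) (p (nat_lit 0x8706058502) (nat_lit 0) (p (nat_lit 0x8605850482) (nat_lit 0) (p (nat_lit 0x160014) (nat_lit 0) (p (nat_lit 0x160004) (nat_lit 0) (p (nat_lit 0x68512) (nat_lit 0) (p (nat_lit 0x58492) (nat_lit 0) (p (nat_lit 0x48412) (nat_lit 0) (p (nat_lit 0x50312) (nat_lit 0) (p (nat_lit 0x40292) (nat_lit 0) (p (nat_lit 0x30212) (nat_lit 0)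 (p (nat_lit 0x38112) (nat_lit 0) (p (nat_lit 0x28092) (nat_lit 0) (p (nat_lit 0x18012) (nat_lit 0) pn)))))))))))))))))))))) :=
  Cl.node (nat_lit 0xd1) (nat_lit 2) (by decide +kernel) (ClAll.succ (ClAll.succ ClAll.zero n54) s52)

def n78 : Cl (O (nat_lit 2)) (R (nat_lit 131281))
    (p (nat_lit 0x109) (nat_lit 1) (p (nat_lit 0x101) (nat_lit 0) (p (nat_lit 0x119) (nat_lit 0) (p (nat_lit 0xd1) (nat_lit 0) (p (nat_lit 0x81) (nat_lit 0) (p (nat_lit 0x41) (nat_lit 1) (p (nat_lit 0x89088787069a) (nat_lit 0) (p (nat_lit 0x88878706861a) (nat_lit 0) (p (nat_lit 0x80000000080686058a) (nat_lit 0) (p (nat_lit 0x8706058502) (nat_lit 0) (p (nat_lit 0x8605850482) (nat_lit 0) (p (nat_lit 0x160014) (nat_lit 0) (p (nat_lit 0x160004) (nat_lit 0) (p (nat_lit 0x68512) (nat_lit 0) (p (nat_lit 0x58492) (nat_lit 0) (p (nat_lit 0x48412) (nat_lit 0) (p (nat_lit 0x50312) (nat_lit 0) (p (nat_lit 0x40292)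 (nat_lit 0) (p (nat_lit 0x30212) (nat_lit 0) (p (nat_lit 0x38112) (nat_lit 0) (p (nat_lit 0x28092) (nat_lit 0) (p (nat_lit 0x18012) (nat_lit 0) pn)))))))))))))))))))))) :=
  Cl.node (nat_lit 0x89) (nat_lit 2) (by decide +kernel) (ClAll.succ (ClAll.succ ClAll.zero n55) n56)

def n79 : Cl (O (nat_lit 2)) (R (nat_lit 131281))
    (p (nat_lit 0xc1) (nat_lit 0) (p (nat_lit 0x101) (nat_lit 1) (p (nat_lit 0x119) (nat_lit 0) (p (nat_lit 0xd1) (nat_lit 0) (p (nat_lit 0x81) (nat_lit 0) (p (nat_lit 0x41) (nat_lit 1) (p (nat_lit 0x89088787069a) (nat_lit 0) (p (nat_lit 0x88878706861a) (nat_lit 0) (p (nat_lit 0x80000000080686058a) (nat_lit 0) (p (nat_lit 0x8706058502) (nat_lit 0) (p (nat_lit 0x8605850482) (nat_lit 0) (p (nat_lit 0x160014) (nat_lit 0) (p (nat_lit 0x160004) (nat_lit 0) (p (nat_lit 0x68512) (nat_lit 0) (p (nat_lit 0x58492) (nat_lit 0) (p (nat_lit 0x48412) (nat_lit 0) (p (nat_lit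 0x50312) (nat_lit 0) (p (nat_lit 0x40292) (nat_lit 0) (p (nat_lit 0x30212) (nat_lit 0) (p (nat_lit 0x38112) (nat_lit 0) (p (nat_lit 0x28092) (nat_lit 0) (p (nat_lit 0x18012) (nat_lit 0) pn)))))))))))))))))))))) :=
  Cl.node (nat_lit 0x89) (nat_lit 2) (by decide +kernel) (ClAll.succ (ClAll.succ ClAll.zero s63) n57)

def n80 : Cl (O (nat_lit 2)) (R (nat_lit 131281))
    (p (nat_lit 0xc1) (nat_lit 1) (p (nat_lit 0x101) (nat_lit 1) (p (nat_lit 0x119) (nat_lit 0) (p (nat_lit 0xd1) (nat_lit 0) (p (nat_lit 0x81) (nat_lit 0) (p (nat_lit 0x41) (nat_lit 1) (p (nat_lit 0x89088787069a) (nat_lit 0) (p (nat_lit 0x88878706861a) (nat_lit 0) (p (nat_lit 0x80000000080686058a) (nat_lit 0) (p (nat_lit 0x8706058502) (nat_lit 0) (p (nat_lit 0x8605850482) (nat_lit 0) (p (nat_lit 0x160014) (nat_lit 0) (p (nat_lit 0x160004) (nat_lit 0) (p (nat_lit 0x68512) (nat_lit 0) (p (nat_lit 0x58492) (nat_lit 0)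 (p (nat_lit 0x48412) (nat_lit 0) (p (nat_lit 0x50312) (nat_lit 0) (p (nat_lit 0x40292) (nat_lit 0) (p (nat_lit 0x30212) (nat_lit 0) (p (nat_lit 0x38112) (nat_lit 0) (p (nat_lit 0x28092) (nat_lit 0) (p (nat_lit 0x18012) (nat_lit 0) pn)))))))))))))))))))))) :=
  Cl.node (nat_lit 0x89) (nat_lit 2) (by decide +kernel) (ClAll.succ (ClAll.succ ClAll.zero s70) n58)

def n81 : Cl (O (nat_lit 2)) (R (nat_lit 131281))
    (p (nat_lit 0xc9) (nat_lit 1) (p (nat_lit 0xc1) (nat_lit 0) (p (nat_lit 0x119) (nat_lit 1) (p (nat_lit 0xd1) (nat_lit 0) (p (nat_lit 0x81) (nat_lit 0) (p (nat_lit 0x41) (nat_lit 1) (p (nat_lit 0x89088787069a) (nat_lit 0) (p (nat_lit 0x88878706861a) (nat_lit 0) (p (nat_lit 0x80000000080686058a) (nat_lit 0) (p (nat_lit 0x8706058502) (nat_lit 0) (p (nat_lit 0x8605850482) (nat_lit 0) (p (nat_lit 0x160014) (nat_lit 0) (p (nat_lit 0x160004) (nat_lit 0) (p (nat_lit 0x68512)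 (nat_lit 0) (p (nat_lit 0x58492) (nat_lit 0) (p (nat_lit 0x48412) (nat_lit 0) (p (nat_lit 0x50312) (nat_lit 0) (p (nat_lit 0x40292) (nat_lit 0) (p (nat_lit 0x30212) (nat_lit 0) (p (nat_lit 0x38112) (nat_lit 0) (p (nat_lit 0x28092) (nat_lit 0) (p (nat_lit 0x18012) (nat_lit 0) pn)))))))))))))))))))))) :=
  Cl.node (nat_lit 0x89) (nat_lit 2) (by decide +kernel) (ClAll.succ (ClAll.succ ClAll.zero s78) n59)

def n82 : Cl (O (nat_lit 2)) (R (nat_lit 131281))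
    (p (nat_lit 0x101) (nat_lit 0) (p (nat_lit 0xc1) (nat_lit 1) (p (nat_lit 0x119) (nat_lit 1) (p (nat_lit 0xd1) (nat_lit 0) (p (nat_lit 0x81) (nat_lit 0) (p (nat_lit 0x41) (nat_lit 1) (p (nat_lit 0x89088787069a) (nat_lit 0) (p (nat_lit 0x88878706861a) (nat_lit 0) (p (nat_lit 0x80000000080686058a) (nat_lit 0) (p (nat_lit 0x8706058502) (nat_lit 0) (p (nat_lit 0x8605850482) (nat_lit 0) (p (nat_lit 0x160014) (nat_lit 0) (p (nat_lit 0x160004) (nat_lit 0) (p (nat_lit 0x68512) (nat_lit 0) (p (nat_lit 0x58492) (nat_lit 0) (p (nat_lit 0x48412) (nat_lit 0) (p (nat_lit 0x50312) (nat_lit 0) (p (nat_lit 0x40292) (nat_lit 0) (p (nat_lit 0x30212) (nat_lit 0) (p (nat_lit 0x38112) (nat_lit 0) (p (nat_lit 0x28092) (nat_lit 0) (p (nat_lit 0x18012) (nat_lit 0) pn)))))))))))))))))))))) :=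
  Cl.node (nat_lit 0x89) (nat_lit 2) (by decide +kernel) (ClAll.succ (ClAll.succ ClAll.zero s82) n60)

def n83 : Cl (O (nat_lit 2)) (R (nat_lit 131281))
    (p (nat_lit 0x101) (nat_lit 1) (p (nat_lit 0xc1) (nat_lit 1) (p (nat_lit 0x119) (nat_lit 1) (p (nat_lit 0xd1) (nat_lit 0) (p (nat_lit 0x81) (nat_lit 0) (p (nat_lit 0x41) (nat_lit 1) (p (nat_lit 0x89088787069a) (nat_lit 0) (p (nat_lit 0x88878706861a) (nat_lit 0) (p (nat_lit 0x80000000080686058a) (nat_lit 0) (p (nat_lit 0x8706058502) (nat_lit 0) (p (nat_lit 0x8605850482) (nat_lit 0) (p (nat_lit 0x160014) (nat_lit 0) (p (nat_lit 0x160004) (nat_lit 0) (p (nat_lit 0x68512) (nat_lit 0) (p (nat_lit 0x58492) (nat_lit 0) (p (nat_lit 0x48412) (nat_lit 0) (p (nat_lit 0x50312) (nat_lit 0) (p (nat_lit 0x40292) (nat_lit 0) (p (nat_lit 0x30212) (nat_lit 0) (p (nat_lit 0x38112) (nat_lit 0) (p (nat_lit 0x28092) (nat_lit 0) (p (nat_lit 0x18012)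 (nat_lit 0) pn)))))))))))))))))))))) :=
  Cl.node (nat_lit 0x89) (nat_lit 2) (by decide +kernel) (ClAll.succ (ClAll.succ ClAll.zero s93) n61)

def n84 : Cl (O (nat_lit 2)) (R (nat_lit 131281))
    (p (nat_lit 0x109) (nat_lit 1) (p (nat_lit 0x101) (nat_lit 0) (p (nat_lit 0x111) (nat_lit 0) (p (nat_lit 0xd1) (nat_lit 1) (p (nat_lit 0x81) (nat_lit 0) (p (nat_lit 0x41) (nat_lit 1) (p (nat_lit 0x89088787069a) (nat_lit 0) (p (nat_lit 0x88878706861a) (nat_lit 0) (p (nat_lit 0x80000000080686058a) (nat_lit 0) (p (nat_lit 0x8706058502) (nat_lit 0) (p (nat_lit 0x8605850482) (nat_lit 0) (p (nat_lit 0x160014) (nat_lit 0) (p (nat_lit 0x160004) (nat_lit 0) (p (nat_lit 0x68512) (nat_lit 0) (p (nat_lit 0x58492) (nat_lit 0) (p (nat_lit 0x48412) (nat_lit 0) (p (nat_lit 0x50312) (nat_lit 0) (p (nat_lit 0x40292) (nat_lit 0) (p (nat_lit 0x30212) (nat_lit 0) (p (nat_lit 0x38112) (nat_lit 0) (p (nat_lit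 0x28092) (nat_lit 0) (p (nat_lit 0x18012) (nat_lit 0) pn)))))))))))))))))))))) :=
  Cl.node (nat_lit 0x89) (nat_lit 2) (by decide +kernel) (ClAll.succ (ClAll.succ ClAll.zero s101) n62)

def n85 : Cl (O (nat_lit 2)) (R (nat_lit 131281))
    (p (nat_lit 0x89) (nat_lit 1) (p (nat_lit 0x101) (nat_lit 1) (p (nat_lit 0x111) (nat_lit 0) (p (nat_lit 0xd1) (nat_lit 1) (p (nat_lit 0x81) (nat_lit 0) (p (nat_lit 0x41) (nat_lit 1) (p (nat_lit 0x89088787069a) (nat_lit 0) (p (nat_lit 0x88878706861a) (nat_lit 0) (p (nat_lit 0x80000000080686058a) (nat_lit 0) (p (nat_lit 0x8706058502) (nat_lit 0) (p (nat_lit 0x8605850482) (nat_lit 0) (p (nat_lit 0x160014) (nat_lit 0) (p (nat_lit 0x160004) (nat_lit 0) (p (nat_lit 0x68512) (nat_lit 0) (p (nat_lit 0x58492) (nat_lit 0) (p (nat_lit 0x48412) (nat_lit 0) (p (nat_lit 0x50312) (nat_lit 0) (p (nat_lit 0x40292) (nat_lit 0) (p (nat_lit 0x30212) (nat_lit 0)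 (p (nat_lit 0x38112) (nat_lit 0) (p (nat_lit 0x28092) (nat_lit 0) (p (nat_lit 0x18012) (nat_lit 0) pn)))))))))))))))))))))) :=
  Cl.node (nat_lit 0xc9) (nat_lit 2) (by decide +kernel) (ClAll.succ (ClAll.succ ClAll.zero s109) s110)

def n86 : Cl (O (nat_lit 2)) (R (nat_lit 131281))
    (p (nat_lit 0xc9) (nat_lit 1) (p (nat_lit 0x89) (nat_lit 1) (p (nat_lit 0x111) (nat_lit 1) (p (nat_lit 0xd1) (nat_lit 1) (p (nat_lit 0x81) (nat_lit 0) (p (nat_lit 0x41) (nat_lit 1) (p (nat_lit 0x89088787069a) (nat_lit 0) (p (nat_lit 0x88878706861a) (nat_lit 0) (p (nat_lit 0x80000000080686058a) (nat_lit 0) (p (nat_lit 0x8706058502) (nat_lit 0) (p (nat_lit 0x8605850482) (nat_lit 0) (p (nat_lit 0x160014) (nat_lit 0) (p (nat_lit 0x160004) (nat_lit 0) (p (nat_lit 0x68512) (nat_lit 0) (p (nat_lit 0x58492) (nat_lit 0) (p (nat_lit 0x48412) (nat_lit 0) (p (nat_lit 0x50312) (nat_lit 0) (p (nat_lit 0x40292)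 (nat_lit 0) (p (nat_lit 0x30212) (nat_lit 0) (p (nat_lit 0x38112) (nat_lit 0) (p (nat_lit 0x28092) (nat_lit 0) (p (nat_lit 0x18012) (nat_lit 0) pn)))))))))))))))))))))) :=
  Cl.node (nat_lit 0x109) (nat_lit 2) (by decide +kernel) (ClAll.succ (ClAll.succ ClAll.zero s113) s114)

def n87 : Cl (O (nat_lit 2)) (R (nat_lit 131281))
    (p (nat_lit 0x109) (nat_lit 1) (p (nat_lit 0x101) (nat_lit 0) (p (nat_lit 0x119) (nat_lit 0) (p (nat_lit 0xc1) (nat_lit 0) (p (nat_lit 0x81) (nat_lit 1) (p (nat_lit 0x41) (nat_lit 1) (p (nat_lit 0x89088787069a) (nat_lit 0) (p (nat_lit 0x88878706861a) (nat_lit 0) (p (nat_lit 0x80000000080686058a) (nat_lit 0) (p (nat_lit 0x8706058502) (nat_lit 0) (p (nat_lit 0x8605850482) (nat_lit 0) (p (nat_lit 0x160014) (nat_lit 0) (p (nat_lit 0x160004) (nat_lit 0) (p (nat_lit 0x68512) (nat_lit 0) (p (nat_lit 0x58492) (nat_lit 0) (p (nat_lit 0x48412) (nat_lit 0) (p (nat_lit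 0x50312) (nat_lit 0) (p (nat_lit 0x40292) (nat_lit 0) (p (nat_lit 0x30212) (nat_lit 0) (p (nat_lit 0x38112) (nat_lit 0) (p (nat_lit 0x28092) (nat_lit 0) (p (nat_lit 0x18012) (nat_lit 0) pn)))))))))))))))))))))) :=
  Cl.node (nat_lit 0xc9) (nat_lit 2) (by decide +kernel) (ClAll.succ (ClAll.succ ClAll.zero s116) s117)

def n88 : Cl (O (nat_lit 2)) (R (nat_lit 131281))
    (p (nat_lit 0xc9) (nat_lit 0) (p (nat_lit 0x101) (nat_lit 1) (p (nat_lit 0x119) (nat_lit 0) (p (nat_lit 0xc1) (nat_lit 0) (p (nat_lit 0x81) (nat_lit 1) (p (nat_lit 0x41) (nat_lit 1) (p (nat_lit 0x89088787069a) (nat_lit 0) (p (nat_lit 0x88878706861a) (nat_lit 0) (p (nat_lit 0x80000000080686058a) (nat_lit 0) (p (nat_lit 0x8706058502) (nat_lit 0) (p (nat_lit 0x8605850482) (nat_lit 0) (p (nat_lit 0x160014) (nat_lit 0) (p (nat_lit 0x160004) (nat_lit 0) (p (nat_lit 0x68512) (nat_lit 0) (p (nat_lit 0x58492) (nat_lit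 0) (p (nat_lit 0x48412) (nat_lit 0) (p (nat_lit 0x50312) (nat_lit 0) (p (nat_lit 0x40292) (nat_lit 0) (p (nat_lit 0x30212) (nat_lit 0) (p (nat_lit 0x38112) (nat_lit 0) (p (nat_lit 0x28092) (nat_lit 0) (p (nat_lit 0x18012) (nat_lit 0) pn)))))))))))))))))))))) :=
  Cl.node (nat_lit 0xd1) (nat_lit 2) (by decide +kernel) (ClAll.succ (ClAll.succ ClAll.zero s118) n63)

def n89 : Cl (O (nat_lit 2)) (R (nat_lit 131281))
    (p (nat_lit 0xd1) (nat_lit 1) (p (nat_lit 0xc9) (nat_lit 0) (p (nat_lit 0x119) (nat_lit 1) (p (nat_lit 0xc1) (nat_lit 0) (p (nat_lit 0x81) (nat_lit 1) (p (nat_lit 0x41) (nat_lit 1) (p (nat_lit 0x89088787069a) (nat_lit 0) (p (nat_lit 0x88878706861a) (nat_lit 0) (p (nat_lit 0x80000000080686058a) (nat_lit 0) (p (nat_lit 0x8706058502) (nat_lit 0) (p (nat_lit 0x8605850482) (nat_lit 0) (p (nat_lit 0x160014) (nat_lit 0) (p (nat_lit 0x160004) (nat_lit 0) (p (nat_lit 0x68512)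 (nat_lit 0) (p (nat_lit 0x58492) (nat_lit 0) (p (nat_lit 0x48412) (nat_lit 0) (p (nat_lit 0x50312) (nat_lit 0) (p (nat_lit 0x40292) (nat_lit 0) (p (nat_lit 0x30212) (nat_lit 0) (p (nat_lit 0x38112) (nat_lit 0) (p (nat_lit 0x28092) (nat_lit 0) (p (nat_lit 0x18012) (nat_lit 0) pn)))))))))))))))))))))) :=
  Cl.node (nat_lit 0x111) (nat_lit 2) (by decide +kernel) (ClAll.succ (ClAll.succ ClAll.zero s123) n64)

def n90 : Cl (O (nat_lit 2)) (R (nat_lit 131281))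
    (p (nat_lit 0x109) (nat_lit 0) (p (nat_lit 0xc9) (nat_lit 1) (p (nat_lit 0x119) (nat_lit 1) (p (nat_lit 0xc1) (nat_lit 0) (p (nat_lit 0x81) (nat_lit 1) (p (nat_lit 0x41) (nat_lit 1) (p (nat_lit 0x89088787069a) (nat_lit 0) (p (nat_lit 0x88878706861a) (nat_lit 0) (p (nat_lit 0x80000000080686058a) (nat_lit 0) (p (nat_lit 0x8706058502) (nat_lit 0) (p (nat_lit 0x8605850482) (nat_lit 0) (p (nat_lit 0x160014) (nat_lit 0) (p (nat_lit 0x160004) (nat_lit 0) (p (nat_lit 0x68512) (nat_lit 0) (p (nat_lit 0x58492) (nat_lit 0) (p (nat_lit 0x48412) (nat_lit 0) (p (nat_lit 0x50312) (nat_lit 0) (p (nat_lit 0x40292) (nat_lit 0) (p (nat_lit 0x30212) (nat_lit 0) (p (nat_lit 0x38112) (nat_lit 0) (p (nat_lit 0x28092) (nat_lit 0) (p (nat_lit 0x18012) (nat_lit 0) pn)))))))))))))))))))))) :=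
  Cl.node (nat_lit 0x111) (nat_lit 2) (by decide +kernel) (ClAll.succ (ClAll.succ ClAll.zero s126) n65)

def n91 : Cl (O (nat_lit 2)) (R (nat_lit 131281))
    (p (nat_lit 0x109) (nat_lit 1) (p (nat_lit 0xc9) (nat_lit 1) (p (nat_lit 0x119) (nat_lit 1) (p (nat_lit 0xc1) (nat_lit 0) (p (nat_lit 0x81) (nat_lit 1) (p (nat_lit 0x41) (nat_lit 1) (p (nat_lit 0x89088787069a) (nat_lit 0) (p (nat_lit 0x88878706861a) (nat_lit 0) (p (nat_lit 0x80000000080686058a) (nat_lit 0) (p (nat_lit 0x8706058502) (nat_lit 0) (p (nat_lit 0x8605850482) (nat_lit 0) (p (nat_lit 0x160014) (nat_lit 0) (p (nat_lit 0x160004) (nat_lit 0) (p (nat_lit 0x68512) (nat_lit 0) (p (nat_lit 0x58492) (nat_lit 0) (p (nat_lit 0x48412) (nat_lit 0) (p (nat_lit 0x50312) (nat_lit 0) (p (nat_lit 0x40292) (nat_lit 0) (p (nat_lit 0x30212) (nat_lit 0) (p (nat_lit 0x38112) (nat_lit 0) (p (nat_lit 0x28092) (nat_lit 0) (p (nat_lit 0x18012)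 (nat_lit 0) pn)))))))))))))))))))))) :=
  Cl.node (nat_lit 0x20000c) (nat_lit 2) (by decide +kernel) (ClAll.succ (ClAll.succ ClAll.zero s132) n66)

def n92 : Cl (O (nat_lit 2)) (R (nat_lit 131281))
    (p (nat_lit 0x101) (nat_lit 0) (p (nat_lit 0x119) (nat_lit 0) (p (nat_lit 0xd1) (nat_lit 0) (p (nat_lit 0x89) (nat_lit 0) (p (nat_lit 0x41) (nat_lit 0) (p (nat_lit 0x89088787069a) (nat_lit 0) (p (nat_lit 0x88878706861a) (nat_lit 0) (p (nat_lit 0x80000000080686058a) (nat_lit 0) (p (nat_lit 0x8706058502) (nat_lit 0) (p (nat_lit 0x8605850482) (nat_lit 0) (p (nat_lit 0x160014) (nat_lit 0) (p (nat_lit 0x160004) (nat_lit 0) (p (nat_lit 0x68512) (nat_lit 0) (p (nat_lit 0x58492) (nat_lit 0) (p (nat_lit 0x48412) (nat_lit 0) (p (nat_lit 0x50312) (nat_lit 0) (p (nat_lit 0x40292) (nat_lit 0) (p (nat_lit 0x30212) (nat_lit 0) (p (nat_lit 0x38112) (nat_lit 0) (p (nat_lit 0x28092) (nat_lit 0)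 (p (nat_lit 0x18012) (nat_lit 0) pn))))))))))))))))))))) :=
  Cl.node (nat_lit 0x109) (nat_lit 2) (by decide +kernel) (ClAll.succ (ClAll.succ ClAll.zero s0) n67)

def n93 : Cl (O (nat_lit 2)) (R (nat_lit 131281))
    (p (nat_lit 0x101) (nat_lit 1) (p (nat_lit 0x119) (nat_lit 0) (p (nat_lit 0xd1) (nat_lit 0) (p (nat_lit 0x89) (nat_lit 0) (p (nat_lit 0x41) (nat_lit 0) (p (nat_lit 0x89088787069a) (nat_lit 0) (p (nat_lit 0x88878706861a) (nat_lit 0) (p (nat_lit 0x80000000080686058a) (nat_lit 0) (p (nat_lit 0x8706058502) (nat_lit 0) (p (nat_lit 0x8605850482) (nat_lit 0) (p (nat_lit 0x160014) (nat_lit 0) (p (nat_lit 0x160004) (nat_lit 0) (p (nat_lit 0x68512) (nat_lit 0) (p (nat_lit 0x58492) (nat_lit 0) (p (nat_lit 0x48412) (nat_lit 0) (p (nat_lit 0x50312) (nat_lit 0) (p (nat_lit 0x40292) (nat_lit 0) (p (nat_lit 0x30212) (nat_lit 0) (p (nat_lit 0x38112) (nat_lit 0) (p (nat_lit 0x28092)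 (nat_lit 0) (p (nat_lit 0x18012) (nat_lit 0) pn))))))))))))))))))))) :=
  Cl.node (nat_lit 0x81) (nat_lit 2) (by decide +kernel) (ClAll.succ (ClAll.succ ClAll.zero n68) n69)

def n94 : Cl (O (nat_lit 2)) (R (nat_lit 131281))
    (p (nat_lit 0xc1) (nat_lit 0) (p (nat_lit 0x119) (nat_lit 1) (p (nat_lit 0xd1) (nat_lit 0) (p (nat_lit 0x89) (nat_lit 0) (p (nat_lit 0x41) (nat_lit 0) (p (nat_lit 0x89088787069a) (nat_lit 0) (p (nat_lit 0x88878706861a) (nat_lit 0) (p (nat_lit 0x80000000080686058a) (nat_lit 0) (p (nat_lit 0x8706058502) (nat_lit 0) (p (nat_lit 0x8605850482) (nat_lit 0) (p (nat_lit 0x160014) (nat_lit 0) (p (nat_lit 0x160004) (nat_lit 0) (p (nat_lit 0x68512) (nat_lit 0) (p (nat_lit 0x58492) (nat_lit 0) (p (nat_lit 0x48412) (nat_lit 0) (p (nat_lit 0x50312) (nat_lit 0) (p (nat_lit 0x40292) (nat_lit 0) (p (nat_lit 0x30212) (nat_lit 0) (p (nat_lit 0x38112) (nat_lit 0) (p (nat_lit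 0x28092) (nat_lit 0) (p (nat_lit 0x18012) (nat_lit 0) pn))))))))))))))))))))) :=
  Cl.node (nat_lit 0xc9) (nat_lit 2) (by decide +kernel) (ClAll.succ (ClAll.succ ClAll.zero s13) n70)

def n95 : Cl (O (nat_lit 2)) (R (nat_lit 131281))
    (p (nat_lit 0xc1) (nat_lit 1) (p (nat_lit 0x119) (nat_lit 1) (p (nat_lit 0xd1) (nat_lit 0) (p (nat_lit 0x89) (nat_lit 0) (p (nat_lit 0x41) (nat_lit 0) (p (nat_lit 0x89088787069a) (nat_lit 0) (p (nat_lit 0x88878706861a) (nat_lit 0) (p (nat_lit 0x80000000080686058a) (nat_lit 0) (p (nat_lit 0x8706058502) (nat_lit 0) (p (nat_lit 0x8605850482) (nat_lit 0) (p (nat_lit 0x160014) (nat_lit 0) (p (nat_lit 0x160004) (nat_lit 0) (p (nat_lit 0x68512) (nat_lit 0) (p (nat_lit 0x58492) (nat_lit 0) (p (nat_lit 0x48412) (nat_lit 0) (p (nat_lit 0x50312) (nat_lit 0) (p (nat_lit 0x40292) (nat_lit 0) (p (nat_lit 0x30212) (nat_lit 0) (p (nat_lit 0x38112) (nat_lit 0)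 (p (nat_lit 0x28092) (nat_lit 0) (p (nat_lit 0x18012) (nat_lit 0) pn))))))))))))))))))))) :=
  Cl.node (nat_lit 0x81) (nat_lit 2) (by decide +kernel) (ClAll.succ (ClAll.succ ClAll.zero n71) n72)

def n96 : Cl (O (nat_lit 2)) (R (nat_lit 131281))
    (p (nat_lit 0x101) (nat_lit 0) (p (nat_lit 0x111) (nat_lit 0) (p (nat_lit 0xd1) (nat_lit 1) (p (nat_lit 0x89) (nat_lit 0) (p (nat_lit 0x41) (nat_lit 0) (p (nat_lit 0x89088787069a) (nat_lit 0) (p (nat_lit 0x88878706861a) (nat_lit 0) (p (nat_lit 0x80000000080686058a) (nat_lit 0) (p (nat_lit 0x8706058502) (nat_lit 0) (p (nat_lit 0x8605850482) (nat_lit 0) (p (nat_lit 0x160014) (nat_lit 0) (p (nat_lit 0x160004) (nat_lit 0) (p (nat_lit 0x68512) (nat_lit 0) (p (nat_lit 0x58492) (nat_lit 0) (p (nat_lit 0x48412) (nat_lit 0) (p (nat_lit 0x50312) (nat_lit 0) (p (nat_lit 0x40292) (nat_lit 0) (p (nat_lit 0x30212) (nat_lit 0) (p (nat_lit 0x38112)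 (nat_lit 0) (p (nat_lit 0x28092) (nat_lit 0) (p (nat_lit 0x18012) (nat_lit 0) pn))))))))))))))))))))) :=
  Cl.node (nat_lit 0x109) (nat_lit 2) (by decide +kernel) (ClAll.succ (ClAll.succ ClAll.zero s23) s24)

def n97 : Cl (O (nat_lit 2)) (R (nat_lit 131281))
    (p (nat_lit 0x101) (nat_lit 1) (p (nat_lit 0x111) (nat_lit 0) (p (nat_lit 0xd1) (nat_lit 1) (p (nat_lit 0x89) (nat_lit 0) (p (nat_lit 0x41) (nat_lit 0) (p (nat_lit 0x89088787069a) (nat_lit 0) (p (nat_lit 0x88878706861a) (nat_lit 0) (p (nat_lit 0x80000000080686058a) (nat_lit 0) (p (nat_lit 0x8706058502) (nat_lit 0) (p (nat_lit 0x8605850482) (nat_lit 0) (p (nat_lit 0x160014) (nat_lit 0) (p (nat_lit 0x160004) (nat_lit 0) (p (nat_lit 0x68512) (nat_lit 0) (p (nat_lit 0x58492) (nat_lit 0) (p (nat_lit 0x48412) (nat_lit 0) (p (nat_lit 0x50312) (nat_lit 0) (p (nat_lit 0x40292) (nat_lit 0) (p (nat_lit 0x30212) (nat_lit 0) (p (nat_lit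 0x38112) (nat_lit 0) (p (nat_lit 0x28092) (nat_lit 0) (p (nat_lit 0x18012) (nat_lit 0) pn))))))))))))))))))))) :=
  Cl.node (nat_lit 0x81) (nat_lit 2) (by decide +kernel) (ClAll.succ (ClAll.succ ClAll.zero n73) n74)

def n98 : Cl (O (nat_lit 2)) (R (nat_lit 131281))
    (p (nat_lit 0x81) (nat_lit 1) (p (nat_lit 0x111) (nat_lit 1) (p (nat_lit 0xd1) (nat_lit 1) (p (nat_lit 0x89) (nat_lit 0) (p (nat_lit 0x41) (nat_lit 0) (p (nat_lit 0x89088787069a) (nat_lit 0) (p (nat_lit 0x88878706861a) (nat_lit 0) (p (nat_lit 0x80000000080686058a) (nat_lit 0) (p (nat_lit 0x8706058502) (nat_lit 0) (p (nat_lit 0x8605850482) (nat_lit 0) (p (nat_lit 0x160014) (nat_lit 0) (p (nat_lit 0x160004) (nat_lit 0) (p (nat_lit 0x68512) (nat_lit 0) (p (nat_lit 0x58492) (nat_lit 0) (p (nat_lit 0x48412) (nat_lit 0) (p (nat_lit 0x50312) (nat_lit 0) (p (nat_lit 0x40292) (nat_lit 0) (p (nat_lit 0x30212) (nat_lit 0)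 (p (nat_lit 0x38112) (nat_lit 0) (p (nat_lit 0x28092) (nat_lit 0) (p (nat_lit 0x18012) (nat_lit 0) pn))))))))))))))))))))) :=
  Cl.node (nat_lit 0xc1) (nat_lit 2) (by decide +kernel) (ClAll.succ (ClAll.succ ClAll.zero s37) n75)

def n99 : Cl (O (nat_lit 2)) (R (nat_lit 131281))
    (p (nat_lit 0x101) (nat_lit 0) (p (nat_lit 0x119) (nat_lit 0) (p (nat_lit 0xc9) (nat_lit 0) (p (nat_lit 0x89) (nat_lit 1) (p (nat_lit 0x41) (nat_lit 0) (p (nat_lit 0x89088787069a) (nat_lit 0) (p (nat_lit 0x88878706861a) (nat_lit 0) (p (nat_lit 0x80000000080686058a) (nat_lit 0) (p (nat_lit 0x8706058502) (nat_lit 0) (p (nat_lit 0x8605850482) (nat_lit 0) (p (nat_lit 0x160014) (nat_lit 0) (p (nat_lit 0x160004) (nat_lit 0) (p (nat_lit 0x68512) (nat_lit 0) (p (nat_lit 0x58492) (nat_lit 0) (p (nat_lit 0x48412) (nat_lit 0) (p (nat_lit 0x50312) (nat_lit 0) (p (nat_lit 0x40292) (nat_lit 0) (p (nat_lit 0x30212)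 (nat_lit 0) (p (nat_lit 0x38112) (nat_lit 0) (p (nat_lit 0x28092) (nat_lit 0) (p (nat_lit 0x18012) (nat_lit 0) pn))))))))))))))))))))) :=
  Cl.node (nat_lit 0x109) (nat_lit 2) (by decide +kernel) (ClAll.succ (ClAll.succ ClAll.zero s44) n76)

def n100 : Cl (O (nat_lit 2)) (R (nat_lit 131281))
    (p (nat_lit 0x101) (nat_lit 1) (p (nat_lit 0x119) (nat_lit 0) (p (nat_lit 0xc9) (nat_lit 0) (p (nat_lit 0x89) (nat_lit 1) (p (nat_lit 0x41) (nat_lit 0) (p (nat_lit 0x89088787069a) (nat_lit 0) (p (nat_lit 0x88878706861a) (nat_lit 0) (p (nat_lit 0x80000000080686058a) (nat_lit 0) (p (nat_lit 0x8706058502) (nat_lit 0) (p (nat_lit 0x8605850482) (nat_lit 0) (p (nat_lit 0x160014) (nat_lit 0) (p (nat_lit 0x160004) (nat_lit 0) (p (nat_lit 0x68512) (nat_lit 0) (p (nat_lit 0x58492) (nat_lit 0) (p (nat_lit 0x48412) (nat_lit 0) (p (nat_lit 0x50312) (nat_lit 0) (p (nat_lit 0x40292) (nat_lit 0) (p (nat_lit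 0x30212) (nat_lit 0) (p (nat_lit 0x38112) (nat_lit 0) (p (nat_lit 0x28092) (nat_lit 0) (p (nat_lit 0x18012) (nat_lit 0) pn))))))))))))))))))))) :=
  Cl.node (nat_lit 0xc1) (nat_lit 2) (by decide +kernel) (ClAll.succ (ClAll.succ ClAll.zero n77) s53)

def n101 : Cl (O (nat_lit 2)) (R (nat_lit 131281))
    (p (nat_lit 0xc1) (nat_lit 1) (p (nat_lit 0x119) (nat_lit 1) (p (nat_lit 0xc9) (nat_lit 0) (p (nat_lit 0x89) (nat_lit 1) (p (nat_lit 0x41) (nat_lit 0) (p (nat_lit 0x89088787069a) (nat_lit 0) (p (nat_lit 0x88878706861a) (nat_lit 0) (p (nat_lit 0x80000000080686058a) (nat_lit 0) (p (nat_lit 0x8706058502) (nat_lit 0) (p (nat_lit 0x8605850482) (nat_lit 0) (p (nat_lit 0x160014) (nat_lit 0) (p (nat_lit 0x160004) (nat_lit 0) (p (nat_lit 0x68512) (nat_lit 0) (p (nat_lit 0x58492) (nat_lit 0) (p (nat_lit 0x48412) (nat_lit 0) (p (nat_lit 0x50312) (nat_lit 0) (p (nat_lit 0x40292) (nat_lit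 0) (p (nat_lit 0x30212) (nat_lit 0) (p (nat_lit 0x38112) (nat_lit 0) (p (nat_lit 0x28092) (nat_lit 0) (p (nat_lit 0x18012) (nat_lit 0) pn))))))))))))))))))))) :=
  Cl.node (nat_lit 0x101) (nat_lit 2) (by decide +kernel) (ClAll.succ (ClAll.succ ClAll.zero s55) s56)

def n102 : Cl (O (nat_lit 2)) (R (nat_lit 131281))
    (p (nat_lit 0x101) (nat_lit 0) (p (nat_lit 0x119) (nat_lit 0) (p (nat_lit 0xd1) (nat_lit 0) (p (nat_lit 0x81) (nat_lit 0) (p (nat_lit 0x41) (nat_lit 1) (p (nat_lit 0x89088787069a) (nat_lit 0) (p (nat_lit 0x88878706861a) (nat_lit 0) (p (nat_lit 0x80000000080686058a) (nat_lit 0) (p (nat_lit 0x8706058502) (nat_lit 0) (p (nat_lit 0x8605850482) (nat_lit 0) (p (nat_lit 0x160014) (nat_lit 0) (p (nat_lit 0x160004) (nat_lit 0) (p (nat_lit 0x68512) (nat_lit 0) (p (nat_lit 0x58492) (nat_lit 0) (p (nat_lit 0x48412) (nat_lit 0) (p (nat_lit 0x50312) (nat_lit 0) (p (nat_lit 0x40292)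 (nat_lit 0) (p (nat_lit 0x30212) (nat_lit 0) (p (nat_lit 0x38112) (nat_lit 0) (p (nat_lit 0x28092) (nat_lit 0) (p (nat_lit 0x18012) (nat_lit 0) pn))))))))))))))))))))) :=
  Cl.node (nat_lit 0x109) (nat_lit 2) (by decide +kernel) (ClAll.succ (ClAll.succ ClAll.zero s58) n78)

def n103 : Cl (O (nat_lit 2)) (R (nat_lit 131281))
    (p (nat_lit 0x101) (nat_lit 1) (p (nat_lit 0x119) (nat_lit 0) (p (nat_lit 0xd1) (nat_lit 0) (p (nat_lit 0x81) (nat_lit 0) (p (nat_lit 0x41) (nat_lit 1) (p (nat_lit 0x89088787069a) (nat_lit 0) (p (nat_lit 0x88878706861a) (nat_lit 0) (p (nat_lit 0x80000000080686058a) (nat_lit 0) (p (nat_lit 0x8706058502) (nat_lit 0) (p (nat_lit 0x8605850482) (nat_lit 0) (p (nat_lit 0x160014) (nat_lit 0) (p (nat_lit 0x160004) (nat_lit 0) (p (nat_lit 0x68512) (nat_lit 0) (p (nat_lit 0x58492) (nat_lit 0) (p (nat_lit 0x48412) (nat_lit 0) (p (nat_lit 0x50312) (nat_lit 0) (p (nat_lit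 0x40292) (nat_lit 0) (p (nat_lit 0x30212) (nat_lit 0) (p (nat_lit 0x38112) (nat_lit 0) (p (nat_lit 0x28092) (nat_lit 0) (p (nat_lit 0x18012) (nat_lit 0) pn))))))))))))))))))))) :=
  Cl.node (nat_lit 0xc1) (nat_lit 2) (by decide +kernel) (ClAll.succ (ClAll.succ ClAll.zero n79) n80)

def n104 : Cl (O (nat_lit 2)) (R (nat_lit 131281))
    (p (nat_lit 0xc1) (nat_lit 0) (p (nat_lit 0x119) (nat_lit 1) (p (nat_lit 0xd1) (nat_lit 0) (p (nat_lit 0x81) (nat_lit 0) (p (nat_lit 0x41) (nat_lit 1) (p (nat_lit 0x89088787069a) (nat_lit 0) (p (nat_lit 0x88878706861a) (nat_lit 0) (p (nat_lit 0x80000000080686058a) (nat_lit 0) (p (nat_lit 0x8706058502) (nat_lit 0) (p (nat_lit 0x8605850482) (nat_lit 0) (p (nat_lit 0x160014) (nat_lit 0) (p (nat_lit 0x160004) (nat_lit 0) (p (nat_lit 0x68512) (nat_lit 0) (p (nat_lit 0x58492) (nat_lit 0) (p (nat_lit 0x48412) (nat_lit 0) (p (nat_lit 0x50312) (nat_lit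 0) (p (nat_lit 0x40292) (nat_lit 0) (p (nat_lit 0x30212) (nat_lit 0) (p (nat_lit 0x38112) (nat_lit 0) (p (nat_lit 0x28092) (nat_lit 0) (p (nat_lit 0x18012) (nat_lit 0) pn))))))))))))))))))))) :=
  Cl.node (nat_lit 0xc9) (nat_lit 2) (by decide +kernel) (ClAll.succ (ClAll.succ ClAll.zero s77) n81)

def n105 : Cl (O (nat_lit 2)) (R (nat_lit 131281))
    (p (nat_lit 0xc1) (nat_lit 1) (p (nat_lit 0x119) (nat_lit 1) (p (nat_lit 0xd1) (nat_lit 0) (p (nat_lit 0x81) (nat_lit 0) (p (nat_lit 0x41) (nat_lit 1) (p (nat_lit 0x89088787069a) (nat_lit 0) (p (nat_lit 0x88878706861a) (nat_lit 0) (p (nat_lit 0x80000000080686058a) (nat_lit 0) (p (nat_lit 0x8706058502) (nat_lit 0) (p (nat_lit 0x8605850482) (nat_lit 0) (p (nat_lit 0x160014) (nat_lit 0) (p (nat_lit 0x160004) (nat_lit 0) (p (nat_lit 0x68512) (nat_lit 0) (p (nat_lit 0x58492) (nat_lit 0) (p (nat_lit 0x48412) (nat_lit 0) (p (nat_lit 0x50312)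 (nat_lit 0) (p (nat_lit 0x40292) (nat_lit 0) (p (nat_lit 0x30212) (nat_lit 0) (p (nat_lit 0x38112) (nat_lit 0) (p (nat_lit 0x28092) (nat_lit 0) (p (nat_lit 0x18012) (nat_lit 0) pn))))))))))))))))))))) :=
  Cl.node (nat_lit 0x101) (nat_lit 2) (by decide +kernel) (ClAll.succ (ClAll.succ ClAll.zero n82) n83)

def n106 : Cl (O (nat_lit 2)) (R (nat_lit 131281))
    (p (nat_lit 0x101) (nat_lit 0) (p (nat_lit 0x111) (nat_lit 0) (p (nat_lit 0xd1) (nat_lit 1) (p (nat_lit 0x81) (nat_lit 0) (p (nat_lit 0x41) (nat_lit 1) (p (nat_lit 0x89088787069a) (nat_lit 0) (p (nat_lit 0x88878706861a) (nat_lit 0) (p (nat_lit 0x80000000080686058a) (nat_lit 0) (p (nat_lit 0x8706058502) (nat_lit 0) (p (nat_lit 0x8605850482) (nat_lit 0) (p (nat_lit 0x160014) (nat_lit 0) (p (nat_lit 0x160004) (nat_lit 0) (p (nat_lit 0x68512) (nat_lit 0) (p (nat_lit 0x58492) (nat_lit 0) (p (nat_lit 0x48412) (nat_lit 0) (p (nat_lit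 0x50312) (nat_lit 0) (p (nat_lit 0x40292) (nat_lit 0) (p (nat_lit 0x30212) (nat_lit 0) (p (nat_lit 0x38112) (nat_lit 0) (p (nat_lit 0x28092) (nat_lit 0) (p (nat_lit 0x18012) (nat_lit 0) pn))))))))))))))))))))) :=
  Cl.node (nat_lit 0x109) (nat_lit 2) (by decide +kernel) (ClAll.succ (ClAll.succ ClAll.zero s100) n84)

def n107 : Cl (O (nat_lit 2)) (R (nat_lit 131281))
    (p (nat_lit 0x101) (nat_lit 1) (p (nat_lit 0x111) (nat_lit 0) (p (nat_lit 0xd1) (nat_lit 1) (p (nat_lit 0x81) (nat_lit 0) (p (nat_lit 0x41) (nat_lit 1) (p (nat_lit 0x89088787069a) (nat_lit 0) (p (nat_lit 0x88878706861a) (nat_lit 0) (p (nat_lit 0x80000000080686058a) (nat_lit 0) (p (nat_lit 0x8706058502) (nat_lit 0) (p (nat_lit 0x8605850482) (nat_lit 0) (p (nat_lit 0x160014) (nat_lit 0) (p (nat_lit 0x160004) (nat_lit 0) (p (nat_lit 0x68512) (nat_lit 0) (p (nat_lit 0x58492) (nat_lit 0) (p (nat_lit 0x48412) (nat_lit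 0) (p (nat_lit 0x50312) (nat_lit 0) (p (nat_lit 0x40292) (nat_lit 0) (p (nat_lit 0x30212) (nat_lit 0) (p (nat_lit 0x38112) (nat_lit 0) (p (nat_lit 0x28092) (nat_lit 0) (p (nat_lit 0x18012) (nat_lit 0) pn))))))))))))))))))))) :=
  Cl.node (nat_lit 0x89) (nat_lit 2) (by decide +kernel) (ClAll.succ (ClAll.succ ClAll.zero s108) n85)

def n108 : Cl (O (nat_lit 2)) (R (nat_lit 131281))
    (p (nat_lit 0x89) (nat_lit 1) (p (nat_lit 0x111) (nat_lit 1) (p (nat_lit 0xd1) (nat_lit 1) (p (nat_lit 0x81) (nat_lit 0) (p (nat_lit 0x41) (nat_lit 1) (p (nat_lit 0x89088787069a) (nat_lit 0) (p (nat_lit 0x88878706861a) (nat_lit 0) (p (nat_lit 0x80000000080686058a) (nat_lit 0) (p (nat_lit 0x8706058502) (nat_lit 0) (p (nat_lit 0x8605850482) (nat_lit 0) (p (nat_lit 0x160014) (nat_lit 0) (p (nat_lit 0x160004) (nat_lit 0) (p (nat_lit 0x68512) (nat_lit 0) (p (nat_lit 0x58492) (nat_lit 0) (p (nat_lit 0x48412)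 (nat_lit 0) (p (nat_lit 0x50312) (nat_lit 0) (p (nat_lit 0x40292) (nat_lit 0) (p (nat_lit 0x30212) (nat_lit 0) (p (nat_lit 0x38112) (nat_lit 0) (p (nat_lit 0x28092) (nat_lit 0) (p (nat_lit 0x18012) (nat_lit 0) pn))))))))))))))))))))) :=
  Cl.node (nat_lit 0xc9) (nat_lit 2) (by decide +kernel) (ClAll.succ (ClAll.succ ClAll.zero s112) n86)

def n109 : Cl (O (nat_lit 2)) (R (nat_lit 131281))
    (p (nat_lit 0x101) (nat_lit 0) (p (nat_lit 0x119) (nat_lit 0) (p (nat_lit 0xc1) (nat_lit 0) (p (nat_lit 0x81) (nat_lit 1) (p (nat_lit 0x41) (nat_lit 1) (p (nat_lit 0x89088787069a) (nat_lit 0) (p (nat_lit 0x88878706861a) (nat_lit 0) (p (nat_lit 0x80000000080686058a) (nat_lit 0) (p (nat_lit 0x8706058502) (nat_lit 0) (p (nat_lit 0x8605850482) (nat_lit 0) (p (nat_lit 0x160014) (nat_lit 0) (p (nat_lit 0x160004) (nat_lit 0) (p (nat_lit 0x68512) (nat_lit 0) (p (nat_lit 0x58492) (nat_lit 0) (p (nat_lit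 0x48412) (nat_lit 0) (p (nat_lit 0x50312) (nat_lit 0) (p (nat_lit 0x40292) (nat_lit 0) (p (nat_lit 0x30212) (nat_lit 0) (p (nat_lit 0x38112) (nat_lit 0) (p (nat_lit 0x28092) (nat_lit 0) (p (nat_lit 0x18012) (nat_lit 0) pn))))))))))))))))))))) :=
  Cl.node (nat_lit 0x109) (nat_lit 2) (by decide +kernel) (ClAll.succ (ClAll.succ ClAll.zero s115) n87)

def n110 : Cl (O (nat_lit 2)) (R (nat_lit 131281))
    (p (nat_lit 0x101) (nat_lit 1) (p (nat_lit 0x119) (nat_lit 0) (p (nat_lit 0xc1) (nat_lit 0) (p (nat_lit 0x81) (nat_lit 1) (p (nat_lit 0x41) (nat_lit 1) (p (nat_lit 0x89088787069a) (nat_lit 0) (p (nat_lit 0x88878706861a) (nat_lit 0) (p (nat_lit 0x80000000080686058a) (nat_lit 0) (p (nat_lit 0x8706058502) (nat_lit 0) (p (nat_lit 0x8605850482) (nat_lit 0) (p (nat_lit 0x160014) (nat_lit 0) (p (nat_lit 0x160004) (nat_lit 0) (p (nat_lit 0x68512) (nat_lit 0) (p (nat_lit 0x58492) (nat_lit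 0) (p (nat_lit 0x48412) (nat_lit 0) (p (nat_lit 0x50312) (nat_lit 0) (p (nat_lit 0x40292) (nat_lit 0) (p (nat_lit 0x30212) (nat_lit 0) (p (nat_lit 0x38112) (nat_lit 0) (p (nat_lit 0x28092) (nat_lit 0) (p (nat_lit 0x18012) (nat_lit 0) pn))))))))))))))))))))) :=
  Cl.node (nat_lit 0xc9) (nat_lit 2) (by decide +kernel) (ClAll.succ (ClAll.succ ClAll.zero n88) s121)

def n111 : Cl (O (nat_lit 2)) (R (nat_lit 131281))
    (p (nat_lit 0xc9) (nat_lit 0) (p (nat_lit 0x119) (nat_lit 1) (p (nat_lit 0xc1) (nat_lit 0) (p (nat_lit 0x81) (nat_lit 1) (p (nat_lit 0x41) (nat_lit 1) (p (nat_lit 0x89088787069a) (nat_lit 0) (p (nat_lit 0x88878706861a) (nat_lit 0) (p (nat_lit 0x80000000080686058a) (nat_lit 0) (p (nat_lit 0x8706058502) (nat_lit 0) (p (nat_lit 0x8605850482) (nat_lit 0) (p (nat_lit 0x160014) (nat_lit 0) (p (nat_lit 0x160004) (nat_lit 0) (p (nat_lit 0x68512) (nat_lit 0) (p (nat_lit 0x58492)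 (nat_lit 0) (p (nat_lit 0x48412) (nat_lit 0) (p (nat_lit 0x50312) (nat_lit 0) (p (nat_lit 0x40292) (nat_lit 0) (p (nat_lit 0x30212) (nat_lit 0) (p (nat_lit 0x38112) (nat_lit 0) (p (nat_lit 0x28092) (nat_lit 0) (p (nat_lit 0x18012) (nat_lit 0) pn))))))))))))))))))))) :=
  Cl.node (nat_lit 0xd1) (nat_lit 2) (by decide +kernel) (ClAll.succ (ClAll.succ ClAll.zero s122) n89)

def n112 : Cl (O (nat_lit 2)) (R (nat_lit 131281))
    (p (nat_lit 0xc9) (nat_lit 1) (p (nat_lit 0x119) (nat_lit 1) (p (nat_lit 0xc1) (nat_lit 0) (p (nat_lit 0x81) (nat_lit 1) (p (nat_lit 0x41) (nat_lit 1) (p (nat_lit 0x89088787069a) (nat_lit 0) (p (nat_lit 0x88878706861a) (nat_lit 0) (p (nat_lit 0x80000000080686058a) (nat_lit 0) (p (nat_lit 0x8706058502) (nat_lit 0) (p (nat_lit 0x8605850482) (nat_lit 0) (p (nat_lit 0x160014) (nat_lit 0) (p (nat_lit 0x160004) (nat_lit 0) (p (nat_lit 0x68512) (nat_lit 0) (p (nat_lit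 0x58492) (nat_lit 0) (p (nat_lit 0x48412) (nat_lit 0) (p (nat_lit 0x50312) (nat_lit 0) (p (nat_lit 0x40292) (nat_lit 0) (p (nat_lit 0x30212) (nat_lit 0) (p (nat_lit 0x38112) (nat_lit 0) (p (nat_lit 0x28092) (nat_lit 0) (p (nat_lit 0x18012) (nat_lit 0) pn))))))))))))))))))))) :=
  Cl.node (nat_lit 0x109) (nat_lit 2) (by decide +kernel) (ClAll.succ (ClAll.succ ClAll.zero n90) n91)

def n113 : Cl (O (nat_lit 2)) (R (nat_lit 131281))
    (p (nat_lit 0x119) (nat_lit 0) (p (nat_lit 0xd1) (nat_lit 0) (p (nat_lit 0x89) (nat_lit 0) (p (nat_lit 0x41) (nat_lit 0) (p (nat_lit 0x89088787069a) (nat_lit 0) (p (nat_lit 0x88878706861a) (nat_lit 0) (p (nat_lit 0x80000000080686058a) (nat_lit 0) (p (nat_lit 0x8706058502) (nat_lit 0) (p (nat_lit 0x8605850482) (nat_lit 0) (p (nat_lit 0x160014) (nat_lit 0) (p (nat_lit 0x160004) (nat_lit 0) (p (nat_lit 0x68512) (nat_lit 0) (p (nat_lit 0x58492) (nat_lit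 0) (p (nat_lit 0x48412) (nat_lit 0) (p (nat_lit 0x50312) (nat_lit 0) (p (nat_lit 0x40292) (nat_lit 0) (p (nat_lit 0x30212) (nat_lit 0) (p (nat_lit 0x38112) (nat_lit 0) (p (nat_lit 0x28092) (nat_lit 0) (p (nat_lit 0x18012) (nat_lit 0) pn)))))))))))))))))))) :=
  Cl.node (nat_lit 0x101) (nat_lit 2) (by decide +kernel) (ClAll.succ (ClAll.succ ClAll.zero n92) n93)

def n114 : Cl (O (nat_lit 2)) (R (nat_lit 131281))
    (p (nat_lit 0x119) (nat_lit 1) (p (nat_lit 0xd1) (nat_lit 0) (p (nat_lit 0x89) (nat_lit 0) (p (nat_lit 0x41) (nat_lit 0) (p (nat_lit 0x89088787069a) (nat_lit 0) (p (nat_lit 0x88878706861a) (nat_lit 0) (p (nat_lit 0x80000000080686058a) (nat_lit 0) (p (nat_lit 0x8706058502) (nat_lit 0) (p (nat_lit 0x8605850482) (nat_lit 0) (p (nat_lit 0x160014) (nat_lit 0) (p (nat_lit 0x160004) (nat_lit 0) (p (nat_lit 0x68512) (nat_lit 0) (p (nat_lit 0x58492) (nat_lit 0) (p (nat_lit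 0x48412) (nat_lit 0) (p (nat_lit 0x50312) (nat_lit 0) (p (nat_lit 0x40292) (nat_lit 0) (p (nat_lit 0x30212) (nat_lit 0) (p (nat_lit 0x38112) (nat_lit 0) (p (nat_lit 0x28092) (nat_lit 0) (p (nat_lit 0x18012) (nat_lit 0) pn)))))))))))))))))))) :=
  Cl.node (nat_lit 0xc1) (nat_lit 2) (by decide +kernel) (ClAll.succ (ClAll.succ ClAll.zero n94) n95)

def n115 : Cl (O (nat_lit 2)) (R (nat_lit 131281))
    (p (nat_lit 0x111) (nat_lit 0) (p (nat_lit 0xd1) (nat_lit 1) (p (nat_lit 0x89) (nat_lit 0) (p (nat_lit 0x41) (nat_lit 0) (p (nat_lit 0x89088787069a) (nat_lit 0) (p (nat_lit 0x88878706861a) (nat_lit 0) (p (nat_lit 0x80000000080686058a) (nat_lit 0) (p (nat_lit 0x8706058502) (nat_lit 0) (p (nat_lit 0x8605850482) (nat_lit 0) (p (nat_lit 0x160014) (nat_lit 0) (p (nat_lit 0x160004) (nat_lit 0) (p (nat_lit 0x68512) (nat_lit 0) (p (nat_lit 0x58492) (nat_lit 0) (p (nat_lit 0x48412) (nat_lit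 0) (p (nat_lit 0x50312) (nat_lit 0) (p (nat_lit 0x40292) (nat_lit 0) (p (nat_lit 0x30212) (nat_lit 0) (p (nat_lit 0x38112) (nat_lit 0) (p (nat_lit 0x28092) (nat_lit 0) (p (nat_lit 0x18012) (nat_lit 0) pn)))))))))))))))))))) :=
  Cl.node (nat_lit 0x101) (nat_lit 2) (by decide +kernel) (ClAll.succ (ClAll.succ ClAll.zero n96) n97)

def n116 : Cl (O (nat_lit 2)) (R (nat_lit 131281))
    (p (nat_lit 0x111) (nat_lit 1) (p (nat_lit 0xd1) (nat_lit 1) (p (nat_lit 0x89) (nat_lit 0) (p (nat_lit 0x41) (nat_lit 0) (p (nat_lit 0x89088787069a) (nat_lit 0) (p (nat_lit 0x88878706861a) (nat_lit 0) (p (nat_lit 0x80000000080686058a) (nat_lit 0) (p (nat_lit 0x8706058502) (nat_lit 0) (p (nat_lit 0x8605850482) (nat_lit 0) (p (nat_lit 0x160014) (nat_lit 0) (p (nat_lit 0x160004) (nat_lit 0) (p (nat_lit 0x68512) (nat_lit 0) (p (nat_lit 0x58492) (nat_lit 0) (p (nat_lit 0x48412) (nat_lit 0) (p (nat_lit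 0x50312) (nat_lit 0) (p (nat_lit 0x40292) (nat_lit 0) (p (nat_lit 0x30212) (nat_lit 0) (p (nat_lit 0x38112) (nat_lit 0) (p (nat_lit 0x28092) (nat_lit 0) (p (nat_lit 0x18012) (nat_lit 0) pn)))))))))))))))))))) :=
  Cl.node (nat_lit 0x81) (nat_lit 2) (by decide +kernel) (ClAll.succ (ClAll.succ ClAll.zero s36) n98)

def n117 : Cl (O (nat_lit 2)) (R (nat_lit 131281))
    (p (nat_lit 0x119) (nat_lit 0) (p (nat_lit 0xc9) (nat_lit 0) (p (nat_lit 0x89) (nat_lit 1) (p (nat_lit 0x41) (nat_lit 0) (p (nat_lit 0x89088787069a) (nat_lit 0) (p (nat_lit 0x88878706861a) (nat_lit 0) (p (nat_lit 0x80000000080686058a) (nat_lit 0) (p (nat_lit 0x8706058502) (nat_lit 0) (p (nat_lit 0x8605850482) (nat_lit 0) (p (nat_lit 0x160014) (nat_lit 0) (p (nat_lit 0x160004) (nat_lit 0) (p (nat_lit 0x68512) (nat_lit 0) (p (nat_lit 0x58492) (nat_lit 0) (p (nat_lit 0x48412) (nat_lit 0) (p (nat_lit 0x50312) (nat_lit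 0) (p (nat_lit 0x40292) (nat_lit 0) (p (nat_lit 0x30212) (nat_lit 0) (p (nat_lit 0x38112) (nat_lit 0) (p (nat_lit 0x28092) (nat_lit 0) (p (nat_lit 0x18012) (nat_lit 0) pn)))))))))))))))))))) :=
  Cl.node (nat_lit 0x101) (nat_lit 2) (by decide +kernel) (ClAll.succ (ClAll.succ ClAll.zero n99) n100)

def n118 : Cl (O (nat_lit 2)) (R (nat_lit 131281))
    (p (nat_lit 0x119) (nat_lit 1) (p (nat_lit 0xc9) (nat_lit 0) (p (nat_lit 0x89) (nat_lit 1) (p (nat_lit 0x41) (nat_lit 0) (p (nat_lit 0x89088787069a) (nat_lit 0) (p (nat_lit 0x88878706861a) (nat_lit 0) (p (nat_lit 0x80000000080686058a) (nat_lit 0) (p (nat_lit 0x8706058502) (nat_lit 0) (p (nat_lit 0x8605850482) (nat_lit 0) (p (nat_lit 0x160014) (nat_lit 0) (p (nat_lit 0x160004) (nat_lit 0) (p (nat_lit 0x68512) (nat_lit 0) (p (nat_lit 0x58492) (nat_lit 0) (p (nat_lit 0x48412) (nat_lit 0) (p (nat_lit 0x50312) (nat_lit 0) (p (nat_lit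 0x40292) (nat_lit 0) (p (nat_lit 0x30212) (nat_lit 0) (p (nat_lit 0x38112) (nat_lit 0) (p (nat_lit 0x28092) (nat_lit 0) (p (nat_lit 0x18012) (nat_lit 0) pn)))))))))))))))))))) :=
  Cl.node (nat_lit 0xc1) (nat_lit 2) (by decide +kernel) (ClAll.succ (ClAll.succ ClAll.zero s54) n101)

def n119 : Cl (O (nat_lit 2)) (R (nat_lit 131281))
    (p (nat_lit 0x119) (nat_lit 0) (p (nat_lit 0xd1) (nat_lit 0) (p (nat_lit 0x81) (nat_lit 0) (p (nat_lit 0x41) (nat_lit 1) (p (nat_lit 0x89088787069a) (nat_lit 0) (p (nat_lit 0x88878706861a) (nat_lit 0) (p (nat_lit 0x80000000080686058a) (nat_lit 0) (p (nat_lit 0x8706058502) (nat_lit 0) (p (nat_lit 0x8605850482) (nat_lit 0) (p (nat_lit 0x160014) (nat_lit 0) (p (nat_lit 0x160004) (nat_lit 0) (p (nat_lit 0x68512) (nat_lit 0) (p (nat_lit 0x58492) (nat_lit 0) (p (nat_lit 0x48412) (nat_lit 0) (p (nat_lit 0x50312) (nat_lit 0) (p (nat_lit 0x40292) (nat_lit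 0) (p (nat_lit 0x30212) (nat_lit 0) (p (nat_lit 0x38112) (nat_lit 0) (p (nat_lit 0x28092) (nat_lit 0) (p (nat_lit 0x18012) (nat_lit 0) pn)))))))))))))))))))) :=
  Cl.node (nat_lit 0x101) (nat_lit 2) (by decide +kernel) (ClAll.succ (ClAll.succ ClAll.zero n102) n103)

def n120 : Cl (O (nat_lit 2)) (R (nat_lit 131281))
    (p (nat_lit 0x119) (nat_lit 1) (p (nat_lit 0xd1) (nat_lit 0) (p (nat_lit 0x81) (nat_lit 0) (p (nat_lit 0x41) (nat_lit 1) (p (nat_lit 0x89088787069a) (nat_lit 0) (p (nat_lit 0x88878706861a) (nat_lit 0) (p (nat_lit 0x80000000080686058a) (nat_lit 0) (p (nat_lit 0x8706058502) (nat_lit 0) (p (nat_lit 0x8605850482) (nat_lit 0) (p (nat_lit 0x160014) (nat_lit 0) (p (nat_lit 0x160004) (nat_lit 0) (p (nat_lit 0x68512) (nat_lit 0) (p (nat_lit 0x58492) (nat_lit 0) (p (nat_lit 0x48412) (nat_lit 0) (p (nat_lit 0x50312) (nat_lit 0) (p (nat_lit 0x40292) (nat_lit 0) (p (nat_lit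 0x30212) (nat_lit 0) (p (nat_lit 0x38112) (nat_lit 0) (p (nat_lit 0x28092) (nat_lit 0) (p (nat_lit 0x18012) (nat_lit 0) pn)))))))))))))))))))) :=
  Cl.node (nat_lit 0xc1) (nat_lit 2) (by decide +kernel) (ClAll.succ (ClAll.succ ClAll.zero n104) n105)

def n121 : Cl (O (nat_lit 2)) (R (nat_lit 131281))
    (p (nat_lit 0x111) (nat_lit 0) (p (nat_lit 0xd1) (nat_lit 1) (p (nat_lit 0x81) (nat_lit 0) (p (nat_lit 0x41) (nat_lit 1) (p (nat_lit 0x89088787069a) (nat_lit 0) (p (nat_lit 0x88878706861a) (nat_lit 0) (p (nat_lit 0x80000000080686058a) (nat_lit 0) (p (nat_lit 0x8706058502) (nat_lit 0) (p (nat_lit 0x8605850482) (nat_lit 0) (p (nat_lit 0x160014) (nat_lit 0) (p (nat_lit 0x160004) (nat_lit 0) (p (nat_lit 0x68512) (nat_lit 0) (p (nat_lit 0x58492) (nat_lit 0) (p (nat_lit 0x48412) (nat_lit 0) (p (nat_lit 0x50312) (nat_lit 0) (p (nat_lit 0x40292) (nat_lit 0) (p (nat_lit 0x30212) (nat_lit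 0) (p (nat_lit 0x38112) (nat_lit 0) (p (nat_lit 0x28092) (nat_lit 0) (p (nat_lit 0x18012) (nat_lit 0) pn)))))))))))))))))))) :=
  Cl.node (nat_lit 0x101) (nat_lit 2) (by decide +kernel) (ClAll.succ (ClAll.succ ClAll.zero n106) n107)

def n122 : Cl (O (nat_lit 2)) (R (nat_lit 131281))
    (p (nat_lit 0x111) (nat_lit 1) (p (nat_lit 0xd1) (nat_lit 1) (p (nat_lit 0x81) (nat_lit 0) (p (nat_lit 0x41) (nat_lit 1) (p (nat_lit 0x89088787069a) (nat_lit 0) (p (nat_lit 0x88878706861a) (nat_lit 0) (p (nat_lit 0x80000000080686058a) (nat_lit 0) (p (nat_lit 0x8706058502) (nat_lit 0) (p (nat_lit 0x8605850482) (nat_lit 0) (p (nat_lit 0x160014) (nat_lit 0) (p (nat_lit 0x160004) (nat_lit 0) (p (nat_lit 0x68512) (nat_lit 0) (p (nat_lit 0x58492) (nat_lit 0) (p (nat_lit 0x48412) (nat_lit 0) (p (nat_lit 0x50312) (nat_lit 0) (p (nat_lit 0x40292) (nat_lit 0) (p (nat_lit 0x30212) (nat_lit 0) (p (nat_lit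 0x38112) (nat_lit 0) (p (nat_lit 0x28092) (nat_lit 0) (p (nat_lit 0x18012) (nat_lit 0) pn)))))))))))))))))))) :=
  Cl.node (nat_lit 0x89) (nat_lit 2) (by decide +kernel) (ClAll.succ (ClAll.succ ClAll.zero s111) n108)

def n123 : Cl (O (nat_lit 2)) (R (nat_lit 131281))
    (p (nat_lit 0x119) (nat_lit 0) (p (nat_lit 0xc1) (nat_lit 0) (p (nat_lit 0x81) (nat_lit 1) (p (nat_lit 0x41) (nat_lit 1) (p (nat_lit 0x89088787069a) (nat_lit 0) (p (nat_lit 0x88878706861a) (nat_lit 0) (p (nat_lit 0x80000000080686058a) (nat_lit 0) (p (nat_lit 0x8706058502) (nat_lit 0) (p (nat_lit 0x8605850482) (nat_lit 0) (p (nat_lit 0x160014) (nat_lit 0) (p (nat_lit 0x160004) (nat_lit 0) (p (nat_lit 0x68512) (nat_lit 0) (p (nat_lit 0x58492) (nat_lit 0) (p (nat_lit 0x48412) (nat_lit 0) (p (nat_lit 0x50312) (nat_lit 0) (p (nat_lit 0x40292) (nat_lit 0) (p (nat_lit 0x30212) (nat_lit 0) (p (nat_lit 0x38112) (nat_lit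 0) (p (nat_lit 0x28092) (nat_lit 0) (p (nat_lit 0x18012) (nat_lit 0) pn)))))))))))))))))))) :=
  Cl.node (nat_lit 0x101) (nat_lit 2) (by decide +kernel) (ClAll.succ (ClAll.succ ClAll.zero n109) n110)

def n124 : Cl (O (nat_lit 2)) (R (nat_lit 131281))
    (p (nat_lit 0x119) (nat_lit 1) (p (nat_lit 0xc1) (nat_lit 0) (p (nat_lit 0x81) (nat_lit 1) (p (nat_lit 0x41) (nat_lit 1) (p (nat_lit 0x89088787069a) (nat_lit 0) (p (nat_lit 0x88878706861a) (nat_lit 0) (p (nat_lit 0x80000000080686058a) (nat_lit 0) (p (nat_lit 0x8706058502) (nat_lit 0) (p (nat_lit 0x8605850482) (nat_lit 0) (p (nat_lit 0x160014) (nat_lit 0) (p (nat_lit 0x160004) (nat_lit 0) (p (nat_lit 0x68512) (nat_lit 0) (p (nat_lit 0x58492) (nat_lit 0) (p (nat_lit 0x48412) (nat_lit 0) (p (nat_lit 0x50312) (nat_lit 0) (p (nat_lit 0x40292) (nat_lit 0) (p (nat_lit 0x30212) (nat_lit 0) (p (nat_lit 0x38112) (nat_lit 0) (p (nat_lit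 0x28092) (nat_lit 0) (p (nat_lit 0x18012) (nat_lit 0) pn)))))))))))))))))))) :=
  Cl.node (nat_lit 0xc9) (nat_lit 2) (by decide +kernel) (ClAll.succ (ClAll.succ ClAll.zero n111) n112)

def n125 : Cl (O (nat_lit 2)) (R (nat_lit 131281))
    (p (nat_lit 0xd1) (nat_lit 0) (p (nat_lit 0x89) (nat_lit 0) (p (nat_lit 0x41) (nat_lit 0) (p (nat_lit 0x89088787069a) (nat_lit 0) (p (nat_lit 0x88878706861a) (nat_lit 0) (p (nat_lit 0x80000000080686058a) (nat_lit 0) (p (nat_lit 0x8706058502) (nat_lit 0) (p (nat_lit 0x8605850482) (nat_lit 0) (p (nat_lit 0x160014) (nat_lit 0) (p (nat_lit 0x160004) (nat_lit 0) (p (nat_lit 0x68512) (nat_lit 0) (p (nat_lit 0x58492) (nat_lit 0) (p (nat_lit 0x48412) (nat_lit 0) (p (nat_lit 0x50312) (nat_lit 0) (p (nat_lit 0x40292) (nat_lit 0) (p (nat_lit 0x30212) (nat_lit 0) (p (nat_lit 0x38112) (nat_lit 0) (p (nat_lit 0x28092) (nat_lit 0) (p (nat_lit 0x18012) (nat_lit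 0) pn))))))))))))))))))) :=
  Cl.node (nat_lit 0x119) (nat_lit 2) (by decide +kernel) (ClAll.succ (ClAll.succ ClAll.zero n113) n114)

def n126 : Cl (O (nat_lit 2)) (R (nat_lit 131281))
    (p (nat_lit 0xd1) (nat_lit 1) (p (nat_lit 0x89) (nat_lit 0) (p (nat_lit 0x41) (nat_lit 0) (p (nat_lit 0x89088787069a) (nat_lit 0) (p (nat_lit 0x88878706861a) (nat_lit 0) (p (nat_lit 0x80000000080686058a) (nat_lit 0) (p (nat_lit 0x8706058502) (nat_lit 0) (p (nat_lit 0x8605850482) (nat_lit 0) (p (nat_lit 0x160014) (nat_lit 0) (p (nat_lit 0x160004) (nat_lit 0) (p (nat_lit 0x68512) (nat_lit 0) (p (nat_lit 0x58492) (nat_lit 0) (p (nat_lit 0x48412) (nat_lit 0) (p (nat_lit 0x50312) (nat_lit 0) (p (nat_lit 0x40292) (nat_lit 0) (p (nat_lit 0x30212) (nat_lit 0) (p (nat_lit 0x38112) (nat_lit 0) (p (nat_lit 0x28092) (nat_lit 0) (p (nat_lit 0x18012) (nat_lit 0) pn))))))))))))))))))) :=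
  Cl.node (nat_lit 0x111) (nat_lit 2) (by decide +kernel) (ClAll.succ (ClAll.succ ClAll.zero n115) n116)

def n127 : Cl (O (nat_lit 2)) (R (nat_lit 131281))
    (p (nat_lit 0xc9) (nat_lit 0) (p (nat_lit 0x89) (nat_lit 1) (p (nat_lit 0x41) (nat_lit 0) (p (nat_lit 0x89088787069a) (nat_lit 0) (p (nat_lit 0x88878706861a) (nat_lit 0) (p (nat_lit 0x80000000080686058a) (nat_lit 0) (p (nat_lit 0x8706058502) (nat_lit 0) (p (nat_lit 0x8605850482) (nat_lit 0) (p (nat_lit 0x160014) (nat_lit 0) (p (nat_lit 0x160004) (nat_lit 0) (p (nat_lit 0x68512) (nat_lit 0) (p (nat_lit 0x58492) (nat_lit 0) (p (nat_lit 0x48412) (nat_lit 0) (p (nat_lit 0x50312) (nat_lit 0) (p (nat_lit 0x40292) (nat_lit 0) (p (nat_lit 0x30212) (nat_lit 0) (p (nat_lit 0x38112) (nat_lit 0) (p (nat_lit 0x28092) (nat_lit 0) (p (nat_lit 0x18012) (nat_lit 0) pn))))))))))))))))))) :=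
  Cl.node (nat_lit 0x119) (nat_lit 2) (by decide +kernel) (ClAll.succ (ClAll.succ ClAll.zero n117) n118)

def n128 : Cl (O (nat_lit 2)) (R (nat_lit 131281))
    (p (nat_lit 0xd1) (nat_lit 0) (p (nat_lit 0x81) (nat_lit 0) (p (nat_lit 0x41) (nat_lit 1) (p (nat_lit 0x89088787069a) (nat_lit 0) (p (nat_lit 0x88878706861a) (nat_lit 0) (p (nat_lit 0x80000000080686058a) (nat_lit 0) (p (nat_lit 0x8706058502) (nat_lit 0) (p (nat_lit 0x8605850482) (nat_lit 0) (p (nat_lit 0x160014) (nat_lit 0) (p (nat_lit 0x160004) (nat_lit 0) (p (nat_lit 0x68512) (nat_lit 0) (p (nat_lit 0x58492) (nat_lit 0) (p (nat_lit 0x48412) (nat_lit 0) (p (nat_lit 0x50312) (nat_lit 0) (p (nat_lit 0x40292) (nat_lit 0) (p (nat_lit 0x30212) (nat_lit 0) (p (nat_lit 0x38112) (nat_lit 0) (p (nat_lit 0x28092) (nat_lit 0) (p (nat_lit 0x18012) (nat_lit 0) pn))))))))))))))))))) :=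
  Cl.node (nat_lit 0x119) (nat_lit 2) (by decide +kernel) (ClAll.succ (ClAll.succ ClAll.zero n119) n120)

def n129 : Cl (O (nat_lit 2)) (R (nat_lit 131281))
    (p (nat_lit 0xd1) (nat_lit 1) (p (nat_lit 0x81) (nat_lit 0) (p (nat_lit 0x41) (nat_lit 1) (p (nat_lit 0x89088787069a) (nat_lit 0) (p (nat_lit 0x88878706861a) (nat_lit 0) (p (nat_lit 0x80000000080686058a) (nat_lit 0) (p (nat_lit 0x8706058502) (nat_lit 0) (p (nat_lit 0x8605850482) (nat_lit 0) (p (nat_lit 0x160014) (nat_lit 0) (p (nat_lit 0x160004) (nat_lit 0) (p (nat_lit 0x68512) (nat_lit 0) (p (nat_lit 0x58492) (nat_lit 0) (p (nat_lit 0x48412) (nat_lit 0) (p (nat_lit 0x50312) (nat_lit 0) (p (nat_lit 0x40292) (nat_lit 0) (p (nat_lit 0x30212) (nat_lit 0) (p (nat_lit 0x38112) (nat_lit 0) (p (nat_lit 0x28092) (nat_lit 0) (p (nat_lit 0x18012) (nat_lit 0) pn))))))))))))))))))) :=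
  Cl.node (nat_lit 0x111) (nat_lit 2) (by decide +kernel) (ClAll.succ (ClAll.succ ClAll.zero n121) n122)

def n130 : Cl (O (nat_lit 2)) (R (nat_lit 131281))
    (p (nat_lit 0xc1) (nat_lit 0) (p (nat_lit 0x81) (nat_lit 1) (p (nat_lit 0x41) (nat_lit 1) (p (nat_lit 0x89088787069a) (nat_lit 0) (p (nat_lit 0x88878706861a) (nat_lit 0) (p (nat_lit 0x80000000080686058a) (nat_lit 0) (p (nat_lit 0x8706058502) (nat_lit 0) (p (nat_lit 0x8605850482) (nat_lit 0) (p (nat_lit 0x160014) (nat_lit 0) (p (nat_lit 0x160004) (nat_lit 0) (p (nat_lit 0x68512) (nat_lit 0) (p (nat_lit 0x58492) (nat_lit 0) (p (nat_lit 0x48412) (nat_lit 0) (p (nat_lit 0x50312) (nat_lit 0) (p (nat_lit 0x40292) (nat_lit 0) (p (nat_lit 0x30212) (nat_lit 0) (p (nat_lit 0x38112) (nat_lit 0) (p (nat_lit 0x28092) (nat_lit 0) (p (nat_lit 0x18012) (nat_lit 0) pn))))))))))))))))))) :=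
  Cl.node (nat_lit 0x119) (nat_lit 2) (by decide +kernel) (ClAll.succ (ClAll.succ ClAll.zero n123) n124)

def n131 : Cl (O (nat_lit 2)) (R (nat_lit 131281))
    (p (nat_lit 0x89) (nat_lit 0) (p (nat_lit 0x41) (nat_lit 0) (p (nat_lit 0x89088787069a) (nat_lit 0) (p (nat_lit 0x88878706861a) (nat_lit 0) (p (nat_lit 0x80000000080686058a) (nat_lit 0) (p (nat_lit 0x8706058502) (nat_lit 0) (p (nat_lit 0x8605850482) (nat_lit 0) (p (nat_lit 0x160014) (nat_lit 0) (p (nat_lit 0x160004) (nat_lit 0) (p (nat_lit 0x68512) (nat_lit 0) (p (nat_lit 0x58492) (nat_lit 0) (p (nat_lit 0x48412) (nat_lit 0) (p (nat_lit 0x50312) (nat_lit 0) (p (nat_lit 0x40292) (nat_lit 0) (p (nat_lit 0x30212) (nat_lit 0) (p (nat_lit 0x38112) (nat_lit 0) (p (nat_lit 0x28092) (nat_lit 0) (p (nat_lit 0x18012) (nat_lit 0) pn)))))))))))))))))) :=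
  Cl.node (nat_lit 0xd1) (nat_lit 2) (by decide +kernel) (ClAll.succ (ClAll.succ ClAll.zero n125) n126)

def n132 : Cl (O (nat_lit 2)) (R (nat_lit 131281))
    (p (nat_lit 0x89) (nat_lit 1) (p (nat_lit 0x41) (nat_lit 0) (p (nat_lit 0x89088787069a) (nat_lit 0) (p (nat_lit 0x88878706861a) (nat_lit 0) (p (nat_lit 0x80000000080686058a) (nat_lit 0) (p (nat_lit 0x8706058502) (nat_lit 0) (p (nat_lit 0x8605850482) (nat_lit 0) (p (nat_lit 0x160014) (nat_lit 0) (p (nat_lit 0x160004) (nat_lit 0) (p (nat_lit 0x68512) (nat_lit 0) (p (nat_lit 0x58492) (nat_lit 0) (p (nat_lit 0x48412) (nat_lit 0) (p (nat_lit 0x50312) (nat_lit 0) (p (nat_lit 0x40292) (nat_lit 0) (p (nat_lit 0x30212) (nat_lit 0) (p (nat_lit 0x38112) (nat_lit 0) (p (nat_lit 0x28092) (nat_lit 0) (p (nat_lit 0x18012) (nat_lit 0) pn)))))))))))))))))) :=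
  Cl.node (nat_lit 0xc9) (nat_lit 2) (by decide +kernel) (ClAll.succ (ClAll.succ ClAll.zero n127) s57)

def n133 : Cl (O (nat_lit 2)) (R (nat_lit 131281))
    (p (nat_lit 0x81) (nat_lit 0) (p (nat_lit 0x41) (nat_lit 1) (p (nat_lit 0x89088787069a) (nat_lit 0) (p (nat_lit 0x88878706861a) (nat_lit 0) (p (nat_lit 0x80000000080686058a) (nat_lit 0) (p (nat_lit 0x8706058502) (nat_lit 0) (p (nat_lit 0x8605850482) (nat_lit 0) (p (nat_lit 0x160014) (nat_lit 0) (p (nat_lit 0x160004) (nat_lit 0) (p (nat_lit 0x68512) (nat_lit 0) (p (nat_lit 0x58492) (nat_lit 0) (p (nat_lit 0x48412) (nat_lit 0) (p (nat_lit 0x50312) (nat_lit 0) (p (nat_lit 0x40292) (nat_lit 0) (p (nat_lit 0x30212) (nat_lit 0) (p (nat_lit 0x38112) (nat_lit 0) (p (nat_lit 0x28092) (nat_lit 0) (p (nat_lit 0x18012) (nat_lit 0) pn)))))))))))))))))) :=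
  Cl.node (nat_lit 0xd1) (nat_lit 2) (by decide +kernel) (ClAll.succ (ClAll.succ ClAll.zero n128) n129)

def n134 : Cl (O (nat_lit 2)) (R (nat_lit 131281))
    (p (nat_lit 0x81) (nat_lit 1) (p (nat_lit 0x41) (nat_lit 1) (p (nat_lit 0x89088787069a) (nat_lit 0) (p (nat_lit 0x88878706861a) (nat_lit 0) (p (nat_lit 0x80000000080686058a) (nat_lit 0) (p (nat_lit 0x8706058502) (nat_lit 0) (p (nat_lit 0x8605850482) (nat_lit 0) (p (nat_lit 0x160014) (nat_lit 0) (p (nat_lit 0x160004) (nat_lit 0) (p (nat_lit 0x68512) (nat_lit 0) (p (nat_lit 0x58492) (nat_lit 0) (p (nat_lit 0x48412) (nat_lit 0) (p (nat_lit 0x50312) (nat_lit 0) (p (nat_lit 0x40292) (nat_lit 0) (p (nat_lit 0x30212) (nat_lit 0) (p (nat_lit 0x38112) (nat_lit 0) (p (nat_lit 0x28092) (nat_lit 0) (p (nat_lit 0x18012) (nat_lit 0) pn)))))))))))))))))) :=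
  Cl.node (nat_lit 0xc1) (nat_lit 2) (by decide +kernel) (ClAll.succ (ClAll.succ ClAll.zero n130) s138)

def n135 : Cl (O (nat_lit 2)) (R (nat_lit 131281))
    (p (nat_lit 0x41) (nat_lit 0) (p (nat_lit 0x89088787069a) (nat_lit 0) (p (nat_lit 0x88878706861a) (nat_lit 0) (p (nat_lit 0x80000000080686058a) (nat_lit 0) (p (nat_lit 0x8706058502) (nat_lit 0) (p (nat_lit 0x8605850482) (nat_lit 0) (p (nat_lit 0x160014) (nat_lit 0) (p (nat_lit 0x160004) (nat_lit 0) (p (nat_lit 0x68512) (nat_lit 0) (p (nat_lit 0x58492) (nat_lit 0) (p (nat_lit 0x48412) (nat_lit 0) (p (nat_lit 0x50312) (nat_lit 0) (p (nat_lit 0x40292) (nat_lit 0) (p (nat_lit 0x30212) (nat_lit 0) (p (nat_lit 0x38112) (nat_lit 0) (p (nat_lit 0x28092) (nat_lit 0) (p (nat_lit 0x18012) (nat_lit 0) pn))))))))))))))))) :=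
  Cl.node (nat_lit 0x89) (nat_lit 2) (by decide +kernel) (ClAll.succ (ClAll.succ ClAll.zero n131) n132)

def n136 : Cl (O (nat_lit 2)) (R (nat_lit 131281))
    (p (nat_lit 0x41) (nat_lit 1) (p (nat_lit 0x89088787069a) (nat_lit 0) (p (nat_lit 0x88878706861a) (nat_lit 0) (p (nat_lit 0x80000000080686058a) (nat_lit 0) (p (nat_lit 0x8706058502) (nat_lit 0) (p (nat_lit 0x8605850482) (nat_lit 0) (p (nat_lit 0x160014) (nat_lit 0) (p (nat_lit 0x160004) (nat_lit 0) (p (nat_lit 0x68512) (nat_lit 0) (p (nat_lit 0x58492) (nat_lit 0) (p (nat_lit 0x48412) (nat_lit 0) (p (nat_lit 0x50312) (nat_lit 0) (p (nat_lit 0x40292) (nat_lit 0) (p (nat_lit 0x30212) (nat_lit 0) (p (nat_lit 0x38112) (nat_lit 0) (p (nat_lit 0x28092) (nat_lit 0) (p (nat_lit 0x18012) (nat_lit 0) pn))))))))))))))))) :=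
  Cl.node (nat_lit 0x81) (nat_lit 2) (by decide +kernel) (ClAll.succ (ClAll.succ ClAll.zero n133) n134)

def n137 : Cl (O (nat_lit 2)) (R (nat_lit 131281))
    (p (nat_lit 0x89088787069a) (nat_lit 0) (p (nat_lit 0x88878706861a) (nat_lit 0) (p (nat_lit 0x80000000080686058a) (nat_lit 0) (p (nat_lit 0x8706058502) (nat_lit 0) (p (nat_lit 0x8605850482) (nat_lit 0) (p (nat_lit 0x160014) (nat_lit 0) (p (nat_lit 0x160004) (nat_lit 0) (p (nat_lit 0x68512) (nat_lit 0) (p (nat_lit 0x58492) (nat_lit 0) (p (nat_lit 0x48412) (nat_lit 0) (p (nat_lit 0x50312) (nat_lit 0) (p (nat_lit 0x40292) (nat_lit 0) (p (nat_lit 0x30212) (nat_lit 0) (p (nat_lit 0x38112) (nat_lit 0) (p (nat_lit 0x28092) (nat_lit 0) (p (nat_lit 0x18012) (nat_lit 0) pn)))))))))))))))) :=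
  Cl.node (nat_lit 0x41) (nat_lit 2) (by decide +kernel) (ClAll.succ (ClAll.succ ClAll.zero n135) n136)

def n138 : Cl (O (nat_lit 2)) (R (nat_lit 131281))
    (p (nat_lit 0x88878706861a) (nat_lit 0) (p (nat_lit 0x80000000080686058a) (nat_lit 0) (p (nat_lit 0x8706058502) (nat_lit 0) (p (nat_lit 0x8605850482) (nat_lit 0) (p (nat_lit 0x160014) (nat_lit 0) (p (nat_lit 0x160004) (nat_lit 0) (p (nat_lit 0x68512) (nat_lit 0) (p (nat_lit 0x58492) (nat_lit 0) (p (nat_lit 0x48412) (nat_lit 0) (p (nat_lit 0x50312) (nat_lit 0) (p (nat_lit 0x40292) (nat_lit 0) (p (nat_lit 0x30212) (nat_lit 0) (p (nat_lit 0x38112) (nat_lit 0) (p (nat_lit 0x28092) (nat_lit 0) (p (nat_lit 0x18012) (nat_lit 0) pn))))))))))))))) :=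
  Cl.node (nat_lit 0x89088787069a) (nat_lit 1) (by decide +kernel) (ClAll.succ ClAll.zero n137)

def n139 : Cl (O (nat_lit 2)) (R (nat_lit 131281))
    (p (nat_lit 0x80000000080686058a) (nat_lit 0) (p (nat_lit 0x8706058502) (nat_lit 0) (p (nat_lit 0x8605850482) (nat_lit 0) (p (nat_lit 0x160014) (nat_lit 0) (p (nat_lit 0x160004) (nat_lit 0) (p (nat_lit 0x68512) (nat_lit 0) (p (nat_lit 0x58492) (nat_lit 0) (p (nat_lit 0x48412) (nat_lit 0) (p (nat_lit 0x50312) (nat_lit 0) (p (nat_lit 0x40292) (nat_lit 0) (p (nat_lit 0x30212) (nat_lit 0) (p (nat_lit 0x38112) (nat_lit 0) (p (nat_lit 0x28092) (nat_lit 0) (p (nat_lit 0x18012) (nat_lit 0) pn)))))))))))))) :=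
  Cl.node (nat_lit 0x88878706861a) (nat_lit 1) (by decide +kernel) (ClAll.succ ClAll.zero n138)

def n140 : Cl (O (nat_lit 2)) (R (nat_lit 131281))
    (p (nat_lit 0x8706058502) (nat_lit 0) (p (nat_lit 0x8605850482) (nat_lit 0) (p (nat_lit 0x160014) (nat_lit 0) (p (nat_lit 0x160004) (nat_lit 0) (p (nat_lit 0x68512) (nat_lit 0) (p (nat_lit 0x58492) (nat_lit 0) (p (nat_lit 0x48412) (nat_lit 0) (p (nat_lit 0x50312) (nat_lit 0) (p (nat_lit 0x40292) (nat_lit 0) (p (nat_lit 0x30212) (nat_lit 0) (p (nat_lit 0x38112) (nat_lit 0) (p (nat_lit 0x28092) (nat_lit 0) (p (nat_lit 0x18012) (nat_lit 0) pn))))))))))))) :=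
  Cl.node (nat_lit 0x80000000080686058a) (nat_lit 1) (by decide +kernel) (ClAll.succ ClAll.zero n139)

def n141 : Cl (O (nat_lit 2)) (R (nat_lit 131281))
    (p (nat_lit 0x8605850482) (nat_lit 0) (p (nat_lit 0x160014) (nat_lit 0) (p (nat_lit 0x160004) (nat_lit 0) (p (nat_lit 0x68512) (nat_lit 0) (p (nat_lit 0x58492) (nat_lit 0) (p (nat_lit 0x48412) (nat_lit 0) (p (nat_lit 0x50312) (nat_lit 0) (p (nat_lit 0x40292) (nat_lit 0) (p (nat_lit 0x30212) (nat_lit 0) (p (nat_lit 0x38112) (nat_lit 0) (p (nat_lit 0x28092) (nat_lit 0) (p (nat_lit 0x18012) (nat_lit 0) pn)))))))))))) :=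
  Cl.node (nat_lit 0x8706058502) (nat_lit 1) (by decide +kernel) (ClAll.succ ClAll.zero n140)

def n142 : Cl (O (nat_lit 2)) (R (nat_lit 131281))
    (p (nat_lit 0x160014) (nat_lit 0) (p (nat_lit 0x160004) (nat_lit 0) (p (nat_lit 0x68512) (nat_lit 0) (p (nat_lit 0x58492) (nat_lit 0) (p (nat_lit 0x48412) (nat_lit 0) (p (nat_lit 0x50312) (nat_lit 0) (p (nat_lit 0x40292) (nat_lit 0) (p (nat_lit 0x30212) (nat_lit 0) (p (nat_lit 0x38112) (nat_lit 0) (p (nat_lit 0x28092) (nat_lit 0) (p (nat_lit 0x18012) (nat_lit 0) pn))))))))))) :=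
  Cl.node (nat_lit 0x8605850482) (nat_lit 1) (by decide +kernel) (ClAll.succ ClAll.zero n141)

def n143 : Cl (O (nat_lit 2)) (R (nat_lit 131281))
    (p (nat_lit 0x160004) (nat_lit 0) (p (nat_lit 0x68512) (nat_lit 0) (p (nat_lit 0x58492) (nat_lit 0) (p (nat_lit 0x48412) (nat_lit 0) (p (nat_lit 0x50312) (nat_lit 0) (p (nat_lit 0x40292) (nat_lit 0) (p (nat_lit 0x30212) (nat_lit 0) (p (nat_lit 0x38112) (nat_lit 0) (p (nat_lit 0x28092) (nat_lit 0) (p (nat_lit 0x18012) (nat_lit 0) pn)))))))))) :=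
  Cl.node (nat_lit 0x160014) (nat_lit 2) (by decide +kernel) (ClAll.succ (ClAll.succ ClAll.zero n142) s139)

def n144 : Cl (O (nat_lit 2)) (R (nat_lit 131281))
    (p (nat_lit 0x68512) (nat_lit 0) (p (nat_lit 0x58492) (nat_lit 0) (p (nat_lit 0x48412) (nat_lit 0) (p (nat_lit 0x50312) (nat_lit 0) (p (nat_lit 0x40292) (nat_lit 0) (p (nat_lit 0x30212) (nat_lit 0) (p (nat_lit 0x38112) (nat_lit 0) (p (nat_lit 0x28092) (nat_lit 0) (p (nat_lit 0x18012) (nat_lit 0) pn))))))))) :=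
  Cl.node (nat_lit 0x160004) (nat_lit 2) (by decide +kernel) (ClAll.succ (ClAll.succ ClAll.zero n143) s140)

def n145 : Cl (O (nat_lit 2)) (R (nat_lit 131281))
    (p (nat_lit 0x58492) (nat_lit 0) (p (nat_lit 0x48412) (nat_lit 0) (p (nat_lit 0x50312) (nat_lit 0) (p (nat_lit 0x40292) (nat_lit 0) (p (nat_lit 0x30212) (nat_lit 0) (p (nat_lit 0x38112) (nat_lit 0) (p (nat_lit 0x28092) (nat_lit 0) (p (nat_lit 0x18012) (nat_lit 0) pn)))))))) :=
  Cl.node (nat_lit 0x68512) (nat_lit 1) (by decide +kernel) (ClAll.succ ClAll.zero n144)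

def n146 : Cl (O (nat_lit 2)) (R (nat_lit 131281))
    (p (nat_lit 0x48412) (nat_lit 0) (p (nat_lit 0x50312) (nat_lit 0) (p (nat_lit 0x40292) (nat_lit 0) (p (nat_lit 0x30212) (nat_lit 0) (p (nat_lit 0x38112) (nat_lit 0) (p (nat_lit 0x28092) (nat_lit 0) (p (nat_lit 0x18012) (nat_lit 0) pn))))))) :=
  Cl.node (nat_lit 0x58492) (nat_lit 1) (by decide +kernel) (ClAll.succ ClAll.zero n145)

def n147 : Cl (O (nat_lit 2)) (R (nat_lit 131281))
    (p (nat_lit 0x50312) (nat_lit 0) (p (nat_lit 0x40292) (nat_lit 0) (p (nat_lit 0x30212) (nat_lit 0) (p (nat_lit 0x38112) (nat_lit 0) (p (nat_lit 0x28092) (nat_lit 0) (p (nat_lit 0x18012) (nat_lit 0) pn)))))) :=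
  Cl.node (nat_lit 0x48412) (nat_lit 1) (by decide +kernel) (ClAll.succ ClAll.zero n146)

def n148 : Cl (O (nat_lit 2)) (R (nat_lit 131281))
    (p (nat_lit 0x40292) (nat_lit 0) (p (nat_lit 0x30212) (nat_lit 0) (p (nat_lit 0x38112) (nat_lit 0) (p (nat_lit 0x28092) (nat_lit 0) (p (nat_lit 0x18012) (nat_lit 0) pn))))) :=
  Cl.node (nat_lit 0x50312) (nat_lit 1) (by decide +kernel) (ClAll.succ ClAll.zero n147)

def n149 : Cl (O (nat_lit 2)) (R (nat_lit 131281))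
    (p (nat_lit 0x30212) (nat_lit 0) (p (nat_lit 0x38112) (nat_lit 0) (p (nat_lit 0x28092) (nat_lit 0) (p (nat_lit 0x18012) (nat_lit 0) pn)))) :=
  Cl.node (nat_lit 0x40292) (nat_lit 1) (by decide +kernel) (ClAll.succ ClAll.zero n148)

def n150 : Cl (O (nat_lit 2)) (R (nat_lit 131281))
    (p (nat_lit 0x38112) (nat_lit 0) (p (nat_lit 0x28092) (nat_lit 0) (p (nat_lit 0x18012) (nat_lit 0) pn))) :=
  Cl.node (nat_lit 0x30212) (nat_lit 1) (by decide +kernel) (ClAll.succ ClAll.zero n149)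

def n151 : Cl (O (nat_lit 2)) (R (nat_lit 131281))
    (p (nat_lit 0x28092) (nat_lit 0) (p (nat_lit 0x18012) (nat_lit 0) pn)) :=
  Cl.node (nat_lit 0x38112) (nat_lit 1) (by decide +kernel) (ClAll.succ ClAll.zero n150)

def n152 : Cl (O (nat_lit 2)) (R (nat_lit 131281))
    (p (nat_lit 0x18012) (nat_lit 0) pn) :=
  Cl.node (nat_lit 0x28092) (nat_lit 1) (by decide +kernel) (ClAll.succ ClAll.zero n151)

def n153 : Cl (O (nat_lit 2)) (R (nat_lit 131281))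
    pn :=
  Cl.node (nat_lit 0x18012) (nat_lit 1) (by decide +kernel) (ClAll.succ ClAll.zero n152)

theorem top : Cl (O (nat_lit 2)) (R (nat_lit 131281)) pn := n153

end Pool.Agent.Gen.F5.X123CCDm2
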